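import Pool.Agent.H15.KNH.Loz

/-!
# The base case: one block, in one coarse cell

The family is split by the side information, the age and the height; on each piece either the
relative entropy is small, and **(BOX)** is applied, or it is large, and the dead move is paid by it.
-/

set_option autoImplicit false

namespace Pool.KNH

open Finset Real
open Pool.Agent.H49.Ent Pool.Agent.H32.Dense Pool.STK Pool.KA
open Pool.KM7 (Nng Psh P2 P2_isLaw P2_fst P2_snd P2_pos avg_Ex avg_CH cond_isLaw BL Lv fbl gibbs)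
open Pool.KN (co Adm fN nng_fN co_one)

variable {m : ℕ} {L : LB m} {G : GS L.Cx L.V} {C : ℝ} {g : ℕ}

theorem Ex_eq_of {Ω : Type} [Fintype Ω] {p : Ω → ℝ} (hp : ∀ ω, 0 ≤ p ω) {f h : Ω → ℝ}
    (hfh : ∀ ω, 0 < p ω → f ω = h ω) : Ex p f = Ex p h :=
  le_antisymm (Ex_mono hp fun ω hω => (hfh ω hω).le) (Ex_mono hp fun ω hω => (hfh ω hω).ge)

/-! ### Classes of the height -/

/-- The code of the classes of the height. -/
theorem cls_hx {J l : ℕ} (hl : 1 ≤ l) {F : Fam m J} {c : F.ζ → L.Cx}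
    {k : ℕ} {b : F.Ω → L.V} {T : Type} (W : F.Ω → T) :
    CH F.p (fun ω => Nat.log 2 ((l + L.age (b ω) + L.hx (c (F.Z ω)) (b ω)) /
      (l + L.age (b ω)))) W ≤ 2 * L.cod F l c k b := by
  have hl2 : 0 < Real.log 2 := Real.log_pos (by norm_num)
  have hlr : (1 : ℝ) ≤ l := by exact_mod_cast hl
  have h1 := CH_le_kraft F.isLaw (fun ω => Nat.log 2 ((l + L.age (b ω) +
    L.hx (c (F.Z ω)) (b ω)) / (l + L.age (b ω)))) W
    (fun ω => 2 * L.lgv l k (c (F.Z ω)) (b ω)) (fun _ =>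
      ⟨fun i => (1 / 2 : ℝ) ^ (i + 1), ⟨fun i => by positivity, fun S => ?_⟩, fun ω _ _ => ?_⟩)
  · rw [Ex_cmul] at h1
    exact h1
  · obtain ⟨n, hn⟩ : ∃ n, S ⊆ range n := by
      refine ⟨S.sup id + 1, fun i hi => Finset.mem_range.mpr ?_⟩
      have : i ≤ S.sup id := Finset.le_sup (f := id) hi
      omega
    calc ∑ i ∈ S, (1 / 2 : ℝ) ^ (i + 1) ≤ ∑ i ∈ range n, (1 / 2 : ℝ) ^ (i + 1) :=
          Finset.sum_le_sum_of_subset_of_nonneg hn fun _ _ _ => by positivity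
      _ = 1 - (1 / 2) ^ n := half_sum n
      _ ≤ 1 := by
          have : (0 : ℝ) ≤ (1 / 2) ^ n := by positivity
          linarith
  · obtain ⟨j, hj⟩ : ∃ j, j = Nat.log 2 ((l + L.age (b ω) +
      L.hx (c (F.Z ω)) (b ω)) / (l + L.age (b ω))) := ⟨_, rfl⟩
    rw [← hj]
    refine ⟨by positivity, ?_⟩
    have h2 := (cls_le (l := l + L.age (b ω)) (n := L.hx (c (F.Z ω)) (b ω)) (by omega)).1
    rw [← hj] at h2
    push_cast at h2
    have a1 : (0 : ℝ) ≤ L.age (b ω) := Nat.cast_nonneg _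
    have a2 : (0 : ℝ) ≤ L.hx (c (F.Z ω)) (b ω) := Nat.cast_nonneg _
    have a3 : (0 : ℝ) ≤ k := Nat.cast_nonneg _
    have a4 : (0 : ℝ) < (l : ℝ) + L.age (b ω) := by linarith
    have h3 : (2 : ℝ) ^ j ≤ 2 + ((k : ℝ) + L.hx (c (F.Z ω)) (b ω)) / (l + L.age (b ω)) := by
      have h4 : (2 : ℝ) ^ j ≤ (((l : ℝ) + L.age (b ω)) + L.hx (c (F.Z ω)) (b ω)) /
          (l + L.age (b ω)) := by
        rw [le_div_iff₀ a4]
        exact h2
      have h5 : (((l : ℝ) + L.age (b ω)) + L.hx (c (F.Z ω)) (b ω)) / (l + L.age (b ω)) ≤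
          2 + ((k : ℝ) + L.hx (c (F.Z ω)) (b ω)) / (l + L.age (b ω)) := by
        rw [div_le_iff₀ a4, add_mul, div_mul_cancel₀ _ a4.ne']
        linarith
      linarith
    have h4 : Real.log ((2 : ℝ) ^ j) ≤ L.lgv l k (c (F.Z ω)) (b ω) :=
      Real.log_le_log (by positivity) h3
    have h5 := L.log_two_le hlr k (c (F.Z ω)) (b ω)
    have h6 : -Real.log ((1 / 2 : ℝ) ^ (j + 1)) = Real.log ((2 : ℝ) ^ j) + Real.log 2 := by
      rw [one_div, inv_pow, Real.log_inv, neg_neg, pow_succ, Real.log_mul (by positivity)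
        (by norm_num)]
    rw [h6]
    linarith

/-! ### One block -/

/-- The relative entropy of one block is not negative. -/
theorem kl_nn {J w l : ℕ} (F : Fam m J) (y : F.Ω → BL l) (hy : Det F.p (bas F w) y) :
    ent F w l ≤ Ex F.p (fun ω => -Real.log ((y ω).1 (blk F w l ω))) := by
  have h1 := gibbs (Y := BL l) (f := fun y t => -Real.log (y.1 t)) (Λ := 1) (K := l) one_pos
    (by
      intro y
      have h2 : ∀ t ∈ range (2 ^ l), Real.exp (-(-Real.log (y.1 t)) / 1) = y.1 t := by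
        intro t ht
        rw [neg_neg, div_one, Real.exp_log (y.pos (Finset.mem_range.mp ht))]
      rw [Finset.sum_congr rfl h2]
      exact y.2.2.1) F.isLaw y (blk F w l) (fun ω => Nat.mod_lt _ (by positivity)) (bas F w) hy
  rw [one_mul] at h1
  exact h1

/-- The entropy of one block. -/
theorem ent_le {J w l : ℕ} (F : Fam m J) : ent F w l ≤ l * Real.log 2 := by
  refine (CH_le_card F.isLaw.nonneg F.isLaw.sum_one (blk F w l) (bas F w)
    (fun _ => Finset.range (2 ^ l))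
    (fun ω _ => Finset.mem_range.mpr (Nat.mod_lt _ (by positivity)))).trans ?_
  rw [Ex_const F.isLaw.sum_one, Finset.card_range]
  push_cast
  rw [Real.log_pow]

/-- The good samples: the string is live, the label is not deep. -/
def Good (L : LB m) (κ : ℝ) (ℓ K : ℕ) (η : ℝ) (J M : ℕ) (ys : ℕ → BL ℓ) (v : L.V) : Prop :=
  Lv ℓ K η (ys 0).1 M ∧ L.dp J v < ndc m κ

/-- The cost of a block with live strings. -/
theorem co_live {J w ℓ sh K : ℕ} {η Λ : ℝ} (hJ : J = w + ℓ * 1 + ℓ * sh) (F : Fam m J)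
    (y : ℕ → F.Ω → BL ℓ) (hl : ∀ ω, 0 < F.p ω → Lv ℓ K η (y sh ω).1 (blk F w ℓ ω)) :
    co (fN (m + 1) ℓ K η Λ) Λ ℓ 1 sh F y = (ℓ * Real.log 2 - ent F w ℓ) +
      (Λ - 1) * (Ex F.p (fun ω => -Real.log ((y sh ω).1 (blk F w ℓ ω))) - ent F w ℓ) := by
  have e1 : J - (w + ℓ) = ℓ * sh := by omega
  have e2 : J - w = ℓ * (sh + 1) := by
    have : ℓ * (sh + 1) = ℓ * sh + ℓ := by ring
    omega
  have hb : ∀ ω, blk F w ℓ ω = F.T ω / 2 ^ (ℓ * sh) % 2 ^ ℓ := fun ω => by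
    unfold blk
    rw [e1]
  have h1 : ent F w ℓ = CH F.p (fun ω => F.T ω / 2 ^ (ℓ * sh) % 2 ^ ℓ)
      (fun ω => ((F.l ω, F.Z ω), F.T ω / 2 ^ (ℓ * (sh + 1)))) := by
    unfold ent
    congr 1
    · funext ω
      exact hb ω
    · funext ω
      unfold bas
      rw [e2]
  have h2 : Ex F.p (fun ω => fN (m + 1) ℓ K η Λ (y sh ω) (F.T ω / 2 ^ (ℓ * sh) % 2 ^ ℓ)) =
      ℓ * Real.log 2 + (Λ - 1) *
        Ex F.p (fun ω => -Real.log ((y sh ω).1 (blk F w ℓ ω))) := by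
    rw [← Ex_cmul, ← Ex_const F.isLaw.sum_one (ℓ * Real.log 2), ← Ex_add]
    refine Ex_eq_of F.isLaw.nonneg fun ω hω => ?_
    have h3 := hl ω hω
    rw [hb ω] at h3 ⊢
    show fbl ℓ (Lv ℓ K η) _ Λ (y sh ω) _ = _
    unfold fbl
    rw [if_pos h3]
    ring
  rw [co_one, h2, ← h1]
  ring

/-- The box, for given constants. -/
def LB.BoxAt (L : LB m) (κ ε η θ : ℝ) (K R₀ g G r₁ : ℕ) : Prop :=
  ∀ (J w l R : ℕ), R₀ ≤ l → l ≤ R → w + l ≤ J → ∀ F : Fam m J,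
    (∀ ω ω', 0 < F.p ω → 0 < F.p ω' → F.Z ω = F.Z ω') → ∀ c : F.ζ → L.Cx,
    (∀ ω, 0 < F.p ω → L.cw (c (F.Z ω)) w) → ∀ (k : ℕ) (b : F.Ω → L.V),
    L.Ok F (w + l) c k g b → (∀ ω, 0 < F.p ω → L.dp J (b ω) < ndc m κ) →
    (∀ ω, 0 < F.p ω → l + L.age (b ω) + L.hx (c (F.Z ω)) (b ω) ≤ R) →
    ∀ y : F.Ω → BL l, Det F.p (bas F w) y →
    (∀ ω, 0 < F.p ω → Lv l K η (y ω).1 (blk F w l ω)) →
    Ex F.p (fun ω => -Real.log ((y ω).1 (blk F w l ω))) - ent F w l ≤ θ * R →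
    ∃ (E : Type) (_ : Fintype E) (p' : E → ℝ) (hp' : IsLaw p') (pr : E → F.Ω) (b' : E → L.V),
      Psh p' pr F.p ∧ L.Ok (F.ext p' hp' pr) w c k (g + G) b' ∧
      (∀ e, 0 < p' e → L.age (b' e) = 0 ∧ L.Sub (r₁ * R) (b (pr e)) (b' e)) ∧
      L.Psi F (fun _ _ => 0) (w + l) b - (l * Real.log 2 - ent F w l) - ε * R -
        Ex F.p (fun ω => L.exc (c (F.Z ω)) (b ω)) ≤
        L.Psi (F.ext p' hp' pr) (fun _ _ => 0) w b'

/-- The local loss of one block. -/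
noncomputable def loB (L : LB m) (ℓ : ℕ) (Λ ε₂ σ C : ℝ) (_J _w k : ℕ) (c : L.Cx) (v : L.V) : ℝ :=
  5 * (1 + Λ) * L.lgv ℓ k c v + ε₂ * (4 * ((ℓ : ℝ) + L.age v + L.hx c v)) + L.exc c v + C -
    σ * L.age v

/-- One piece: the box is applied to the label. -/
theorem box_get {κ ε η θ ς σ : ℝ} {K R₀ G₁ r₁ : ℕ} (hB : L.BoxAt κ ε η θ K R₀ g G₁ r₁)
    {J w l R : ℕ} (hl : R₀ ≤ l) (hlR : l ≤ R) (hwJ : w + l ≤ J) (F : Fam m J)
    (hZ : ∀ ω ω', 0 < F.p ω → 0 < F.p ω' → F.Z ω = F.Z ω') (c : F.ζ → L.Cx)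
    (hc : ∀ ω, 0 < F.p ω → L.cw (c (F.Z ω)) w) (k : ℕ) (b : F.Ω → L.V)
    (hb : L.Ok F (w + l) c k g b) (hnd : ∀ ω, 0 < F.p ω → L.dp J (b ω) < ndc m κ)
    (hR : ∀ ω, 0 < F.p ω → l + L.age (b ω) + L.hx (c (F.Z ω)) (b ω) ≤ R)
    (y : F.Ω → BL l) (hy : Det F.p (bas F w) y)
    (hlive : ∀ ω, 0 < F.p ω → Lv l K η (y ω).1 (blk F w l ω))
    (hkl : Ex F.p (fun ω => -Real.log ((y ω).1 (blk F w l ω))) - ent F w l ≤ θ * R)
    (pn : F.ζ → L.V → ℝ) (hpn : ∀ z, L.Pen σ κ ς (pn z)) :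
    L.Get F w c k (g + G₁) pn (L.Psi F pn (w + l) b - (l * Real.log 2 - ent F w l) -
      (ε + ς * r₁) * R - Ex F.p (fun ω => L.exc (c (F.Z ω)) (b ω)) +
      σ * Ex F.p (fun ω => (L.age (b ω) : ℝ))) := by
  obtain ⟨E, inst, p', hp', pr, b', h1, h2, h3, h4⟩ := hB J w l R hl hlR hwJ F hZ c hc k b hb hnd
    hR y hy hlive hkl
  refine ⟨E, inst, p', hp', pr, b', h1, h2, ?_⟩
  have e1 := LA.Psi_pn (L := L.toLA) (F.ext p' hp' pr) (fun _ _ => 0) pn w b'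
  have e2 := LA.Psi_pn (L := L.toLA) F (fun _ _ => 0) pn (w + l) b
  have e3 : Ex p' (fun e => pn (F.Z (pr e)) (b' e)) ≤
      Ex F.p (fun ω => pn (F.Z ω) (b ω)) - σ * Ex F.p (fun ω => (L.age (b ω) : ℝ)) +
        ς * r₁ * R := by
    have h5 : Ex p' (fun e => pn (F.Z (pr e)) (b' e)) ≤
        Ex p' (fun e => (pn (F.Z (pr e)) (b (pr e)) + (-σ) * (L.age (b (pr e)) : ℝ)) +
          ς * r₁ * R) := by
      refine Ex_mono hp'.nonneg fun e he => ?_
      have h6 := (hpn (F.Z (pr e))).2 _ _ _ (h3 e he).2 (h3 e he).1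
      push_cast at h6
      linarith
    rw [Ex_add_const hp', Ex_add, Ex_cmul] at h5
    have h7 : Ex p' (fun e => pn (F.Z (pr e)) (b (pr e))) =
        Ex F.p (fun ω => pn (F.Z ω) (b ω)) := h1.Ex_eq (fun ω => pn (F.Z ω) (b ω))
    have h8 : Ex p' (fun e => (L.age (b (pr e)) : ℝ)) =
        Ex F.p (fun ω => (L.age (b ω) : ℝ)) := h1.Ex_eq (fun ω => (L.age (b ω) : ℝ))
    rw [h7, h8] at h5
    linarith
  have e4 : Ex (F.ext p' hp' pr).p (fun ω => pn ((F.ext p' hp' pr).Z ω) (b' ω)) =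
      Ex p' (fun e => pn (F.Z (pr e)) (b' e)) := rfl
  rw [e4] at e1
  have e5 : Ex (F.ext p' hp' pr).p (fun _ => (0 : ℝ)) = 0 := Ex_const (F.ext p' hp' pr).isLaw.sum_one 0
  have e6 : Ex F.p (fun _ => (0 : ℝ)) = 0 := Ex_const F.isLaw.sum_one 0
  rw [e5] at e1
  rw [e6] at e2
  rw [e1, e2]
  have e7 : (ε + ς * r₁) * R = ε * R + ς * r₁ * R := by ring
  rw [e7]
  linarith

/-- **The local claim for one block.** -/
theorem lcl_base (hG : L.Geo G C g) {κ ε η θ ς σ : ℝ} {K R₀ G₁ r₁ : ℕ} (hC : 0 ≤ C) (hκ : 0 ≤ κ)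
    (hε : 0 ≤ ε) (hς : 0 ≤ ς) (hσ : 0 ≤ σ) (hθ : 0 < θ)
    (hB : L.BoxAt κ ε η θ K R₀ g G₁ r₁) {Λ : ℝ} (hΛ : Λ = 1 + (ndc m κ + σ) / θ) {ℓ : ℕ}
    (hℓ1 : 1 ≤ ℓ) (hℓ : R₀ ≤ ℓ) :
    LCL L.toLA (L.Pen σ κ ς) (Good L κ ℓ K η) (loB L ℓ Λ (ε + ς * r₁) σ C)
      (fN (m + 1) ℓ K η Λ) Λ ℓ 1 g G₁ 0 := by
  classical
  intro J sh w hJ F c k y hA hcw b hP pn hpn hb
  have hnn : 0 ≤ ndc m κ := by
    unfold ndc
    have : 0 < Real.log 2 := Real.log_pos (by norm_num)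
    positivity
  have hΛ1 : 1 ≤ Λ := by
    rw [hΛ]
    have : 0 ≤ (ndc m κ + σ) / θ := by positivity
    linarith
  have hΛ0 : 0 < Λ := by linarith
  have hJ' := hJ
  rw [mul_one] at hJ hP hb ⊢
  have hp := F.isLaw.nonneg
  have hwJ : w + ℓ ≤ J := by omega
  have hℓr : (1 : ℝ) ≤ ℓ := by exact_mod_cast hℓ1
  have e1 : J - (w + ℓ) = ℓ * sh := by omega
  have e2 : J - w = ℓ * (sh + 1) := by
    have : ℓ * (sh + 1) = ℓ * sh + ℓ := by ring
    omega
  have hbk : ∀ ω, blk F w ℓ ω = F.T ω / 2 ^ (ℓ * sh) % 2 ^ ℓ := fun ω => by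
    unfold blk
    rw [e1]
  obtain ⟨si, hsi⟩ : ∃ si : F.Ω → ℕ, si = fun ω => Nat.log 2 ((ℓ + L.age (b ω)) / ℓ) := ⟨_, rfl⟩
  obtain ⟨sj, hsj⟩ : ∃ sj : F.Ω → ℕ, sj = fun ω => Nat.log 2 ((ℓ + L.age (b ω) +
    L.hx (c (F.Z ω)) (b ω)) / (ℓ + L.age (b ω))) := ⟨_, rfl⟩
  obtain ⟨S, hS⟩ : ∃ S : F.Ω → F.ζ × (ℕ × ℕ), S = fun ω => (F.Z ω, (si ω, sj ω)) := ⟨_, rfl⟩
  obtain ⟨Rf, hRf⟩ : ∃ Rf : F.ζ × (ℕ × ℕ) → ℕ, Rf = fun s => 4 * (2 ^ s.2.1 * ℓ * 2 ^ s.2.2) :=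
    ⟨_, rfl⟩
  -- the common bound of the depths
  have hRω : ∀ ω, ℓ + L.age (b ω) + L.hx (c (F.Z ω)) (b ω) ≤ Rf (S ω) ∧
      Rf (S ω) ≤ 4 * (ℓ + L.age (b ω) + L.hx (c (F.Z ω)) (b ω)) := by
    intro ω
    have h1 := cls_le (l := ℓ) (n := L.age (b ω)) hℓ1
    have h2 := cls_le (l := ℓ + L.age (b ω)) (n := L.hx (c (F.Z ω)) (b ω)) (by omega)
    have h3 : Rf (S ω) = 4 * (2 ^ si ω * ℓ * 2 ^ sj ω) := by
      rw [hRf, hS]
    rw [h3]
    have h4 : Nat.log 2 ((ℓ + L.age (b ω)) / ℓ) = si ω := by rw [hsi]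
    have h5 : Nat.log 2 ((ℓ + L.age (b ω) + L.hx (c (F.Z ω)) (b ω)) / (ℓ + L.age (b ω))) =
      sj ω := by rw [hsj]
    rw [h4] at h1
    rw [h5] at h2
    push_cast at h1 h2
    have p1 : (0 : ℝ) < 2 ^ si ω * ℓ := by positivity
    have p2 : (1 : ℝ) ≤ 2 ^ sj ω := one_le_pow₀ (by norm_num)
    constructor
    · have h6 : ((ℓ + L.age (b ω) + L.hx (c (F.Z ω)) (b ω) : ℕ) : ℝ) ≤
          ((4 * (2 ^ si ω * ℓ * 2 ^ sj ω) : ℕ) : ℝ) := by
        push_cast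
        have h7 := mul_le_mul_of_nonneg_left h1.2 (show (0 : ℝ) ≤ 2 * 2 ^ sj ω by positivity)
        nlinarith [h2.2]
      exact_mod_cast h6
    · have h6 : ((4 * (2 ^ si ω * ℓ * 2 ^ sj ω) : ℕ) : ℝ) ≤
          ((4 * (ℓ + L.age (b ω) + L.hx (c (F.Z ω)) (b ω)) : ℕ) : ℝ) := by
        push_cast
        have h7 := mul_le_mul_of_nonneg_left h1.1 (show (0 : ℝ) ≤ 2 ^ sj ω by positivity)
        nlinarith [h2.1]
      exact_mod_cast h6
  -- the entropies of the classes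
  have hcS : ∀ {T : Type} (W : F.Ω → T), Det F.p W F.Z → CH F.p S W ≤ 5 * L.cod F ℓ c k b := by
    intro T W hW
    have h1 : CH F.p S W ≤ CH F.p (fun ω => (sj ω, si ω)) W := by
      refine CH_mono_left hp ?_
      intro ω ω' hω hω' h
      have h2 : (sj ω, si ω) = (sj ω', si ω') := (Prod.ext_iff.mp h).1
      have h3 : W ω = W ω' := (Prod.ext_iff.mp h).2
      have h4 : F.Z ω = F.Z ω' := hW ω ω' hω hω' h3
      rw [hS]
      exact Prod.ext h4 (Prod.ext (Prod.ext_iff.mp h2).2 (Prod.ext_iff.mp h2).1)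
    have h2 := CH_chain hp sj si W
    have h3 : CH F.p si W ≤ 3 * L.cod F ℓ c k b := by
      rw [hsi]
      exact cls_CH hG hℓ1 (fun ω hω => L.cw_mono (hcw ω hω) (Nat.le_add_right _ _)) hb W
    have h4 : CH F.p sj (fun ω => (si ω, W ω)) ≤ 2 * L.cod F ℓ c k b := by
      rw [hsj]
      exact cls_hx hℓ1 (fun ω => (si ω, W ω))
    linarith
  obtain ⟨ε₂, hε₂⟩ : ∃ ε₂, ε₂ = ε + ς * r₁ := ⟨_, rfl⟩
  have hε₂0 : 0 ≤ ε₂ := by
    rw [hε₂]
    positivity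
  rw [← hε₂]
  obtain ⟨xe, hxe⟩ : ∃ xe : F.ζ × (ℕ × ℕ) → ℝ, xe = fun s => Ex (cond F.p S s)
    (fun ω => L.exc (c (F.Z ω)) (b ω)) := ⟨_, rfl⟩
  obtain ⟨ae, hae⟩ : ∃ ae : F.ζ × (ℕ × ℕ) → ℝ, ae = fun s => Ex (cond F.p S s)
    (fun ω => (L.age (b ω) : ℝ)) := ⟨_, rfl⟩
  have hsplit := split (L := L.toLA) (f := fN (m + 1) ℓ K η Λ) (K := ℓ) (N := 1) (sh := sh)
    hΛ0.le (F := F) (w := w) (w₁ := w + ℓ) (c := c) (k := k) (a := g + G₁) (pn := pn) (pn₁ := pn)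
    S y b (fun s => ε₂ * Rf s + xe s + C - σ * ae s) (by
      intro s hs
      have hs0 : 0 < law F.p S s := lt_of_le_of_ne (law_nonneg hp _ _) (Ne.symm hs)
      have hpos : ∀ ω, 0 < cond F.p S s ω → 0 < F.p ω ∧ S ω = s := fun ω hω =>
        (cond_pos_iff hp S s ω).mp hω
      have hQl : IsLaw (cond F.p S s) := cond_isLaw hp S hs
      obtain ⟨FS, hFS⟩ : ∃ FS, FS = F.res S s (cond_isLaw F.isLaw.nonneg S hs) := ⟨_, rfl⟩
      have hbS : L.Ok (F.res S s (cond_isLaw F.isLaw.nonneg S hs)) (w + ℓ) c k g b :=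
        fun ω hω => hb ω (hpos ω hω).1
      have hcSc : ∀ ω, 0 < (F.res S s (cond_isLaw F.isLaw.nonneg S hs)).p ω →
          L.cw (c ((F.res S s (cond_isLaw F.isLaw.nonneg S hs)).Z ω)) w :=
        fun ω hω => hcw ω (hpos ω hω).1
      have hZc : ∀ ω ω', 0 < (F.res S s (cond_isLaw F.isLaw.nonneg S hs)).p ω →
          0 < (F.res S s (cond_isLaw F.isLaw.nonneg S hs)).p ω' →
          (F.res S s (cond_isLaw F.isLaw.nonneg S hs)).Z ω =
          (F.res S s (cond_isLaw F.isLaw.nonneg S hs)).Z ω' := by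
        intro ω ω' hω hω'
        have h1 := (hpos ω hω).2
        have h2 := (hpos ω' hω').2
        rw [← h2, hS] at h1
        exact (Prod.ext_iff.mp h1).1
      have hRs : ∀ ω, 0 < (F.res S s (cond_isLaw F.isLaw.nonneg S hs)).p ω →
          ℓ + L.age (b ω) + L.hx (c ((F.res S s (cond_isLaw F.isLaw.nonneg S hs)).Z ω)) (b ω) ≤
            Rf s := by
        intro ω hω
        have h1 := (hRω ω).1
        rw [(hpos ω hω).2] at h1
        exact h1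
      have hℓR : ℓ ≤ Rf s := by
        obtain ⟨ω, hω⟩ : ∃ ω, 0 < cond F.p S s ω := by
          by_contra hcon
          push Not at hcon
          have h1 := hQl.sum_one
          have h2 : ∑ ω, cond F.p S s ω = 0 :=
            Finset.sum_eq_zero fun ω _ => le_antisymm (hcon ω) (hQl.nonneg ω)
          rw [h2] at h1
          exact zero_ne_one h1
        have h1 := hRs ω hω
        omega
      have hdet : Det (F.res S s (cond_isLaw F.isLaw.nonneg S hs)).p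
          (bas (F.res S s (cond_isLaw F.isLaw.nonneg S hs)) w) (y sh) := by
        intro ω ω' hω hω' h
        refine hA sh (by omega) ω ω' (hpos ω hω).1 (hpos ω' hω').1 ?_
        have h1 : ((F.l ω, F.Z ω), F.T ω / 2 ^ (J - w)) =
            ((F.l ω', F.Z ω'), F.T ω' / 2 ^ (J - w)) := h
        rw [e2] at h1
        exact h1
      have hlive : ∀ ω, 0 < (F.res S s (cond_isLaw F.isLaw.nonneg S hs)).p ω →
          Lv ℓ K η (y sh ω).1 (blk (F.res S s (cond_isLaw F.isLaw.nonneg S hs)) w ℓ ω) := by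
        intro ω hω
        have h1 := (hP ω (hpos ω hω).1).1
        rw [← hbk ω] at h1
        exact h1
      have hnds : ∀ ω, 0 < (F.res S s (cond_isLaw F.isLaw.nonneg S hs)).p ω →
          L.dp J (b ω) < ndc m κ := fun ω hω => (hP ω (hpos ω hω).1).2
      have hco := co_live (Λ := Λ) hJ' (F.res S s (cond_isLaw F.isLaw.nonneg S hs)) y hlive
      obtain ⟨kl, hkl⟩ : ∃ kl, kl = Ex (F.res S s (cond_isLaw F.isLaw.nonneg S hs)).p
        (fun ω => -Real.log ((y sh ω).1 (blk (F.res S s (cond_isLaw F.isLaw.nonneg S hs)) w ℓ ω)))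
        - ent (F.res S s (cond_isLaw F.isLaw.nonneg S hs)) w ℓ := ⟨_, rfl⟩
      obtain ⟨en, hen⟩ : ∃ en, en = ent (F.res S s (cond_isLaw F.isLaw.nonneg S hs)) w ℓ :=
        ⟨_, rfl⟩
      have hkl0 : 0 ≤ kl := by
        have h1 := kl_nn (F.res S s (cond_isLaw F.isLaw.nonneg S hs)) (y sh) hdet
        rw [hkl]
        linarith
      have hen2 : en ≤ ℓ * Real.log 2 := by
        rw [hen]
        exact ent_le _
      rw [← hkl, ← hen] at hco
      have hxe0 : -C ≤ xe s := by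
        have h1 := Ex_mono hQl.nonneg (f := fun _ => -C) (h := fun ω => L.exc (c (F.Z ω)) (b ω))
          (fun ω hω => hG.exc_ge J (w + ℓ) _ k _ _ _
            (L.cw_mono (hcw ω (hpos ω hω).1) (Nat.le_add_right _ _)) (hb ω (hpos ω hω).1))
        rw [Ex_const hQl.sum_one] at h1
        rw [hxe]
        exact h1
      have hΛk : 0 ≤ (Λ - 1) * kl := mul_nonneg (by linarith) hkl0
      by_cases hk : kl ≤ θ * Rf s
      · have h1 := box_get hB hℓ hℓR hwJ (F.res S s (cond_isLaw F.isLaw.nonneg S hs)) hZc c hcSc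
          k b hbS hnds hRs (y sh) hdet hlive (by rw [← hkl]; exact hk) pn hpn
        refine h1.mono_x (le_refl _) ?_
        rw [hco, ← hen, ← hε₂]
        have h2 : xe s = Ex (F.res S s (cond_isLaw F.isLaw.nonneg S hs)).p
          (fun ω => L.exc (c ((F.res S s (cond_isLaw F.isLaw.nonneg S hs)).Z ω)) (b ω)) := by
          rw [hxe]
          rfl
        have h3 : ae s = Ex (F.res S s (cond_isLaw F.isLaw.nonneg S hs)).p
          (fun ω => (L.age (b ω) : ℝ)) := by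
          rw [hae]
          rfl
        rw [← h2, ← h3]
        linarith
      · push Not at hk
        have h1 := LA.Get.dead (tr := L.tr) L.dead (l := ℓ) hwJ hcSc (κ := κ)
          (fun z t v => (hpn z).1 ℓ t v) (LA.Get.self
            (F.res S s (cond_isLaw F.isLaw.nonneg S hs)) pn hbS)
        refine h1.mono_x (Nat.le_add_right _ _) ?_
        rw [hco]
        have h2 : ae s ≤ Rf s := by
          have h3 := Ex_mono hQl.nonneg (f := fun ω => (L.age (b ω) : ℝ))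
            (h := fun _ => (Rf s : ℝ)) (fun ω hω => by
              have h4 := hRs ω hω
              have h5 : L.age (b ω) ≤ Rf s := by omega
              exact_mod_cast h5)
          rw [Ex_const hQl.sum_one] at h3
          rw [hae]
          exact h3
        have h3 : (ndc m κ + σ) * Rf s ≤ (Λ - 1) * kl := by
          have h4 : Λ - 1 = (ndc m κ + σ) / θ := by rw [hΛ]; ring
          rw [h4]
          have h5 := mul_le_mul_of_nonneg_left hk.le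
            (show 0 ≤ (ndc m κ + σ) / θ by positivity)
          have h6 : (ndc m κ + σ) / θ * (θ * Rf s) = (ndc m κ + σ) * Rf s := by
            field_simp
          rw [h6] at h5
          exact h5
        have h4 : σ * ae s ≤ σ * Rf s := mul_le_mul_of_nonneg_left h2 hσ
        have h5 : ndc m κ * ℓ ≤ ndc m κ * Rf s :=
          mul_le_mul_of_nonneg_left (by exact_mod_cast hℓR) hnn
        have h6 : ((m + 1) * Real.log 2 + κ) * (ℓ : ℝ) = ndc m κ * ℓ := rfl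
        have h7 : 0 ≤ ε₂ * Rf s := by positivity
        rw [h6]
        rw [add_mul] at h3
        linarith)
  refine hsplit.mono_x (le_refl _) ?_
  -- the sum of the losses
  have a1 : ∑ s ∈ univ.image S, law F.p S s = 1 := (sum_law F.p S).trans F.isLaw.sum_one
  have a2 : ∑ s ∈ univ.image S, law F.p S s * xe s =
      Ex F.p (fun ω => L.exc (c (F.Z ω)) (b ω)) := by
    rw [avg_Ex hp S (fun ω => L.exc (c (F.Z ω)) (b ω)), hxe]
  have a3 : ∑ s ∈ univ.image S, law F.p S s * ae s = Ex F.p (fun ω => (L.age (b ω) : ℝ)) := by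
    rw [avg_Ex hp S (fun ω => (L.age (b ω) : ℝ)), hae]
  have a4 : ∑ s ∈ univ.image S, law F.p S s * (Rf s : ℝ) ≤
      Ex F.p (fun ω => 4 * ((ℓ : ℝ) + L.age (b ω) + L.hx (c (F.Z ω)) (b ω))) := by
    rw [avg_Ex hp S (fun ω => 4 * ((ℓ : ℝ) + L.age (b ω) + L.hx (c (F.Z ω)) (b ω)))]
    refine Finset.sum_le_sum fun s _ => ?_
    by_cases hs : law F.p S s = 0
    · rw [hs, zero_mul, zero_mul]
    · refine mul_le_mul_of_nonneg_left ?_ (law_nonneg hp _ _)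
      have hQl : IsLaw (cond F.p S s) := cond_isLaw hp S hs
      have h1 := Ex_mono hQl.nonneg (f := fun _ => (Rf s : ℝ))
        (h := fun ω => 4 * ((ℓ : ℝ) + L.age (b ω) + L.hx (c (F.Z ω)) (b ω))) (fun ω hω => by
          have h2 := (hRω ω).2
          rw [((cond_pos_iff hp S s ω).mp hω).2] at h2
          exact_mod_cast h2)
      rw [Ex_const hQl.sum_one] at h1
      exact h1
  have a5 : ∑ s ∈ univ.image S, law F.p S s * (ε₂ * Rf s + xe s + C - σ * ae s) =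
      ε₂ * ∑ s ∈ univ.image S, law F.p S s * (Rf s : ℝ) +
      Ex F.p (fun ω => L.exc (c (F.Z ω)) (b ω)) + C -
      σ * Ex F.p (fun ω => (L.age (b ω) : ℝ)) := by
    have h1 : ∀ s, law F.p S s * (ε₂ * Rf s + xe s + C - σ * ae s) =
        ε₂ * (law F.p S s * (Rf s : ℝ)) + law F.p S s * xe s + law F.p S s * C -
          σ * (law F.p S s * ae s) := fun s => by ring
    rw [Finset.sum_congr rfl fun s _ => h1 s, Finset.sum_sub_distrib, Finset.sum_add_distrib,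
      Finset.sum_add_distrib, ← Finset.mul_sum, ← Finset.mul_sum, ← Finset.sum_mul, a1, a2, a3,
      one_mul]
  rw [a5]
  have a6 := mul_le_mul_of_nonneg_left a4 hε₂0
  have a7 := hcS F.Z (fun ω ω' _ _ h => h)
  have a8 := mul_le_mul_of_nonneg_left
    (hcS (fun ω => ((F.l ω, F.Z ω), F.T ω / 2 ^ (ℓ * (sh + 1))))
      (fun ω ω' _ _ h => (Prod.ext_iff.mp (Prod.ext_iff.mp h).1).2)) hΛ0.le
  have a9 : Ex F.p (fun ω => loB L ℓ Λ ε₂ σ C J (w + ℓ) k (c (F.Z ω)) (b ω)) =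
      5 * (1 + Λ) * L.cod F ℓ c k b +
      ε₂ * Ex F.p (fun ω => 4 * ((ℓ : ℝ) + L.age (b ω) + L.hx (c (F.Z ω)) (b ω))) +
      Ex F.p (fun ω => L.exc (c (F.Z ω)) (b ω)) + C -
      σ * Ex F.p (fun ω => (L.age (b ω) : ℝ)) := by
    have h1 : ∀ ω, loB L ℓ Λ ε₂ σ C J (w + ℓ) k (c (F.Z ω)) (b ω) =
        (5 * (1 + Λ) * L.lgv ℓ k (c (F.Z ω)) (b ω) +
        ε₂ * (4 * ((ℓ : ℝ) + L.age (b ω) + L.hx (c (F.Z ω)) (b ω))) +
        L.exc (c (F.Z ω)) (b ω) + (-σ) * (L.age (b ω) : ℝ)) + C := fun ω => by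
      unfold loB
      ring
    simp only [h1]
    rw [Ex_add_const F.isLaw, Ex_add, Ex_add, Ex_add, Ex_cmul, Ex_cmul, Ex_cmul F.p (-σ)]
    unfold LB.cod
    ring
  rw [a9]
  have a10 : (5 : ℝ) * (1 + Λ) * L.cod F ℓ c k b = 5 * L.cod F ℓ c k b +
    Λ * (5 * L.cod F ℓ c k b) := by ring
  rw [a10]
  linarith

end Pool.KNH
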