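import Pool.Agent.H15.KNH.Bas

/-!
# The base case: one block, almost optimal labels

The samples are split: deep labels, dead strings (both pay for the dead move), and good samples,
where the label is localised and the local claim is applied.
-/

set_option autoImplicit false

namespace Pool.KNH

open Finset Real
open Pool.Agent.H49.Ent Pool.Agent.H32.Dense Pool.STK Pool.KA
open Pool.KM7 (Nng Psh P2 P2_isLaw P2_fst P2_snd P2_pos avg_Ex avg_CH cond_isLaw BL Lv fbl gibbs)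
open Pool.KN (co Adm fN nng_fN co_one)

variable {m : ℕ} {L : LB m} {G : GS L.Cx L.V} {A ρ C σt κ ς₀ : ℝ} {g l₀ : ℕ}

/-- **One block, good samples, an almost optimal label.** -/
theorem base_one (hG : L.Geo G C g) (hT : L.Turn G A ρ C σt κ ς₀ g l₀) (hC : 0 ≤ C)
    {Λ ε₂ σ η ς : ℝ} {K G₁ ℓ : ℕ} (hε : 0 ≤ ε₂) (hΛ : 0 < Λ) (hℓ1 : 1 ≤ ℓ) (hℓ₀ : l₀ ≤ ℓ)
    (hP : LCL L.toLA (L.Pen σ κ ς) (Good L κ ℓ K η) (loB L ℓ Λ ε₂ σ C) (fN (m + 1) ℓ K η Λ) Λ ℓ 1
      g G₁ 0)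
    {J sh w : ℕ} (hJ : J = w + ℓ * 1 + ℓ * sh) (F : Fam m J)
    (c : F.ζ → L.Cx) (hc : ∀ ω, 0 < F.p ω → L.cw (c (F.Z ω)) w) (k a : ℕ) (y : ℕ → F.Ω → BL ℓ)
    (hA : Adm ℓ (sh + 1) F y) (pn : F.ζ → L.V → ℝ) (hpn : ∀ z, L.Pen σ κ ς (pn z))
    (b : F.Ω → L.V) (hgood : ∀ ω, 0 < F.p ω →
      Good L κ ℓ K η J (F.T ω / 2 ^ (ℓ * sh) % 2 ^ (ℓ * 1)) (fun i => y (sh + i) ω) (b ω))
    (hb : L.Ok F (w + ℓ) c k a b)
    (pn' : F.ζ → L.V → ℝ) (hpn' : ∀ z, L.Pen σt κ ς₀ (pn' z)) {D : ℝ} (hD0 : 0 ≤ D)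
    (hD : ∀ x, L.Get F (w + ℓ) c k (a + g) pn' x → x ≤ L.Psi F pn' (w + ℓ) b + D)
    {X β : ℝ} (hX : X = L.cod F ℓ c k b) (hβ : β = 5 * (1 + Λ) / ℓ + 4 * ε₂)
    (hβσ : β * A + 4 * ε₂ + ρ ≤ σ) :
    L.Get F w c k (a + (G₁ + 2 * g)) pn (L.Psi F pn (w + ℓ) b -
      co (fN (m + 1) ℓ K η Λ) Λ ℓ 1 sh F y - (5 * (1 + Λ) * Real.log 2 + 2 * C +
        (β * A + ρ) * D + σ * ℓ + (β + 2 + 2 * Λ) * C * X)) := by
  classical
  have hp := F.isLaw.nonneg
  have hℓr : (1 : ℝ) ≤ ℓ := by exact_mod_cast hℓ1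
  have hℓ0 : (0 : ℝ) < ℓ := by linarith
  have hwJ : w + ℓ ≤ J := by omega
  have h1 := loc_self hG.geo hC hΛ (show 1 ≤ ℓ * 1 by omega) hP hJ F c hc k a y hA b hgood pn hpn
    (by rw [mul_one]; exact hb)
  rw [mul_one] at h1
  refine h1.mono_x (le_refl _) ?_
  have hnd : ∀ ω, 0 < F.p ω → L.dp J (b ω) < ndc m κ := fun ω hω => (hgood ω hω).2
  obtain ⟨t1, t2⟩ := hT J w ℓ hℓ1 hℓ₀ hwJ F c hc pn' hpn' k a b hb hnd D hD0 hD
  have hQ1 : IsLaw (P2 F.p (G.gg F w ℓ c k a b)) := P2_isLaw F.isLaw _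
  rw [← hX] at t1 t2
  obtain ⟨rg, hrg⟩ : ∃ rg : F.Ω × F.Ω → ℝ, rg = fun e => (G.rg (G.SS F w ℓ c k a b e) : ℝ) :=
    ⟨_, rfl⟩
  obtain ⟨xc, hxc⟩ : ∃ xc : F.Ω × F.Ω → ℝ, xc = fun e => L.exc (G.CC F w ℓ c k a b e) (b e.2) :=
    ⟨_, rfl⟩
  rw [← hrg] at t1
  rw [← hxc] at t2
  obtain ⟨W, hW⟩ : ∃ W, W = L.wid F ℓ b := ⟨_, rfl⟩
  rw [← hW] at t1 t2
  have hage : Ex (P2 F.p (G.gg F w ℓ c k a b)) (fun e => (ℓ : ℝ) + L.age (b e.2)) = W := by
    rw [hW]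
    exact (P2_snd F.isLaw (G.gg F w ℓ c k a b)).Ex_eq (fun ω => (ℓ : ℝ) + L.age (b ω))
  have hW0 : 0 ≤ W := by
    rw [hW]
    exact Finset.sum_nonneg fun ω _ => mul_nonneg (hp ω) (by positivity)
  have hA1 : 0 ≤ 5 * (1 + Λ) := by positivity
  -- the local loss
  have h2 : Ex (P2 F.p (G.gg F w ℓ c k a b)) (fun e => loB L ℓ Λ ε₂ σ C J (w + ℓ)
      (G.rg (G.SS F w ℓ c k a b e)) (G.CC F w ℓ c k a b e) (b e.2)) ≤
      5 * (1 + Λ) * Real.log 2 + β * Ex (P2 F.p (G.gg F w ℓ c k a b)) rg + 4 * ε₂ * W +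
        Ex (P2 F.p (G.gg F w ℓ c k a b)) xc + C - σ * (W - ℓ) := by
    have h3 : Ex (P2 F.p (G.gg F w ℓ c k a b)) (fun e => loB L ℓ Λ ε₂ σ C J (w + ℓ)
      (G.rg (G.SS F w ℓ c k a b e)) (G.CC F w ℓ c k a b e) (b e.2)) ≤
      Ex (P2 F.p (G.gg F w ℓ c k a b)) (fun e => (β * rg e + (4 * ε₂ - σ) *
        ((ℓ : ℝ) + L.age (b e.2)) + xc e) + (5 * (1 + Λ) * Real.log 2 + C + σ * ℓ)) := by
      refine Ex_mono hQ1.nonneg fun e he => ?_
      have t21 := hG.hx_le J w ℓ _ k a hℓ1 hwJ _ _ _ _ _ (two_of_P2 (LA₀ := L.toLA) hwJ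
        F hc hb he)
      have t22 : (L.hx (G.CC F w ℓ c k a b e) (b e.2) : ℝ) ≤ rg e := by
        rw [hrg]
        exact Nat.cast_le.mpr t21
      have t23 := L.lgv_arg hℓr (G.rg (G.SS F w ℓ c k a b e)) (G.CC F w ℓ c k a b e) (b e.2)
      have t25 : (0 : ℝ) ≤ L.age (b e.2) := Nat.cast_nonneg _
      have t26 : (0 : ℝ) ≤ rg e := by
        rw [hrg]
        exact Nat.cast_nonneg _
      have t27 : L.lgv ℓ (G.rg (G.SS F w ℓ c k a b e)) (G.CC F w ℓ c k a b e) (b e.2) ≤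
          Real.log 2 + rg e / ℓ := by
        have t28 : ((G.rg (G.SS F w ℓ c k a b e) : ℝ) +
            L.hx (G.CC F w ℓ c k a b e) (b e.2)) / (ℓ + L.age (b e.2)) ≤ 2 * (rg e / ℓ) := by
          rw [← mul_div_assoc]
          refine div_le_div₀ (by linarith) ?_ hℓ0 (by linarith)
          rw [hrg] at t22 ⊢
          linarith
        have t29 : 0 ≤ rg e / ℓ := by positivity
        have t30 : Real.log (2 + 2 * (rg e / ℓ)) ≤ Real.log 2 + rg e / ℓ := by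
          have t31 : 2 + 2 * (rg e / ℓ) = 2 * (1 + rg e / ℓ) := by ring
          rw [t31, Real.log_mul (by norm_num) (by positivity)]
          have := Real.log_le_sub_one_of_pos (show 0 < 1 + rg e / ℓ by positivity)
          linarith
        refine le_trans ?_ t30
        unfold LB.lgv
        exact Real.log_le_log (by linarith) (by linarith)
      unfold loB
      have t32 := mul_le_mul_of_nonneg_left t27 hA1
      have t33 := mul_le_mul_of_nonneg_left t22 (show 0 ≤ 4 * ε₂ by positivity)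
      have t34 : β * rg e = 5 * (1 + Λ) * (rg e / ℓ) + 4 * ε₂ * rg e := by
        rw [hβ]
        ring
      rw [t34]
      have t35 : xc e = L.exc (G.CC F w ℓ c k a b e) (b e.2) := by rw [hxc]
      rw [t35]
      linarith
    refine h3.trans (le_of_eq ?_)
    rw [Ex_add_const hQ1, Ex_add, Ex_add, Ex_cmul, Ex_cmul _ (4 * ε₂ - σ), hage]
    ring
  have h4 : Ex F.p (fun ω => C * L.lgv ℓ k (c (F.Z ω)) (b ω)) = C * X := by
    rw [Ex_cmul, hX]
    rfl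
  rw [h4]
  have hβ0 : 0 ≤ β := by
    rw [hβ]
    positivity
  have h5 := mul_le_mul_of_nonneg_left t1 hβ0
  have h6 := mul_le_mul_of_nonneg_right hβσ hW0
  have e1 : β * (A * (D + W) + C * X) = β * A * D + β * A * W + β * C * X := by ring
  have e2 : ρ * (D + W) + C * X = ρ * D + ρ * W + C * X := by ring
  have e3 : (β * A + 4 * ε₂ + ρ) * W = β * A * W + 4 * ε₂ * W + ρ * W := by ring
  have e4 : (β * A + ρ) * D = β * A * D + ρ * D := by ring
  have e5 : (β + 2 + 2 * Λ) * C * X = β * C * X + C * X + (1 + 2 * Λ) * (C * X) := by ring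
  rw [e1] at h5
  rw [e2] at t2
  rw [e3] at h6
  rw [e4, e5]
  linarith

/-- The cost of a block with dead strings. -/
theorem co_dead {J w ℓ sh K : ℕ} {η Λ : ℝ} (hΛ : 0 ≤ Λ) (hJ : J = w + ℓ * 1 + ℓ * sh)
    (F : Fam m J) (y : ℕ → F.Ω → BL ℓ) (hA : Adm ℓ (sh + 1) F y)
    (hl : ∀ ω, 0 < F.p ω → ¬ Lv ℓ K η (y sh ω).1 (blk F w ℓ ω)) :
    (m + 1) * (ℓ * Real.log 2) ≤ co (fN (m + 1) ℓ K η Λ) Λ ℓ 1 sh F y := by
  have e1 : J - (w + ℓ) = ℓ * sh := by omega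
  have e2 : J - w = ℓ * (sh + 1) := by
    have : ℓ * (sh + 1) = ℓ * sh + ℓ := by ring
    omega
  have hb : ∀ ω, blk F w ℓ ω = F.T ω / 2 ^ (ℓ * sh) % 2 ^ ℓ := fun ω => by
    unfold blk
    rw [e1]
  have h1 : ent F w ℓ = CH F.p (fun ω => F.T ω / 2 ^ (ℓ * sh) % 2 ^ ℓ)
      (fun ω => ((F.l ω, F.Z ω), F.T ω / 2 ^ (ℓ * (sh + 1)))) := by
    unfold ent
    congr 1
    · funext ω
      exact hb ω
    · funext ω
      unfold bas
      rw [e2]
  have h2 : Ex F.p (fun ω => fN (m + 1) ℓ K η Λ (y sh ω) (F.T ω / 2 ^ (ℓ * sh) % 2 ^ ℓ)) =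
      (m + 1) * (ℓ * Real.log 2) + Λ *
        Ex F.p (fun ω => -Real.log ((y sh ω).1 (blk F w ℓ ω))) := by
    rw [← Ex_cmul, ← Ex_const F.isLaw.sum_one ((m + 1) * (ℓ * Real.log 2)), ← Ex_add]
    refine Ex_eq_of F.isLaw.nonneg fun ω hω => ?_
    have h3 := hl ω hω
    rw [hb ω] at h3 ⊢
    show fbl ℓ (Lv ℓ K η) _ Λ (y sh ω) _ = _
    unfold fbl
    rw [if_neg h3]
    push_cast
    ring
  have hdet : Det F.p (bas F w) (y sh) := by
    intro ω ω' hω hω' h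
    refine hA sh (by omega) ω ω' hω hω' ?_
    have h3 : ((F.l ω, F.Z ω), F.T ω / 2 ^ (J - w)) =
        ((F.l ω', F.Z ω'), F.T ω' / 2 ^ (J - w)) := h
    rw [e2] at h3
    exact h3
  have h4 := mul_le_mul_of_nonneg_left (kl_nn F (y sh) hdet) hΛ
  rw [co_one, h2, ← h1]
  linarith

theorem CH_three {Ω : Type} [Fintype Ω] {p : Ω → ℝ} (hp : IsLaw p) (S : Ω → Fin 3) {T : Type}
    (W : Ω → T) : CH p S W ≤ 2 := by
  refine (CH_le_card hp.nonneg hp.sum_one S W (fun _ => Finset.univ)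
    (fun ω _ => Finset.mem_univ _)).trans ?_
  rw [Ex_const hp.sum_one, Finset.card_univ, Fintype.card_fin]
  have := Real.log_le_sub_one_of_pos (show (0 : ℝ) < ((3 : ℕ) : ℝ) by norm_num)
  push_cast at this ⊢
  linarith

/-- **One block, an almost optimal label.** -/
theorem base_two (hG : L.Geo G C g) (hT : L.Turn G A ρ C σt κ ς₀ g l₀) (hC : 0 ≤ C) (hA0 : 0 ≤ A)
    (hρ : 0 ≤ ρ) (hκ : 0 ≤ κ)
    {Λ ε₂ σ η ς : ℝ} {K G₁ ℓ : ℕ} (hε : 0 ≤ ε₂) (hσ : 0 ≤ σ) (hΛ : 1 ≤ Λ) (hℓ1 : 1 ≤ ℓ)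
    (hℓ₀ : l₀ ≤ ℓ)
    (hP : LCL L.toLA (L.Pen σ κ ς) (Good L κ ℓ K η) (loB L ℓ Λ ε₂ σ C) (fN (m + 1) ℓ K η Λ) Λ ℓ 1
      g G₁ 0)
    {J sh w : ℕ} (hJ : J = w + ℓ * 1 + ℓ * sh) (F : Fam m J)
    (c : F.ζ → L.Cx) (hc : ∀ ω, 0 < F.p ω → L.cw (c (F.Z ω)) w) (k a : ℕ) (y : ℕ → F.Ω → BL ℓ)
    (hA : Adm ℓ (sh + 1) F y) (pn : F.ζ → L.V → ℝ) (hpn : ∀ z, L.Pen σ κ ς (pn z))
    (b : F.Ω → L.V) (hb : L.Ok F (w + ℓ) c k a b)
    (pn' : F.ζ → L.V → ℝ) (hpn' : ∀ z, L.Pen σt κ ς₀ (pn' z)) {D : ℝ} (hD0 : 0 ≤ D)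
    (hD : ∀ x, L.Get F (w + ℓ) c k (a + g) pn' x → x ≤ L.Psi F pn' (w + ℓ) b + D)
    {X β : ℝ} (hX : X = L.cod F ℓ c k b) (hβ : β = 5 * (1 + Λ) / ℓ + 4 * ε₂)
    (hβσ : β * A + 4 * ε₂ + ρ ≤ σ) :
    L.Get F w c k (a + (G₁ + 2 * g)) pn (L.Psi F pn (w + ℓ) b -
      co (fN (m + 1) ℓ K η Λ) Λ ℓ 1 sh F y - ℓ * Ex F.p (fun ω => L.dp J (b ω)) -
      (5 * (1 + Λ) * Real.log 2 + 2 * C + (β * A + ρ) * (D + 2) + σ * ℓ + κ * ℓ +
        (β + 2 + 2 * Λ) * C * X + 2 * (1 + Λ))) := by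
  classical
  have hp := F.isLaw.nonneg
  have hΛ0 : 0 < Λ := by linarith
  have hl2 : 0 < Real.log 2 := Real.log_pos (by norm_num)
  have hℓr : (1 : ℝ) ≤ ℓ := by exact_mod_cast hℓ1
  have hwJ : w + ℓ ≤ J := by omega
  have hβ0 : 0 ≤ β := by
    rw [hβ]
    positivity
  have hβρ : 0 ≤ β * A + ρ := by positivity
  have e1 : J - (w + ℓ) = ℓ * sh := by omega
  have hbk : ∀ ω, blk F w ℓ ω = F.T ω / 2 ^ (ℓ * sh) % 2 ^ ℓ := fun ω => by
    unfold blk
    rw [e1]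
  obtain ⟨S, hS⟩ : ∃ S : F.Ω → Fin 3, S = fun ω => if ndc m κ ≤ L.dp J (b ω) then 0 else
    (if Lv ℓ K η (y sh ω).1 (blk F w ℓ ω) then 2 else 1) := ⟨_, rfl⟩
  have hS0 : ∀ ω, S ω = 0 → ndc m κ ≤ L.dp J (b ω) := by
    intro ω h
    rw [hS] at h
    by_contra hcon
    simp only [if_neg hcon] at h
    split_ifs at h <;> simp at h
  have hS1 : ∀ ω, S ω = 1 → ¬ Lv ℓ K η (y sh ω).1 (blk F w ℓ ω) := by
    intro ω h hcon
    rw [hS] at h
    simp only [if_pos hcon] at h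
    split_ifs at h <;> simp at h
  have hS2 : ∀ ω, S ω = 2 → L.dp J (b ω) < ndc m κ ∧
      Lv ℓ K η (y sh ω).1 (blk F w ℓ ω) := by
    intro ω h
    rw [hS] at h
    simp only at h
    split_ifs at h with h1 h2
    · exact absurd h (by simp)
    · exact ⟨not_le.mp h1, h2⟩
    · exact absurd h (by simp)
  obtain ⟨cs, hcsd⟩ : ∃ cs, cs = CH F.p S F.Z := ⟨_, rfl⟩
  have hcs0 : 0 ≤ cs := by
    rw [hcsd]
    exact CH_nonneg hp S F.Z
  have hcs2 : cs ≤ 2 := by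
    rw [hcsd]
    exact CH_three F.isLaw S F.Z
  obtain ⟨el, hel⟩ : ∃ el : Fin 3 → ℝ, el = fun s => Ex (cond F.p S s)
    (fun ω => L.lgv ℓ k (c (F.Z ω)) (b ω)) := ⟨_, rfl⟩
  obtain ⟨dl, hdl⟩ : ∃ dl : Fin 3 → ℝ, dl = fun s => Ex (cond F.p S s)
    (fun ω => L.dp J (b ω)) := ⟨_, rfl⟩
  obtain ⟨M, hM⟩ : ∃ M, M = (β + 2 + 2 * Λ) * C := ⟨_, rfl⟩
  have hM0 : 0 ≤ M := by
    rw [hM]
    positivity
  obtain ⟨Q, hQ⟩ : ∃ Q, Q = 5 * (1 + Λ) * Real.log 2 + 2 * C + σ * ℓ := ⟨_, rfl⟩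
  have hQ0 : 0 ≤ Q := by
    rw [hQ]
    positivity
  obtain ⟨u, hu⟩ : ∃ u : Fin 3 → ℝ, u = fun s => if s = 0 then ndc m κ * ℓ else
    (if s = 1 then κ * ℓ else Q + (β * A + ρ) * ((D + cs) / law F.p S s) + M * el s) := ⟨_, rfl⟩
  have hnn : 0 ≤ ndc m κ := by
    unfold ndc
    positivity
  have hel0 : ∀ s, law F.p S s ≠ 0 → 0 ≤ el s := fun s hs => by
    rw [hel]
    exact Finset.sum_nonneg fun ω _ => mul_nonneg ((cond_isLaw hp S hs).nonneg ω)
      (L.lgv_nonneg hℓr _ _ _)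
  have hdl0 : ∀ s, law F.p S s ≠ 0 → 0 ≤ dl s := fun s hs => by
    rw [hdl]
    exact Finset.sum_nonneg fun ω _ => mul_nonneg ((cond_isLaw hp S hs).nonneg ω)
      (L.dp_nonneg _ _)
  have hsplit := split (L := L.toLA) (f := fN (m + 1) ℓ K η Λ) (K := ℓ) (N := 1) (sh := sh)
    hΛ0.le (F := F) (w := w) (w₁ := w + ℓ) (c := c) (k := k) (a := a + (G₁ + 2 * g)) (pn := pn)
    (pn₁ := pn) S y b u (by
      intro s hs
      have hs0 : 0 < law F.p S s := lt_of_le_of_ne (law_nonneg hp _ _) (Ne.symm hs)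
      have hpos : ∀ ω, 0 < cond F.p S s ω → 0 < F.p ω ∧ S ω = s := fun ω hω =>
        (cond_pos_iff hp S s ω).mp hω
      have hbS : L.Ok (F.res S s (cond_isLaw F.isLaw.nonneg S hs)) (w + ℓ) c k a b :=
        fun ω hω => hb ω (hpos ω hω).1
      have hcS : ∀ ω, 0 < (F.res S s (cond_isLaw F.isLaw.nonneg S hs)).p ω →
          L.cw (c ((F.res S s (cond_isLaw F.isLaw.nonneg S hs)).Z ω)) w :=
        fun ω hω => hc ω (hpos ω hω).1
      have hAS : Adm ℓ (sh + 1) (F.res S s (cond_isLaw F.isLaw.nonneg S hs)) y :=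
        fun i hi ω ω' hω hω' h => hA i hi ω ω' (hpos ω hω).1 (hpos ω' hω').1 h
      have hdead := LA.Get.dead (tr := L.tr) L.dead (l := ℓ) hwJ hcS (κ := κ)
        (fun z t v => (hpn z).1 ℓ t v) (LA.Get.self
          (F.res S s (cond_isLaw F.isLaw.nonneg S hs)) pn hbS)
      have h6 : ((m + 1) * Real.log 2 + κ) * (ℓ : ℝ) = ndc m κ * ℓ := rfl
      by_cases h0 : s = 0
      · have h1 : 0 ≤ co (fN (m + 1) ℓ K η Λ) Λ ℓ 1 sh
            (F.res S s (cond_isLaw F.isLaw.nonneg S hs)) y :=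
          Pool.KN.co_nonneg hΛ0 (nng_fN (by omega) K η hΛ)
            (F.res S s (cond_isLaw F.isLaw.nonneg S hs)) y 1 sh hAS
        refine hdead.mono_x (by omega) ?_
        rw [h6, hu]
        simp only [if_pos h0]
        linarith
      · by_cases h1 : s = 1
        · have h2 := co_dead (Λ := Λ) hΛ0.le hJ (F.res S s (cond_isLaw F.isLaw.nonneg S hs)) y
            hAS (K := K) (η := η) (fun ω hω => by
              have h3 := (hpos ω hω).2
              rw [h1] at h3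
              exact hS1 ω h3)
          refine hdead.mono_x (by omega) ?_
          rw [hu]
          simp only [if_neg h0, if_pos h1]
          have h7 : ((m + 1) * Real.log 2 + κ) * (ℓ : ℝ) =
            (m + 1) * (ℓ * Real.log 2) + κ * ℓ := by ring
          rw [h7]
          linarith
        · have h2 : s = 2 := by
            fin_cases s
            · exact absurd rfl h0
            · exact absurd rfl h1
            · rfl
          have hnear := near_res S (Nat.le_add_right a g) hb hD s hs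
          rw [← hcsd] at hnear
          have hDs : 0 ≤ (D + cs) / law F.p S s := by positivity
          have h3 := base_one hG hT hC hε hΛ0 hℓ1 hℓ₀ hP hJ
            (F.res S s (cond_isLaw F.isLaw.nonneg S hs)) c hcS k a y hAS pn hpn b
            (fun ω hω => by
              have h4 := (hpos ω hω).2
              rw [h2] at h4
              obtain ⟨h5, h7⟩ := hS2 ω h4
              rw [hbk ω] at h7
              rw [mul_one]
              exact ⟨h7, h5⟩) hbS pn' hpn' hDs hnear (X := el s) (by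
              rw [hel]
              rfl) hβ hβσ
          refine h3.mono_x (le_refl _) (le_of_eq ?_)
          rw [hu]
          simp only [if_neg h0, if_neg h1]
          rw [hQ, hM]
          ring)
  refine hsplit.mono_x (le_refl _) ?_
  -- the sum of the losses
  have hsum : ∀ F' : Fin 3 → ℝ, ∑ s ∈ univ.image S, law F.p S s * F' s =
      law F.p S 0 * F' 0 + law F.p S 1 * F' 1 + law F.p S 2 * F' 2 := by
    intro F'
    rw [← Fin.sum_univ_three (fun s => law F.p S s * F' s)]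
    refine Finset.sum_subset (Finset.subset_univ _) fun s _ hs => ?_
    have h1 : law F.p S s = 0 := by
      by_contra hcon
      exact hs (mem_image_of_law S hcon)
    rw [h1, zero_mul]
  have a5 : law F.p S 0 + law F.p S 1 + law F.p S 2 = 1 := by
    have h1 := hsum (fun _ => 1)
    have h2 : ∑ s ∈ univ.image S, law F.p S s = 1 := (sum_law F.p S).trans F.isLaw.sum_one
    simp only [mul_one] at h1
    rw [h2] at h1
    exact h1.symm
  have a6 : law F.p S 0 * el 0 + law F.p S 1 * el 1 + law F.p S 2 * el 2 = X := by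
    rw [← hsum, hX, LB.cod, avg_Ex hp S (fun ω => L.lgv ℓ k (c (F.Z ω)) (b ω)), hel]
  have a6' : law F.p S 0 * dl 0 + law F.p S 1 * dl 1 + law F.p S 2 * dl 2 =
      Ex F.p (fun ω => L.dp J (b ω)) := by
    rw [← hsum, avg_Ex hp S (fun ω => L.dp J (b ω)), hdl]
  have q0 : ∀ s, 0 ≤ law F.p S s := fun s => law_nonneg hp _ _
  have qe : ∀ s, 0 ≤ law F.p S s * el s := fun s => by
    rcases (q0 s).eq_or_lt with h1 | h1
    · rw [← h1, zero_mul]
    · exact mul_nonneg h1.le (hel0 s h1.ne')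
  have qd : ∀ s, 0 ≤ law F.p S s * dl s := fun s => by
    rcases (q0 s).eq_or_lt with h1 | h1
    · rw [← h1, zero_mul]
    · exact mul_nonneg h1.le (hdl0 s h1.ne')
  have u0 : u 0 = ndc m κ * ℓ := by
    rw [hu]
    simp
  have u1 : u 1 = κ * ℓ := by
    rw [hu]
    simp
  have u2 : u 2 = Q + (β * A + ρ) * ((D + cs) / law F.p S 2) + M * el 2 := by
    rw [hu]
    simp
  have a7 : law F.p S 0 * u 0 ≤ ℓ * (law F.p S 0 * dl 0) := by
    rw [u0]
    rcases (q0 0).eq_or_lt with h0 | h0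
    · rw [← h0]
      simp
    · have h1 : ndc m κ ≤ dl 0 := by
        have hQl : IsLaw (cond F.p S 0) := cond_isLaw hp S h0.ne'
        have h2 := Ex_mono hQl.nonneg (f := fun _ => ndc m κ) (h := fun ω => L.dp J (b ω))
          (fun ω hω => hS0 ω ((cond_pos_iff hp S 0 ω).mp hω).2)
        rw [Ex_const hQl.sum_one] at h2
        rw [hdl]
        exact h2
      have h2 := mul_le_mul_of_nonneg_left h1 (show 0 ≤ law F.p S 0 * ℓ by positivity)
      calc law F.p S 0 * (ndc m κ * ℓ) = law F.p S 0 * ℓ * ndc m κ := by ring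
        _ ≤ law F.p S 0 * ℓ * dl 0 := h2
        _ = _ := by ring
  have a8 : law F.p S 1 * u 1 ≤ κ * ℓ := by
    rw [u1]
    have h1 : law F.p S 1 ≤ 1 := by
      have := q0 0
      have := q0 2
      linarith
    exact mul_le_of_le_one_left (by positivity) h1
  have a9 : law F.p S 2 * u 2 ≤ Q + (β * A + ρ) * (D + 2) + M * X := by
    rw [u2]
    have h2 : (β * A + ρ) * (D + cs) ≤ (β * A + ρ) * (D + 2) :=
      mul_le_mul_of_nonneg_left (by linarith) hβρ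
    have h3 : 0 ≤ (β * A + ρ) * (D + 2) := by positivity
    have hX0 : 0 ≤ X := by
      rw [hX]
      exact L.cod_nonneg F hℓ1 c k b
    rcases (q0 2).eq_or_lt with h0 | h0
    · rw [← h0, zero_mul]
      positivity
    · have h1 : law F.p S 2 ≤ 1 := by
        have := q0 0
        have := q0 1
        linarith
      have h4 : law F.p S 2 * (Q + (β * A + ρ) * ((D + cs) / law F.p S 2) + M * el 2) =
          law F.p S 2 * Q + (β * A + ρ) * (D + cs) + M * (law F.p S 2 * el 2) := by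
        field_simp
      rw [h4]
      have h5 : law F.p S 2 * Q ≤ Q := mul_le_of_le_one_left hQ0 h1
      have h6 : M * (law F.p S 2 * el 2) ≤ M * X := by
        refine mul_le_mul_of_nonneg_left ?_ hM0
        have := qe 0
        have := qe 1
        linarith
      linarith
  rw [hsum]
  have a11 := CH_three F.isLaw S F.Z
  have a12 := mul_le_mul_of_nonneg_left
    (CH_three F.isLaw S (fun ω => ((F.l ω, F.Z ω), F.T ω / 2 ^ (ℓ * (sh + 1))))) hΛ0.le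
  have a16 : ℓ * (law F.p S 0 * dl 0) ≤ ℓ * Ex F.p (fun ω => L.dp J (b ω)) := by
    refine mul_le_mul_of_nonneg_left ?_ (by linarith)
    rw [← a6']
    have := qd 1
    have := qd 2
    linarith
  rw [← hM]
  rw [hQ] at a9
  linarith

end Pool.KNH
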