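import Pool.Agent.H15.KNH.Bas2

/-!
# From the geometry, the turning step, the box and the ends to the bound by the cost of the times
-/

set_option autoImplicit false

namespace Pool.KNH

open Finset Real
open Pool.Agent.H49.Ent Pool.Agent.H32.Dense Pool.STK Pool.KA
open Pool.KM7 (Nng Psh P2 P2_isLaw P2_fst P2_snd P2_pos avg_Ex avg_CH cond_isLaw BL Lv fbl gibbs)
open Pool.KN (co Adm fN nng_fN co_one BNStmt)

variable {m : ℕ} {L : LB m} {G : GS L.Cx L.V} {A ρ C σ κ ς₀ : ℝ} {g l₀ : ℕ}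

theorem ndc_le (m : ℕ) {κ : ℝ} (hκ1 : κ ≤ 1) : ndc m κ ≤ m + 2 := by
  have hl1 : Real.log 2 ≤ 1 := by
    have := Real.log_two_lt_d9
    linarith
  have h1 : ((m : ℝ) + 1) * Real.log 2 ≤ (m + 1) * 1 :=
    mul_le_mul_of_nonneg_left hl1 (by positivity)
  unfold ndc
  linarith

/-- The data of the base case. -/
structure BD (m : ℕ) (A ρ C σ κ ς₀ ε δ C' Λ : ℝ) (r₁ ℓ : ℕ) : Prop where
  hA : 0 ≤ A
  hρ : 0 ≤ ρ
  hC : 0 ≤ C
  hσ : 0 < σ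
  hσκ : 2 * σ < κ
  hκ1 : κ ≤ 1
  hκδ : 4 * κ ≤ δ
  hρσ : 8 * (m + 3) * ρ ≤ σ
  hε : 0 < ε
  hεσ : 64 * ((A + 1) * (m + 3)) * ε ≤ σ
  hC' : 2 * (2 * C + 3) ≤ C'
  hΛ : 1 ≤ Λ
  hℓ : 1 ≤ ℓ
  l1 : C' * (1 + Λ) ≤ σ * ℓ
  l2 : 6 * (C' * (1 + Λ)) ≤ ς₀ * ℓ
  l3 : 16 * ((A + 1) * (m + 3)) * (5 * (1 + Λ) + 16 * (C' * (1 + Λ)) * r₁) ≤ σ * ℓ
  l4 : 8 * (7 * (1 + Λ) + 2 * C) ≤ δ * ℓ

section num

variable {ε δ C' Λ : ℝ} {r₁ ℓ : ℕ} (D : BD m A ρ C σ κ ς₀ ε δ C' Λ r₁ ℓ)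

include D

theorem BD.ℓ0 : (0 : ℝ) < ℓ := by
  have := D.hℓ
  exact_mod_cast this

theorem BD.P0 : 0 ≤ C' * (1 + Λ) := by
  have h1 := D.hC
  have h2 := D.hC'
  have h3 := D.hΛ
  have : 0 ≤ C' := by linarith
  positivity

/-- The number `β`. -/
theorem BD.beta {β ς : ℝ} (hς : ς = 4 * (C' * (1 + Λ)) / ℓ)
    (hβ : β = 5 * (1 + Λ) / ℓ + 4 * (ε + ς * r₁)) :
    0 ≤ β ∧ 4 * (ε + ς * r₁) ≤ β ∧ 8 * ((A + 1) * (m + 3)) * β ≤ σ := by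
  have hℓ0 := D.ℓ0
  have hA := D.hA
  have hΛ := D.hΛ
  have hP0 := D.P0
  have hε := D.hε
  have h1 : 0 ≤ ς := by
    rw [hς]
    positivity
  have h2 : 0 ≤ ε + ς * r₁ := by positivity
  have h3 : 0 ≤ 5 * (1 + Λ) / ℓ := by positivity
  refine ⟨by rw [hβ]; linarith, by rw [hβ]; linarith, ?_⟩
  have h4 : β = 4 * ε + (5 * (1 + Λ) + 16 * (C' * (1 + Λ)) * r₁) / ℓ := by
    rw [hβ, hς]
    ring
  have h5 : 16 * ((A + 1) * (m + 3)) * ((5 * (1 + Λ) + 16 * (C' * (1 + Λ)) * r₁) / ℓ) ≤ σ := by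
    rw [← mul_div_assoc, div_le_iff₀ hℓ0]
    exact D.l3
  have h6 := D.hεσ
  rw [h4]
  linarith

/-- The condition of the base case. -/
theorem BD.cond {β ς : ℝ} (hς : ς = 4 * (C' * (1 + Λ)) / ℓ)
    (hβ : β = 5 * (1 + Λ) / ℓ + 4 * (ε + ς * r₁)) :
    β * A + 4 * (ε + ς * r₁) + ρ ≤ 2 * σ ∧ (β * A + ρ) * (ndc m κ * ℓ + 2) ≤ σ / 2 * ℓ ∧
      β ≤ 1 := by
  obtain ⟨h0, h1, h2⟩ := D.beta hς hβ
  have hA := D.hA
  have hρ := D.hρ
  have hσ := D.hσ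
  have hℓ0 := D.ℓ0
  have hm : (0 : ℝ) ≤ m := Nat.cast_nonneg m
  have hρσ := D.hρσ
  have hκ1 := D.hκ1
  have hσκ := D.hσκ
  have hℓ1 : (1 : ℝ) ≤ ℓ := by
    have := D.hℓ
    exact_mod_cast this
  have e1 : β * A + β ≤ β * ((A + 1) * (m + 3)) := by
    have h3 : (A + 1) ≤ (A + 1) * (m + 3) := by nlinarith
    have h4 := mul_le_mul_of_nonneg_left h3 h0
    linarith
  have e2 : 8 * (β * ((A + 1) * (m + 3))) ≤ σ := by linarith
  have e3 : ρ ≤ σ / 8 := by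
    have h3 : 8 * ρ ≤ 8 * (m + 3) * ρ := by nlinarith [mul_nonneg hm hρ]
    linarith
  refine ⟨by linarith, ?_, ?_⟩
  · have h3 : (β * A + ρ) * (m + 3) ≤ σ / 4 := by
      have h4 : 8 * (β * A * (m + 3)) ≤ σ := by
        have h5 : β * A * (m + 3) ≤ β * ((A + 1) * (m + 3)) := by
          have h6 : A * (m + 3) ≤ (A + 1) * (m + 3) := by nlinarith
          have := mul_le_mul_of_nonneg_left h6 h0
          linarith
        linarith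
      linarith
    have h4 := ndc_le m hκ1
    have h5 : ndc m κ * ℓ + 2 ≤ (m + 3) * (2 * ℓ) := by
      have h6 := mul_le_mul_of_nonneg_right h4 hℓ0.le
      nlinarith
    have h7 : 0 ≤ β * A + ρ := by positivity
    have h8 := mul_le_mul_of_nonneg_left h5 h7
    have h9 : (β * A + ρ) * ((m + 3) * (2 * ℓ)) = (β * A + ρ) * (m + 3) * (2 * ℓ) := by ring
    have h10 := mul_le_mul_of_nonneg_right h3 (show 0 ≤ 2 * (ℓ : ℝ) by positivity)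
    rw [h9] at h8
    linarith
  · have h3 : β ≤ β * ((A + 1) * (m + 3)) := by
      have : (1 : ℝ) ≤ (A + 1) * (m + 3) := by nlinarith
      have h4 := mul_le_mul_of_nonneg_left this h0
      linarith
    linarith

end num

/-- **The base case.** -/
theorem base_stp {ε δ C' Λ η θ : ℝ} {r₁ ℓ K R₀ G₁ : ℕ} (D : BD m A ρ C σ κ ς₀ ε δ C' Λ r₁ ℓ)
    (hG : L.Geo G C g) (hT : L.Turn G A ρ C σ κ ς₀ g l₀) (hl₀ : l₀ ≤ ℓ) (hR₀ : R₀ ≤ ℓ)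
    (hθ : 0 < θ) (hB : L.BoxAt κ ε η θ K R₀ g G₁ r₁)
    (hΛ : Λ = 1 + (ndc m κ + 2 * σ) / θ) :
    Pool.KN5.STP L.sys (fN (m + 1) ℓ K η Λ) Λ ℓ κ 1 (G₁ + 2 * g) δ (C' * (1 + Λ)) (2 * σ)
      (4 * (C' * (1 + Λ)) / ℓ) := by
  have hℓ0 := D.ℓ0
  have hℓ1 := D.hℓ
  have hℓr : (1 : ℝ) ≤ ℓ := by exact_mod_cast hℓ1
  have hσ := D.hσ
  have hκ0 : 0 ≤ κ := by
    have := D.hσκ
    linarith
  have hΛ1 := D.hΛ
  have hΛ0 : 0 < Λ := by linarith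
  have hP1 := D.P0
  have hC := D.hC
  have hA0 := D.hA
  have hρ := D.hρ
  obtain ⟨ς, hς⟩ : ∃ ς, ς = 4 * (C' * (1 + Λ)) / ℓ := ⟨_, rfl⟩
  have hς0 : 0 ≤ ς := by
    rw [hς]
    positivity
  obtain ⟨β, hβ⟩ : ∃ β, β = 5 * (1 + Λ) / ℓ + 4 * (ε + ς * r₁) := ⟨_, rfl⟩
  obtain ⟨hb0, hb1, hb2⟩ := D.cond hς hβ
  rw [← hς]
  have hP := lcl_base hG hC hκ0 D.hε.le hς0 (show 0 ≤ 2 * σ by linarith) hθ hB hΛ hℓ1 hR₀
  intro J sh w hJ F c hcw k a y hA p hp x hx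
  change F.ζ → L.Cx at c
  change F.ζ → L.V → ℝ at p
  have hJ' := hJ
  rw [mul_one] at hJ hx ⊢
  have hwJ : w + ℓ ≤ J := by omega
  have hℓJ : (ℓ : ℝ) ≤ J := by
    have : ℓ ≤ J := by omega
    exact_mod_cast this
  change L.Get F (w + ℓ) c k a (fun z v => p z v + (C' * (1 + Λ) * L.lgv ℓ k (c z) v +
    (ℓ : ℕ) * L.dp J v)) x at hx
  change ∀ ω, 0 < F.p ω → L.cw (c (F.Z ω)) w at hcw
  change L.Get F w c k (a + (G₁ + 2 * g)) p _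
  obtain ⟨p', hp'⟩ : ∃ p' : F.ζ → L.V → ℝ,
    p' = fun z v => p z v + (C' * (1 + Λ) * L.lgv ℓ k (c z) v + (ℓ : ℕ) * L.dp J v) := ⟨_, rfl⟩
  rw [← hp'] at hx
  have hpp : ∀ z, L.Pen (2 * σ) κ ς (p z) := hp
  have hp'p : ∀ z, L.Pen σ κ ς₀ (p' z) := by
    intro z
    have h1 := (hpp z).add k (c z) hℓr hℓJ hP1
    rw [hp']
    refine h1.mono ?_ le_rfl ?_
    · have h2 : C' * (1 + Λ) / ℓ ≤ σ := by
        rw [div_le_iff₀ hℓ0]
        exact D.l1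
      linarith
    · have h2 : 6 * (C' * (1 + Λ)) / ℓ ≤ ς₀ := by
        rw [div_le_iff₀ hℓ0]
        exact D.l2
      have h3 : (C' * (1 + Λ) + 1) / ℓ ≤ 2 * (C' * (1 + Λ)) / ℓ := by
        refine div_le_div_of_nonneg_right ?_ hℓ0.le
        have h4 := D.hC'
        nlinarith
      have h4 : 6 * (C' * (1 + Λ)) / (ℓ : ℝ) = 4 * (C' * (1 + Λ)) / ℓ +
        2 * (C' * (1 + Λ)) / ℓ := by ring
      rw [hς]
      linarith
  obtain ⟨E, inst, q, hq, pr, b, h1, h2, h3⟩ := hx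
  have hcE : ∀ e, 0 < (F.ext q hq pr).p e → L.cw (c ((F.ext q hq pr).Z e)) w := fun e he =>
    hcw _ (h1.pos hq.nonneg he)
  have hAE := adm_ext (hp' := hq) h1 hA
  have hco := co_ext (f := fN (m + 1) ℓ K η Λ) (Λ := Λ) (K := ℓ) (N := 1) (sh := sh) (hp' := hq)
    h1 y
  have hco0 : 0 ≤ co (fN (m + 1) ℓ K η Λ) Λ ℓ 1 sh F y :=
    Pool.KN.co_nonneg hΛ0 (nng_fN (by omega) K η hΛ1) F y 1 sh hA
  refine LA.Get.of_ext (hp' := hq) h1 ?_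
  rw [← hco] at hco0 ⊢
  have hnn : 0 ≤ ndc m κ := by
    have : 0 < Real.log 2 := Real.log_pos (by norm_num)
    unfold ndc
    positivity
  have hδ0 : 0 ≤ δ := by
    have := D.hκδ
    linarith
  by_cases hopt : ∀ x', L.Get (F.ext q hq pr) (w + ℓ) c k (a + g) p' x' →
      x' ≤ L.Psi (F.ext q hq pr) p' (w + ℓ) b + ndc m κ * (ℓ : ℝ)
  · -- an almost optimal label
    obtain ⟨X, hX⟩ : ∃ X, X = L.cod (F.ext q hq pr) ℓ c k b := ⟨_, rfl⟩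
    have hX0 : 0 ≤ X := by
      rw [hX]
      exact L.cod_nonneg (F.ext q hq pr) hℓ1 c k b
    have h4 := base_two hG hT hC hA0 hρ hκ0 (show 0 ≤ ε + ς * r₁ by
      have := D.hε
      positivity) (show 0 ≤ 2 * σ by linarith) hΛ1 hℓ1 hl₀ hP hJ' (F.ext q hq pr) c
      hcE k a (fun i e => y i (pr e)) hAE p hpp b h2 p' hp'p
      (show 0 ≤ ndc m κ * (ℓ : ℝ) by positivity) hopt hX hβ hb0
    refine h4.mono_x (le_refl _) ?_
    have h6 := Psi_add L (F.ext q hq pr) hp' (w + ℓ) b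
    rw [h6, ← hX] at h3
    have h7 : (β + 2 + 2 * Λ) * C * X ≤ C' * (1 + Λ) * X := by
      refine mul_le_mul_of_nonneg_right ?_ hX0
      have h8 : (β + 2 + 2 * Λ) * C ≤ (3 + 2 * Λ) * C := mul_le_mul_of_nonneg_right
        (by linarith) hC
      have h9 := mul_le_mul_of_nonneg_right D.hC' (show 0 ≤ 1 + Λ by linarith)
      nlinarith
    have h8 := D.l4
    have h9 : 5 * (1 + Λ) * Real.log 2 ≤ 5 * (1 + Λ) := by
      have hl1 : Real.log 2 ≤ 1 := by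
        have := Real.log_two_lt_d9
        linarith
      exact mul_le_of_le_one_right (by positivity) hl1
    have h10 : 2 * σ * ℓ ≤ κ * ℓ := mul_le_mul_of_nonneg_right D.hσκ.le hℓ0.le
    have h11 : 4 * κ * ℓ ≤ δ * ℓ := mul_le_mul_of_nonneg_right D.hκδ hℓ0.le
    linarith
  · -- the dead move wins
    push Not at hopt
    obtain ⟨x', hx', hlt⟩ := hopt
    have h4 := LA.Get.dead (tr := L.tr) L.dead (l := ℓ) hwJ hcE (κ := κ)
      (fun z t v => (hp'p z).1 ℓ t v) hx'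
    have h40 : ((m + 1) * Real.log 2 + κ) * (ℓ : ℝ) = ndc m κ * ℓ := rfl
    rw [h40] at h4
    refine h4.mono 0 (by omega) (fun z v => ?_) ?_
    · rw [hp', add_zero]
      exact le_add_lgv hℓr hP1 J k (c z) v
    · have h5 : 0 ≤ δ * (ℓ : ℝ) := by positivity
      linarith

theorem locz_mono {S : Pool.KN5.LSys m} {κ C B C₂ σm : ℝ} {g g' : ℕ} (hg : g ≤ g')
    (h : Pool.KN5.LOCZ S κ C B C₂ σm g) : Pool.KN5.LOCZ S κ C B C₂ σm g' := by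
  intro Y f Λ hΛ K hK hK1 hf N hN G₀ δ c₀ σ ς hδ hc0 hc hσ hσκ hς0 hςK hP
  exact (h Y f Λ hΛ K hK hK1 hf N hN G₀ δ c₀ σ ς hδ hc0 hc hσ hσκ hς0 hςK hP).mono le_rfl le_rfl
    (by omega) le_rfl le_rfl (Nat.mul_pos hK1 hN)

theorem ends_mono {S : Pool.KN5.LSys m} {ε ε' : ℝ} (hε : ε ≤ ε') (h : Pool.KN5.EndsN m ε S) :
    Pool.KN5.EndsN m ε' S := by
  obtain ⟨C, hC, h⟩ := h
  refine ⟨C, hC, fun J F hF => ?_⟩
  obtain ⟨c, k, a, r₀, h1, h2, h3, h4⟩ := h J F hF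
  refine ⟨c, k, a, r₀, h1, h2, fun θ d hθ => ?_, fun a' θ x hθ hx => ?_⟩
  · refine S.mono 0 le_rfl (fun z v => (add_zero _).ge) ?_ (h3 θ d hθ)
    have := mul_le_mul_of_nonneg_right hε (Nat.cast_nonneg (α := ℝ) J)
    linarith
  · have h5 := h4 a' θ x hθ hx
    have := mul_le_mul_of_nonneg_right hε (show (0 : ℝ) ≤ (J : ℝ) + a' by positivity)
    linarith

/-- **From the four inputs to the class of labels with localisation.** -/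
theorem potT_of_potB (h : PotBStmt m) : Pool.KN5.PotTStmt m := by
  intro δ hδ
  obtain ⟨δ', hδ'⟩ : ∃ δ', δ' = min δ 1 / 4 := ⟨_, rfl⟩
  have hδ'0 : 0 < δ' := by
    rw [hδ']
    positivity
  have hδ'1 : 4 * δ' ≤ δ := by
    rw [hδ']
    have := min_le_left δ 1
    linarith
  have hδ'2 : δ' ≤ 1 := by
    rw [hδ']
    have := min_le_right δ 1
    linarith
  obtain ⟨κ, σ, ρ, hσ, hσκ, hκδ, hρ, hρσ, L, G, A, C, ς₀, g, l₀, hA, hC, hς₀, hG, hT, hBx, hE⟩ :=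
    h δ' hδ'0
  have hκ0 : 0 ≤ κ := by linarith
  have hAm : 0 < (A + 1) * ((m : ℝ) + 3) := by positivity
  obtain ⟨ε, hε⟩ : ∃ ε, ε = σ / (64 * ((A + 1) * (m + 3))) := ⟨_, rfl⟩
  have hε0 : 0 < ε := by
    rw [hε]
    positivity
  have hεσ : 64 * ((A + 1) * (m + 3)) * ε ≤ σ := by
    rw [hε]
    field_simp
    exact le_refl _
  obtain ⟨G₁, r₁, η, hη, hB⟩ := hBx ε hε0
  obtain ⟨C', hC'⟩ : ∃ C', C' = 2 * (2 * C + 3) := ⟨_, rfl⟩
  have hC'6 : 6 ≤ C' := by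
    rw [hC']
    linarith
  have hl2 : 0 < Real.log 2 := Real.log_pos (by norm_num)
  have hnn : 0 ≤ ndc m κ := by
    unfold ndc
    positivity
  refine ⟨L.sys, κ, C', 3 * C' * (Real.log (2 + (4 * A + 4 * A *
      (ndc m κ + Real.log 2)) + 6 * (2 * C + 12 * A)) + 1) + C + Real.log 2,
      6 * C' / ς₀ + l₀, 2 * σ, G₁ + 2 * g, by linarith, ?_, by linarith, hσκ,
      locz_mono (by omega) (locz_of hG hT hC hA hκ0 hς₀ (by linarith) hC'.ge),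
      ends_mono (by linarith) hE, η, hη, fun K hK => ?_⟩
  · have h1 : 0 ≤ Real.log (2 + (4 * A + 4 * A *
      (ndc m κ + Real.log 2)) + 6 * (2 * C + 12 * A)) := by
      refine Real.log_nonneg ?_
      have : 0 ≤ (4 * A + 4 * A * (ndc m κ + Real.log 2)) + 6 * (2 * C + 12 * A) := by positivity
      linarith
    positivity
  obtain ⟨θ, hθ, R₀, hB⟩ := hB K hK
  obtain ⟨Λ, hΛ⟩ : ∃ Λ, Λ = 1 + (ndc m κ + 2 * σ) / θ := ⟨_, rfl⟩
  have hΛ1 : 1 ≤ Λ := by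
    rw [hΛ]
    have : 0 ≤ (ndc m κ + 2 * σ) / θ := by positivity
    linarith
  obtain ⟨N₁, hN₁⟩ := exists_nat_ge (C' * (1 + Λ) / σ)
  obtain ⟨N₂, hN₂⟩ := exists_nat_ge (6 * (C' * (1 + Λ)) / ς₀)
  obtain ⟨N₃, hN₃⟩ := exists_nat_ge (16 * ((A + 1) * (m + 3)) *
    (5 * (1 + Λ) + 16 * (C' * (1 + Λ)) * r₁) / σ)
  obtain ⟨N₄, hN₄⟩ := exists_nat_ge (8 * (7 * (1 + Λ) + 2 * C) / δ)
  refine ⟨Λ, hΛ1, max (max (max N₁ N₂) (max N₃ N₄)) (max (max R₀ l₀) 1), fun ℓ hℓ => ?_⟩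
  have c1 : N₁ ≤ ℓ := (((le_max_left _ _).trans (le_max_left _ _)).trans (le_max_left _ _)).trans hℓ
  have c2 : N₂ ≤ ℓ :=
    (((le_max_right _ _).trans (le_max_left _ _)).trans (le_max_left _ _)).trans hℓ
  have c3 : N₃ ≤ ℓ :=
    (((le_max_left _ _).trans (le_max_right _ _)).trans (le_max_left _ _)).trans hℓ
  have c4 : N₄ ≤ ℓ :=
    (((le_max_right _ _).trans (le_max_right _ _)).trans (le_max_left _ _)).trans hℓ
  have c5 : R₀ ≤ ℓ :=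
    (((le_max_left _ _).trans (le_max_left _ _)).trans (le_max_right _ _)).trans hℓ
  have c6 : l₀ ≤ ℓ :=
    (((le_max_right _ _).trans (le_max_left _ _)).trans (le_max_right _ _)).trans hℓ
  have c7 : 1 ≤ ℓ := ((le_max_right _ _).trans (le_max_right _ _)).trans hℓ
  have key : ∀ {u v : ℝ} {N : ℕ}, 0 < v → u / v ≤ N → N ≤ ℓ → u ≤ v * ℓ := by
    intro u v N hv h1 h2
    have h3 : u / v ≤ ℓ := h1.trans (by exact_mod_cast h2)
    rw [div_le_iff₀ hv] at h3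
    linarith
  have D : BD m A ρ C σ κ ς₀ ε δ C' Λ r₁ ℓ :=
    { hA := hA
      hρ := hρ
      hC := hC
      hσ := hσ
      hσκ := hσκ
      hκ1 := hκδ.trans hδ'2
      hκδ := by linarith
      hρσ := hρσ
      hε := hε0
      hεσ := hεσ
      hC' := hC'.ge
      hΛ := hΛ1
      hℓ := c7
      l1 := key hσ hN₁ c1
      l2 := key hς₀ hN₂ c2
      l3 := key hσ hN₃ c3
      l4 := key hδ hN₄ c4 }
  exact base_stp D hG hT c6 c5 hθ hB hΛ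

/-- **From the four inputs to the bound by the cost of the times.** -/
theorem bn_of_potB (h : PotBStmt m) : BNStmt m := Pool.KN5.bn_of_potT (potT_of_potB h)

end Pool.KNH
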