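import Pool.Agent.H15.KNH.Pen

/-!
# The four inputs: geometry, turning, one block, the ends

`PotBStmt m`: there is a class of labels with the four properties.
-/

set_option autoImplicit false

namespace Pool.KNH

open Finset Real
open Pool.Agent.H49.Ent Pool.Agent.H32.Dense Pool.STK Pool.KA
open Pool.KM7 (Nng Psh P2 P2_isLaw BL Lv)
open Pool.KN (co Adm)

variable {m : ℕ}

/-- The loss of the dead move for each digit. -/
noncomputable def ndc (m : ℕ) (κ : ℝ) : ℝ := (m + 1) * Real.log 2 + κ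

/-- The mean length of the codes of a block of `l` digits, for the label `b`. -/
noncomputable def LB.cod (L : LB m) {J : ℕ} (F : Fam m J) (l : ℕ) (c : F.ζ → L.Cx) (k : ℕ)
    (b : F.Ω → L.V) : ℝ :=
  Ex F.p (fun ω => L.lgv l k (c (F.Z ω)) (b ω))

/-- The mean of the length of the window and of the age. -/
noncomputable def LB.wid (L : LB m) {J : ℕ} (F : Fam m J) (l : ℕ) (b : F.Ω → L.V) : ℝ :=
  Ex F.p (fun ω => (l : ℝ) + L.age (b ω))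

/-- **(GEO)** The geometry of the class, with codes of length `C` times `lgv`. -/
structure LB.Geo (L : LB m) (G : GS L.Cx L.V) (C : ℝ) (g : ℕ) : Prop where
  geo : Pool.KNH.Geo L.toLA G (fun l k _ c v => C * L.lgv l k c v) C g
  /-- the range of a shape is at least the height of the coarse cell over the second label -/
  hx_le : ∀ (J w l : ℕ) (c : L.Cx) (k a : ℕ), 1 ≤ l → w + l ≤ J → ∀ (x : Ln m) (t₀ t₁ : ℕ)
    (v₀ v₁ : L.V), G.Two J w l c k a x t₀ t₁ v₀ v₁ →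
    L.hx (G.crs J w l c k a t₀ v₀ (G.sh J w l c k a t₀ t₁ v₀ v₁)) v₁ ≤
      G.rg (G.sh J w l c k a t₀ t₁ v₀ v₁)
  /-- the excess is bounded below -/
  exc_ge : ∀ (J w : ℕ) (c : L.Cx) (k : ℕ) (x : Ln m) (t : ℕ) (v : L.V), L.cw c w →
    L.ok J w c k g x t v → -C ≤ L.exc c v

/-- **(TURN)** For an almost optimal label which is not deep, and blocks of at least `l₀` digits,
the mean range of the local problems and the mean excess of their coarse cells over the label are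
bounded. -/
def LB.Turn (L : LB m) (G : GS L.Cx L.V) (A ρ C σ κ ς₀ : ℝ) (g l₀ : ℕ) : Prop :=
  ∀ (J w l : ℕ), 1 ≤ l → l₀ ≤ l → w + l ≤ J → ∀ (F : Fam m J) (c : F.ζ → L.Cx),
    (∀ ω, 0 < F.p ω → L.cw (c (F.Z ω)) w) →
    ∀ pn : F.ζ → L.V → ℝ, (∀ z, L.Pen σ κ ς₀ (pn z)) →
    ∀ (k a : ℕ) (b : F.Ω → L.V), L.Ok F (w + l) c k a b →
    (∀ ω, 0 < F.p ω → L.dp J (b ω) < ndc m κ) → ∀ D : ℝ, 0 ≤ D →
    (∀ x, L.Get F (w + l) c k (a + g) pn x → x ≤ L.Psi F pn (w + l) b + D) →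
    Ex (P2 F.p (G.gg F w l c k a b)) (fun e => (G.rg (G.SS F w l c k a b e) : ℝ)) ≤
      A * (D + L.wid F l b) + C * L.cod F l c k b ∧
    Ex (P2 F.p (G.gg F w l c k a b))
        (fun e => L.exc (G.CC F w l c k a b e) (b e.2)) ≤
      ρ * (D + L.wid F l b) + C * L.cod F l c k b

/-- The `l` digits of the time after the window of `w` digits. -/
def blk {J : ℕ} (F : Fam m J) (w l : ℕ) (ω : F.Ω) : ℕ := F.T ω / 2 ^ (J - (w + l)) % 2 ^ l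

/-- The line, the side information and the window. -/
def bas {J : ℕ} (F : Fam m J) (w : ℕ) (ω : F.Ω) : (Ln m × F.ζ) × ℕ :=
  ((F.l ω, F.Z ω), F.T ω / 2 ^ (J - w))

/-- The entropy of the block. -/
noncomputable def ent {J : ℕ} (F : Fam m J) (w l : ℕ) : ℝ := CH F.p (blk F w l) (bas F w)

/-- **(BOX)** One block with live digits: `R` bounds all depths. The new label is of age zero, its
body contains `2 ^ (-r₁ R)` times the body of the old label. -/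
def LB.Box (L : LB m) (κ ε : ℝ) (g G r₁ : ℕ) : Prop :=
  ∃ η : ℝ, 0 < η ∧ ∀ K : ℕ, 3 / 2 ^ K ≤ η → ∃ θ : ℝ, 0 < θ ∧ ∃ R₀ : ℕ,
  ∀ (J w l R : ℕ), R₀ ≤ l → l ≤ R → w + l ≤ J → ∀ F : Fam m J,
    (∀ ω ω', 0 < F.p ω → 0 < F.p ω' → F.Z ω = F.Z ω') → ∀ c : F.ζ → L.Cx,
    (∀ ω, 0 < F.p ω → L.cw (c (F.Z ω)) w) → ∀ (k : ℕ) (b : F.Ω → L.V),
    L.Ok F (w + l) c k g b → (∀ ω, 0 < F.p ω → L.dp J (b ω) < ndc m κ) →
    (∀ ω, 0 < F.p ω → l + L.age (b ω) + L.hx (c (F.Z ω)) (b ω) ≤ R) →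
    ∀ y : F.Ω → BL l, Det F.p (bas F w) y →
    (∀ ω, 0 < F.p ω → Lv l K η (y ω).1 (blk F w l ω)) →
    Ex F.p (fun ω => -Real.log ((y ω).1 (blk F w l ω))) - ent F w l ≤ θ * R →
    ∃ (E : Type) (_ : Fintype E) (p' : E → ℝ) (hp' : IsLaw p') (pr : E → F.Ω) (b' : E → L.V),
      Psh p' pr F.p ∧ L.Ok (F.ext p' hp' pr) w c k (g + G) b' ∧
      (∀ e, 0 < p' e → L.age (b' e) = 0 ∧ L.Sub (r₁ * R) (b (pr e)) (b' e)) ∧
      L.Psi F (fun _ _ => 0) (w + l) b - (l * Real.log 2 - ent F w l) - ε * R -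
        Ex F.p (fun ω => L.exc (c (F.Z ω)) (b ω)) ≤
        L.Psi (F.ext p' hp' pr) (fun _ _ => 0) w b'

/-- **What has to be proved for the class of labels.** -/
def PotBStmt (m : ℕ) : Prop :=
  ∀ δ : ℝ, 0 < δ → ∃ κ σ ρ : ℝ, 0 < σ ∧ 2 * σ < κ ∧ κ ≤ δ ∧ 0 ≤ ρ ∧ 8 * (m + 3) * ρ ≤ σ ∧
    ∃ (L : LB m) (G : GS L.Cx L.V) (A C ς₀ : ℝ) (g l₀ : ℕ), 0 ≤ A ∧ 0 ≤ C ∧ 0 < ς₀ ∧
      L.Geo G C g ∧ L.Turn G A ρ C σ κ ς₀ g l₀ ∧
      (∀ ε : ℝ, 0 < ε → ∃ G₁ r₁ : ℕ, L.Box κ ε g G₁ r₁) ∧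
      Pool.KN5.EndsN m δ L.sys

end Pool.KNH
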