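import Pool.Agent.H15.KM7.Pair
import Pool.Agent.H15.KN.Cst

/-!
# Abstract label values with a penalty

The potential of a label `b` at a window `w` is the length of the window, plus the volume exponent,
minus the entropy of the label with the window, minus a penalty, a function of the side
information and of the value. Copies, mixtures, coarse cells as side information, restrictions to
events: a label which is almost optimal for the family is almost optimal for the restriction.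
-/

set_option autoImplicit false

namespace Pool.KNH

open Finset Real
open Pool.Agent.H49.Ent Pool.Agent.H32.Dense Pool.STK Pool.KA
open Pool.KM7 (Nng Psh sg sg_isLaw sg_Ex sg_CH sg_law avg_Ex avg_CH cond_isLaw)
open Pool.KN (co Adm)

/-- The exact line. -/
abbrev Ln (m : ℕ) : Type := (Fin m → ℝ) × (Fin m → ℝ)

/-- Abstract values of labels. `J` is the resolution, `w` the window. -/
structure LA (m : ℕ) where
  /-- coarse cells -/
  Cx : Type
  /-- values -/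
  V : Type
  /-- `v` is a label of the line at the window of the time `t`, inside the coarse cell,
  with the range `k` and the slack `a` -/
  ok : (_J _w : ℕ) → Cx → (_k _a : ℕ) → Ln m → (_t : ℕ) → V → Prop
  /-- the volume exponent of the complement; it may depend on the line -/
  pot : (_J _w : ℕ) → Ln m → (_t : ℕ) → V → ℝ
  /-- the age of a label -/
  age : V → ℕ
  /-- the coarse cell is a cell of a window of at most `w` digits -/
  cw : Cx → ℕ → Prop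
  ok_mono : ∀ {J w : ℕ} {c : Cx} {k a a' : ℕ} {l : Ln m} {t : ℕ} {v : V}, a ≤ a' →
    ok J w c k a l t v → ok J w c k a' l t v
  cw_mono : ∀ {c : Cx} {w w' : ℕ}, cw c w → w ≤ w' → cw c w'

variable {m : ℕ}

/-- The potential of a label, minus the penalty. -/
noncomputable def LA.Psi (L : LA m) {J : ℕ} (F : Fam m J) (pn : F.ζ → L.V → ℝ) (w : ℕ)
    (b : F.Ω → L.V) : ℝ :=
  (w + m * J) * Real.log 2 - Ex F.p (fun ω => L.pot J w (F.l ω) (F.T ω / 2 ^ (J - w)) (b ω) +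
    pn (F.Z ω) (b ω)) - CH F.p (fun ω => (F.T ω / 2 ^ (J - w), b ω)) F.Z

/-- `b` is a label of the family at the window `w`. -/
def LA.Ok (L : LA m) {J : ℕ} (F : Fam m J) (w : ℕ) (c : F.ζ → L.Cx) (k a : ℕ) (b : F.Ω → L.V) :
    Prop :=
  ∀ ω, 0 < F.p ω → L.ok J w (c (F.Z ω)) k a (F.l ω) (F.T ω / 2 ^ (J - w)) (b ω)

/-- Some label of some copy has potential at least `x`. -/
def LA.Get (L : LA m) {J : ℕ} (F : Fam m J) (w : ℕ) (c : F.ζ → L.Cx) (k a : ℕ)
    (pn : F.ζ → L.V → ℝ) (x : ℝ) : Prop :=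
  ∃ (E : Type) (_ : Fintype E) (p' : E → ℝ) (hp' : IsLaw p') (pr : E → F.Ω) (b : E → L.V),
    Psh p' pr F.p ∧ L.Ok (F.ext p' hp' pr) w c k a b ∧ x ≤ L.Psi (F.ext p' hp' pr) pn w b

variable {L : LA m} {J : ℕ}

/-! ### Means -/

theorem Ex_mono {Ω : Type} [Fintype Ω] {p : Ω → ℝ} (hp : ∀ ω, 0 ≤ p ω) {f h : Ω → ℝ}
    (hfh : ∀ ω, 0 < p ω → f ω ≤ h ω) : Ex p f ≤ Ex p h := by
  unfold Ex
  refine Finset.sum_le_sum fun ω _ => ?_
  rcases (hp ω).eq_or_lt with h0 | h0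
  · rw [← h0, zero_mul, zero_mul]
  · exact mul_le_mul_of_nonneg_left (hfh ω h0) h0.le

theorem Ex_add {Ω : Type} [Fintype Ω] (p : Ω → ℝ) (f h : Ω → ℝ) :
    Ex p (fun ω => f ω + h ω) = Ex p f + Ex p h := by
  unfold Ex
  simp only [mul_add, Finset.sum_add_distrib]

theorem Ex_cmul {Ω : Type} [Fintype Ω] (p : Ω → ℝ) (c : ℝ) (f : Ω → ℝ) :
    Ex p (fun ω => c * f ω) = c * Ex p f := by
  unfold Ex
  rw [Finset.mul_sum]
  exact Finset.sum_congr rfl fun ω _ => by ring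

theorem Ex_add_const {Ω : Type} [Fintype Ω] {p : Ω → ℝ} (hp : IsLaw p) (f : Ω → ℝ) (c : ℝ) :
    Ex p (fun ω => f ω + c) = Ex p f + c := by
  rw [Ex_add, Ex_const hp.sum_one]

/-! ### The potential -/

theorem LA.Psi_eq (F : Fam m J) (pn : F.ζ → L.V → ℝ) (w : ℕ) (b : F.Ω → L.V) :
    L.Psi F pn w b = (w + m * J) * Real.log 2 -
      (Ex F.p (fun ω => L.pot J w (F.l ω) (F.T ω / 2 ^ (J - w)) (b ω)) +
        Ex F.p (fun ω => pn (F.Z ω) (b ω))) -
      CH F.p (fun ω => (F.T ω / 2 ^ (J - w), b ω)) F.Z := by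
  unfold LA.Psi
  rw [Ex_add]

/-- Another penalty. -/
theorem LA.Psi_pn (F : Fam m J) (pn pn' : F.ζ → L.V → ℝ) (w : ℕ) (b : F.Ω → L.V) :
    L.Psi F pn' w b = L.Psi F pn w b + Ex F.p (fun ω => pn (F.Z ω) (b ω)) -
      Ex F.p (fun ω => pn' (F.Z ω) (b ω)) := by
  rw [LA.Psi_eq, LA.Psi_eq]
  ring

theorem LA.Get.mono {w : ℕ} {F : Fam m J} {c : F.ζ → L.Cx} {k a a' : ℕ}
    {pn pn' : F.ζ → L.V → ℝ} {x x' : ℝ} (d : ℝ) (ha : a ≤ a') (hpn : ∀ z v, pn' z v ≤ pn z v + d)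
    (hx : x' + d ≤ x) (h : L.Get F w c k a pn x) : L.Get F w c k a' pn' x' := by
  obtain ⟨E, i, p', hp', pr, b, h1, h2, h3⟩ := h
  refine ⟨E, i, p', hp', pr, b, h1, fun e he => L.ok_mono ha (h2 e he), ?_⟩
  have h4 := LA.Psi_pn (F.ext p' hp' pr) pn pn' w b
  have h5 : Ex p' (fun e => pn' (F.Z (pr e)) (b e)) ≤
      Ex p' (fun e => pn (F.Z (pr e)) (b e) + d) :=
    Ex_mono hp'.nonneg fun e _ => hpn _ _
  rw [Ex_add_const hp'] at h5
  rw [h4]
  change x' ≤ L.Psi (F.ext p' hp' pr) pn w b + Ex p' (fun e => pn (F.Z (pr e)) (b e)) -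
    Ex p' (fun e => pn' (F.Z (pr e)) (b e))
  linarith

theorem LA.Get.mono_x {w : ℕ} {F : Fam m J} {c : F.ζ → L.Cx} {k a a' : ℕ}
    {pn : F.ζ → L.V → ℝ} {x x' : ℝ} (ha : a ≤ a') (hx : x' ≤ x)
    (h : L.Get F w c k a pn x) : L.Get F w c k a' pn x' :=
  h.mono 0 ha (fun _ _ => (add_zero _).ge) (by linarith)

theorem LA.Get.self {w : ℕ} (F : Fam m J) {c : F.ζ → L.Cx} {k a : ℕ} (pn : F.ζ → L.V → ℝ)
    {b : F.Ω → L.V} (hb : L.Ok F w c k a b) : L.Get F w c k a pn (L.Psi F pn w b) :=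
  ⟨F.Ω, F.fin, F.p, F.isLaw, fun ω => ω, b, Psh.id F.p, hb, le_refl _⟩

theorem LA.Get.of_ext {w : ℕ} {F : Fam m J} {c : F.ζ → L.Cx} {k a : ℕ} {pn : F.ζ → L.V → ℝ}
    {E : Type} [Fintype E] {p' : E → ℝ} {hp' : IsLaw p'} {pr : E → F.Ω} (h : Psh p' pr F.p)
    {x : ℝ} (hG : L.Get (F.ext p' hp' pr) w c k a pn x) : L.Get F w c k a pn x := by
  obtain ⟨E', i, p'', hp'', pr', b, h1, h2, h3⟩ := hG
  exact ⟨E', i, p'', hp'', fun e => pr (pr' e), b, h.comp h1, h2, h3⟩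

/-- **A coarse cell as side information.** -/
theorem LA.Get.uncnd {w : ℕ} {F : Fam m J} {c : F.ζ → L.Cx} {k a k' a' : ℕ}
    {pn : F.ζ → L.V → ℝ} (z : F.Ω → L.Cx)
    (hz : ∀ ω, 0 < F.p ω → ∀ v, L.ok J w (z ω) k' a' (F.l ω) (F.T ω / 2 ^ (J - w)) v →
      L.ok J w (c (F.Z ω)) k a (F.l ω) (F.T ω / 2 ^ (J - w)) v) {x : ℝ}
    (hG : L.Get (F.cnd z) w Prod.fst k' a' (fun q v => pn q.2 v) x) :
    L.Get F w c k a pn (x - CH F.p z F.Z) := by
  obtain ⟨E, i, p', hp', pr, b, h1, h2, h3⟩ := hG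
  refine ⟨E, i, p', hp', pr, b, h1, fun e he => hz (pr e) (h1.pos hp'.nonneg he) _ (h2 e he), ?_⟩
  have e1 : CH p' (fun e => z (pr e)) (fun e => F.Z (pr e)) = CH F.p z F.Z := h1.CH_eq z F.Z
  have e2 := CH_le_add hp'.nonneg (fun e => (F.T (pr e) / 2 ^ (J - w), b e))
    (fun e => z (pr e)) (fun e => F.Z (pr e))
  have e3 : L.Psi ((F.cnd z).ext p' hp' pr) (fun q v => pn q.2 v) w b =
      (w + m * J) * Real.log 2 -
      Ex p' (fun e => L.pot J w (F.l (pr e)) (F.T (pr e) / 2 ^ (J - w)) (b e) + pn (F.Z (pr e)) (b e)) -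
      CH p' (fun e => (F.T (pr e) / 2 ^ (J - w), b e)) (fun e => (z (pr e), F.Z (pr e))) := rfl
  have e4 : L.Psi (F.ext p' hp' pr) pn w b = (w + m * J) * Real.log 2 -
      Ex p' (fun e => L.pot J w (F.l (pr e)) (F.T (pr e) / 2 ^ (J - w)) (b e) + pn (F.Z (pr e)) (b e)) -
      CH p' (fun e => (F.T (pr e) / 2 ^ (J - w), b e)) (fun e => F.Z (pr e)) := rfl
  replace h3 := h3.trans e3.le
  refine le_trans ?_ e4.ge
  rw [← e1]
  linarith

/-- **Mixtures.** -/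
theorem LA.Get.mix (F : Fam m J) {w : ℕ} {c : F.ζ → L.Cx} {k a : ℕ} {pn : F.ζ → L.V → ℝ}
    {σ : Type}
    [DecidableEq σ] (S : F.Ω → σ) (x : σ → ℝ) (hget : ∀ s (hs : law F.p S s ≠ 0),
      L.Get (F.res S s (cond_isLaw F.isLaw.nonneg S hs)) w c k a pn (x s)) :
    L.Get F w c k a pn (∑ s ∈ univ.image S, law F.p S s * x s - CH F.p S F.Z) := by
  classical
  set I := {s // s ∈ (univ.image S).filter (fun s => law F.p S s ≠ 0)} with hI
  have hne : ∀ i : I, law F.p S i.1 ≠ 0 := fun i => (Finset.mem_filter.mp i.2).2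
  have hget' : ∀ i : I, ∃ (E : Type) (_ : Fintype E) (p' : E → ℝ) (hp' : IsLaw p')
      (pr : E → F.Ω) (b : E → L.V), Psh p' pr (cond F.p S i.1) ∧
      L.Ok (F.ext p' hp' pr) w c k a b ∧ x i.1 ≤ L.Psi (F.ext p' hp' pr) pn w b :=
    fun i => hget i.1 (hne i)
  choose E inst p' hp' pr b hpsh hok hx using hget'
  set wt : I → ℝ := fun i => law F.p S i.1 with hwt
  have hw0 : ∀ i, 0 ≤ wt i := fun i => law_nonneg F.isLaw.nonneg _ _
  have hsum : ∀ f : σ → ℝ, (∀ s, law F.p S s = 0 → f s = 0) →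
      ∑ i : I, f i.1 = ∑ s ∈ univ.image S, f s := by
    intro f hf
    rw [Finset.sum_coe_sort ((univ.image S).filter (fun s => law F.p S s ≠ 0)) f,
      Finset.sum_filter]
    refine Finset.sum_congr rfl fun s _ => ?_
    split_ifs with h1
    · rfl
    · exact (hf s (not_not.mp h1)).symm
  have hw1 : ∑ i, wt i = 1 := by
    have h1 := hsum (fun s => law F.p S s) (fun s hs => hs)
    have h2 := sum_law F.p S
    rw [F.isLaw.sum_one] at h2
    exact h1.trans h2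
  set P := sg wt p' with hP
  have hPl : IsLaw P := sg_isLaw hw0 hw1 hp'
  have hpos : ∀ e, 0 < P e → 0 < wt e.1 ∧ 0 < p' e.1 e.2 := by
    intro e he
    rw [hP] at he
    unfold sg at he
    rcases (hw0 e.1).eq_or_lt with h0 | h0
    · rw [← h0, zero_mul] at he
      exact absurd he (lt_irrefl _)
    rcases ((hp' e.1).nonneg e.2).eq_or_lt with h3 | h3
    · rw [← h3, mul_zero] at he
      exact absurd he (lt_irrefl _)
    exact ⟨h0, h3⟩
  have hS : ∀ e, 0 < P e → S (pr e.1 e.2) = e.1.1 := by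
    intro e he
    have h1 : 0 < cond F.p S e.1.1 (pr e.1 e.2) :=
      (hpsh e.1).pos (hp' e.1).nonneg (hpos e he).2
    exact ((cond_pos_iff F.isLaw.nonneg S e.1.1 _).mp h1).2
  have hPsh : Psh P (fun e : (Σ i, E i) => (pr e.1 e.2 : F.Ω)) F.p := by
    intro ω
    rw [hP, sg_law]
    have h1 : ∀ i : I, wt i * law (p' i) (fun e => pr i e) ω =
        if S ω = i.1 then F.p ω else 0 := by
      intro i
      have h2 : law (p' i) (fun e => pr i e) ω = cond F.p S i.1 ω := hpsh i ω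
      rw [h2]
      unfold Pool.Agent.H49.Ent.cond
      split_ifs with h3
      · rw [hwt]
        field_simp [hne i]
      · rw [mul_zero]
    refine (Finset.sum_congr rfl fun i _ => h1 i).trans ?_
    rcases (F.isLaw.nonneg ω).eq_or_lt with h0 | h0
    · rw [← h0]
      simp
    · have h4 : S ω ∈ (univ.image S).filter (fun s => law F.p S s ≠ 0) :=
        Finset.mem_filter.mpr ⟨Finset.mem_image_of_mem _ (Finset.mem_univ _),
          (law_pos F.isLaw.nonneg S h0).ne'⟩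
      rw [Finset.sum_eq_single (⟨S ω, h4⟩ : I)]
      · simp
      · intro b _ hb
        rw [if_neg]
        intro h5
        exact hb (Subtype.ext h5.symm)
      · intro h5
        exact absurd (Finset.mem_univ _) h5
  refine ⟨Σ i, E i, inferInstance, P, hPl, fun e => pr e.1 e.2, fun e => b e.1 e.2, hPsh,
    fun e he => hok e.1 e.2 (hpos e he).2, ?_⟩
  have hN := hPl.nonneg
  set Z' : (Σ i, E i) → F.ζ := fun e => F.Z (pr e.1 e.2) with hZ'
  set B : (Σ i, E i) → ℕ × L.V := fun e => (F.T (pr e.1 e.2) / 2 ^ (J - w), b e.1 e.2) with hB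
  set U : (Σ i, E i) → ℝ := fun e => L.pot J w (F.l (pr e.1 e.2)) (F.T (pr e.1 e.2) / 2 ^ (J - w)) (b e.1 e.2) +
    pn (F.Z (pr e.1 e.2)) (b e.1 e.2) with hU
  -- the entropy of the label
  have e1 : CH P B Z' ≤ CH P (fun e : (Σ i, E i) => e.1) Z' + CH P B (fun e => (e.1, Z' e)) :=
    CH_le_add hN B (fun e : (Σ i, E i) => e.1) Z'
  have e2 : CH P (fun e : (Σ i, E i) => e.1) Z' ≤ CH F.p S F.Z := by
    rw [← hPsh.CH_eq S F.Z]
    refine CH_mono_left hN ?_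
    intro a b ha hb hab
    have h1 : S (pr a.1 a.2) = S (pr b.1 b.2) := (Prod.ext_iff.mp hab).1
    rw [hS a ha, hS b hb] at h1
    exact Subtype.ext h1
  have e3 : CH P B (fun e => (e.1, Z' e)) =
      ∑ i, wt i * CH (p' i) (fun e => (F.T (pr i e) / 2 ^ (J - w), b i e))
        (fun e => F.Z (pr i e)) := by
    have h1 := sg_CH hw0 hp' B Z'
    have h2 : CH P B (fun e => (e.1, Z' e)) = CH P B (fun e => (Z' e, e.1)) := by
      refine CH_congr hN ?_ ?_ ?_ ?_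
      · intro a b _ _ hh
        exact (Prod.ext_iff.mp hh).1
      · intro a b _ _ hh
        exact (Prod.ext_iff.mp hh).1
      · intro a b _ _ hh
        exact Prod.ext (Prod.ext_iff.mp hh).2 (Prod.ext_iff.mp hh).1
      · intro a b _ _ hh
        exact Prod.ext (Prod.ext_iff.mp hh).2 (Prod.ext_iff.mp hh).1
    rw [h2]
    exact h1
  have e4 : Ex P U = ∑ i, wt i * Ex (p' i)
      (fun e => L.pot J w (F.l (pr i e)) (F.T (pr i e) / 2 ^ (J - w)) (b i e) + pn (F.Z (pr i e)) (b i e)) :=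
    sg_Ex _
  have e5 : ∑ s ∈ univ.image S, law F.p S s * x s = ∑ i, wt i * x i.1 :=
    (hsum (fun s => law F.p S s * x s) (fun s hs => by rw [hs, zero_mul])).symm
  have e6 : ∑ i, wt i * x i.1 ≤ ∑ i, wt i * L.Psi (F.ext (p' i) (hp' i) (pr i)) pn w (b i) :=
    Finset.sum_le_sum fun i _ => mul_le_mul_of_nonneg_left (hx i) (hw0 i)
  have e7 : ∑ i, wt i * L.Psi (F.ext (p' i) (hp' i) (pr i)) pn w (b i) =
      (w + m * J) * Real.log 2 - Ex P U - CH P B (fun e => (e.1, Z' e)) := by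
    rw [e3, e4]
    unfold LA.Psi
    simp only [mul_sub, Finset.sum_sub_distrib]
    rw [← Finset.sum_mul, hw1, one_mul]
    rfl
  have e8 : L.Psi (F.ext P hPl (fun e : (Σ i, E i) => (pr e.1 e.2 : F.Ω))) pn w
      (fun e => b e.1 e.2) = (w + m * J) * Real.log 2 - Ex P U - CH P B Z' := rfl
  refine le_trans ?_ e8.ge
  rw [e5]
  linarith

/-! ### Restrictions -/

section res

variable {F : Fam m J} {σ : Type} [DecidableEq σ] (S : F.Ω → σ)

/-- The mean of the potentials of the restrictions. -/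
theorem LA.Psi_res (pn : F.ζ → L.V → ℝ) (w : ℕ) (b : F.Ω → L.V) (v : σ → ℝ)
    (hv : ∀ s (hs : law F.p S s ≠ 0),
      v s = L.Psi (F.res S s (cond_isLaw F.isLaw.nonneg S hs)) pn w b) :
    ∑ s ∈ univ.image S, law F.p S s * v s = (w + m * J) * Real.log 2 -
      (Ex F.p (fun ω => L.pot J w (F.l ω) (F.T ω / 2 ^ (J - w)) (b ω)) +
        Ex F.p (fun ω => pn (F.Z ω) (b ω))) -
      CH F.p (fun ω => (F.T ω / 2 ^ (J - w), b ω)) (fun ω => (F.Z ω, S ω)) := by
  have h0 := F.isLaw.nonneg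
  rw [avg_Ex h0 S (fun ω => L.pot J w (F.l ω) (F.T ω / 2 ^ (J - w)) (b ω)),
    avg_Ex h0 S (fun ω => pn (F.Z ω) (b ω)), avg_CH h0 S _ F.Z]
  have h1 : ∑ s ∈ univ.image S, law F.p S s = 1 := (sum_law F.p S).trans F.isLaw.sum_one
  have h2 : ∀ s ∈ univ.image S, law F.p S s * v s = law F.p S s * ((w + m * J) * Real.log 2) -
      (law F.p S s * Ex (cond F.p S s) (fun ω => L.pot J w (F.l ω) (F.T ω / 2 ^ (J - w)) (b ω)) +
        law F.p S s * Ex (cond F.p S s) (fun ω => pn (F.Z ω) (b ω))) -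
      law F.p S s * CH (cond F.p S s) (fun ω => (F.T ω / 2 ^ (J - w), b ω)) F.Z := by
    intro s _
    by_cases hs : law F.p S s = 0
    · rw [hs]
      ring
    · have e : v s = (w + m * J) * Real.log 2 -
          (Ex (cond F.p S s) (fun ω => L.pot J w (F.l ω) (F.T ω / 2 ^ (J - w)) (b ω)) +
            Ex (cond F.p S s) (fun ω => pn (F.Z ω) (b ω))) -
          CH (cond F.p S s) (fun ω => (F.T ω / 2 ^ (J - w), b ω)) F.Z :=
        (hv s hs).trans (LA.Psi_eq (F.res S s (cond_isLaw F.isLaw.nonneg S hs)) pn w b)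
      rw [e]
      ring
  rw [Finset.sum_congr rfl h2]
  simp only [Finset.sum_sub_distrib, Finset.sum_add_distrib]
  rw [← Finset.sum_mul, h1, one_mul]

/-- **Almost optimal labels of the restriction to an event.** -/
theorem near_res {w : ℕ} {c : F.ζ → L.Cx} {k a a' : ℕ} {pn : F.ζ → L.V → ℝ} {b : F.Ω → L.V}
    (haa : a ≤ a') (hb : L.Ok F w c k a b) {D : ℝ}
    (hD : ∀ x, L.Get F w c k a' pn x → x ≤ L.Psi F pn w b + D) (s : σ) (hs : law F.p S s ≠ 0) :
    ∀ x, L.Get (F.res S s (cond_isLaw F.isLaw.nonneg S hs)) w c k a' pn x →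
      x ≤ L.Psi (F.res S s (cond_isLaw F.isLaw.nonneg S hs)) pn w b +
        (D + CH F.p S F.Z) / law F.p S s := by
  classical
  intro x hx
  have h0 := F.isLaw.nonneg
  have hs0 : 0 < law F.p S s := lt_of_le_of_ne (law_nonneg h0 _ _) (Ne.symm hs)
  -- the values on the pieces
  obtain ⟨v, hv⟩ : ∃ v : σ → ℝ, ∀ s (hs : law F.p S s ≠ 0),
      v s = L.Psi (F.res S s (cond_isLaw F.isLaw.nonneg S hs)) pn w b :=
    ⟨fun s => if hs : law F.p S s ≠ 0 then
      L.Psi (F.res S s (cond_isLaw F.isLaw.nonneg S hs)) pn w b else 0,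
      fun s hs => by simp only [dif_pos hs]⟩
  have hmix := LA.Get.mix (L := L) F (w := w) (c := c) (k := k) (a := a') (pn := pn) S
    (fun s' => if s' = s then x else v s') (by
      intro s' hs'
      by_cases h : s' = s
      · subst h
        rw [if_pos rfl]
        exact hx
      · rw [if_neg h, hv s' hs']
        refine (LA.Get.self (F.res S s' (cond_isLaw F.isLaw.nonneg S hs')) pn
          (a := a) (k := k) (c := c) ?_).mono_x haa (le_refl _)
        intro ω hω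
        exact hb ω ((cond_pos_iff h0 S s' ω).mp hω).1)
  have h1 := hD _ hmix
  have h2 := LA.Psi_res S pn w b v hv
  have hmem : s ∈ univ.image S := by
    by_contra hcon
    refine hs ?_
    unfold law
    refine Finset.sum_eq_zero fun ω _ => ?_
    rw [if_neg]
    intro h
    exact hcon (Finset.mem_image.2 ⟨ω, Finset.mem_univ _, h⟩)
  have h3 : ∑ s' ∈ univ.image S, law F.p S s' * (if s' = s then x else v s') =
      ∑ s' ∈ univ.image S, law F.p S s' * v s' + law F.p S s * (x - v s) := by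
    rw [← Finset.add_sum_erase _ _ hmem, ← Finset.add_sum_erase (univ.image S)
      (fun s' => law F.p S s' * v s') hmem, if_pos rfl]
    have h4 : ∑ s' ∈ (univ.image S).erase s, law F.p S s' * (if s' = s then x else v s') =
        ∑ s' ∈ (univ.image S).erase s, law F.p S s' * v s' :=
      Finset.sum_congr rfl fun s' hs' => by rw [if_neg (Finset.ne_of_mem_erase hs')]
    rw [h4]
    ring
  have h5 : CH F.p (fun ω => (F.T ω / 2 ^ (J - w), b ω)) (fun ω => (F.Z ω, S ω)) ≤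
      CH F.p (fun ω => (F.T ω / 2 ^ (J - w), b ω)) F.Z :=
    CH_mono_cond h0 (fun a b _ _ h => (Prod.ext_iff.mp h).1)
  have h6 := LA.Psi_eq (L := L) F pn w b
  have h7 : law F.p S s * (x - v s) ≤ D + CH F.p S F.Z := by
    rw [h3, h2] at h1
    linarith
  rw [← hv s hs, ← sub_le_iff_le_add', le_div_iff₀ hs0]
  linarith

end res

/-- The cost of the restrictions. -/
theorem co_res {Y : Type} {f : Y → ℕ → ℝ} {Λ : ℝ} {K N sh : ℕ} (hΛ : 0 ≤ Λ) {F : Fam m J}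
    {σ : Type} [DecidableEq σ] (S : F.Ω → σ) (y : ℕ → F.Ω → Y) (v : σ → ℝ)
    (hv : ∀ s (hs : law F.p S s ≠ 0),
      v s = co f Λ K N sh (F.res S s (cond_isLaw F.isLaw.nonneg S hs)) y) :
    ∑ s ∈ univ.image S, law F.p S s * v s ≤ co f Λ K N sh F y +
      Λ * CH F.p S (fun ω => ((F.l ω, F.Z ω), F.T ω / 2 ^ (K * (sh + N)))) := by
  have h0 := F.isLaw.nonneg
  obtain ⟨M, hM⟩ : ∃ M : F.Ω → ℕ, M = fun ω => F.T ω / 2 ^ (K * sh) % 2 ^ (K * N) := ⟨_, rfl⟩
  obtain ⟨W, hW⟩ : ∃ W : F.Ω → (Ln m × F.ζ) × ℕ,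
    W = fun ω => ((F.l ω, F.Z ω), F.T ω / 2 ^ (K * (sh + N))) := ⟨_, rfl⟩
  obtain ⟨fi, hfi⟩ : ∃ fi : ℕ → F.Ω → ℝ,
    fi = fun i ω => f (y (sh + i) ω) (F.T ω / 2 ^ (K * (sh + i)) % 2 ^ K) := ⟨_, rfl⟩
  have h1 : ∀ s ∈ univ.image S, law F.p S s * v s =
      ∑ i ∈ range N, law F.p S s * Ex (cond F.p S s) (fi i) -
        Λ * (law F.p S s * CH (cond F.p S s) M W) := by
    intro s _
    by_cases hs : law F.p S s = 0
    · rw [hs]
      simp
    · rw [hv s hs, hM, hW, hfi, ← Finset.mul_sum]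
      change law F.p S s * (∑ i ∈ range N, Ex (cond F.p S s)
        (fun ω => f (y (sh + i) ω) (F.T ω / 2 ^ (K * (sh + i)) % 2 ^ K)) -
        Λ * CH (cond F.p S s) (fun ω => F.T ω / 2 ^ (K * sh) % 2 ^ (K * N))
        (fun ω => ((F.l ω, F.Z ω), F.T ω / 2 ^ (K * (sh + N))))) = _
      ring
  rw [Finset.sum_congr rfl h1, Finset.sum_sub_distrib, Finset.sum_comm, ← Finset.mul_sum,
    ← avg_CH h0 S M W, Finset.sum_congr rfl fun i _ => (avg_Ex h0 S (fi i)).symm]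
  have h2 : CH F.p M W ≤ CH F.p S W + CH F.p M (fun ω => (S ω, W ω)) := CH_le_add h0 M S W
  have h3 : CH F.p M (fun ω => (S ω, W ω)) = CH F.p M (fun ω => (W ω, S ω)) := by
    refine CH_congr h0 ?_ ?_ ?_ ?_
    · intro a b _ _ hh
      exact (Prod.ext_iff.mp hh).1
    · intro a b _ _ hh
      exact (Prod.ext_iff.mp hh).1
    · intro a b _ _ hh
      exact Prod.ext (Prod.ext_iff.mp hh).2 (Prod.ext_iff.mp hh).1
    · intro a b _ _ hh
      exact Prod.ext (Prod.ext_iff.mp hh).2 (Prod.ext_iff.mp hh).1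
  rw [h3] at h2
  have h4 := mul_le_mul_of_nonneg_left h2 hΛ
  have h5 : co f Λ K N sh F y = ∑ i ∈ range N, Ex F.p (fi i) - Λ * CH F.p M W := by
    rw [hM, hW, hfi]
    rfl
  rw [h5, ← hW]
  linarith

/-- **The split of a family.** -/
theorem split {Y : Type} {f : Y → ℕ → ℝ} {Λ : ℝ} {K N sh : ℕ} (hΛ : 0 ≤ Λ) {F : Fam m J}
    {w w₁ : ℕ} {c : F.ζ → L.Cx} {k a : ℕ} {pn pn₁ : F.ζ → L.V → ℝ} {σ : Type} [DecidableEq σ]
    (S : F.Ω → σ) (y : ℕ → F.Ω → Y) (b : F.Ω → L.V) (u : σ → ℝ)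
    (h : ∀ s (hs : law F.p S s ≠ 0),
      L.Get (F.res S s (cond_isLaw F.isLaw.nonneg S hs)) w c k a pn
        (L.Psi (F.res S s (cond_isLaw F.isLaw.nonneg S hs)) pn₁ w₁ b -
          co f Λ K N sh (F.res S s (cond_isLaw F.isLaw.nonneg S hs)) y - u s)) :
    L.Get F w c k a pn (L.Psi F pn₁ w₁ b - co f Λ K N sh F y -
      ∑ s ∈ univ.image S, law F.p S s * u s - CH F.p S F.Z -
      Λ * CH F.p S (fun ω => ((F.l ω, F.Z ω), F.T ω / 2 ^ (K * (sh + N))))) := by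
  classical
  have h0 := F.isLaw.nonneg
  obtain ⟨v, hv⟩ : ∃ v : σ → ℝ, ∀ s (hs : law F.p S s ≠ 0),
      v s = L.Psi (F.res S s (cond_isLaw F.isLaw.nonneg S hs)) pn₁ w₁ b :=
    ⟨fun s => if hs : law F.p S s ≠ 0 then
      L.Psi (F.res S s (cond_isLaw F.isLaw.nonneg S hs)) pn₁ w₁ b else 0,
      fun s hs => by simp only [dif_pos hs]⟩
  obtain ⟨r, hr⟩ : ∃ r : σ → ℝ, ∀ s (hs : law F.p S s ≠ 0),
      r s = co f Λ K N sh (F.res S s (cond_isLaw F.isLaw.nonneg S hs)) y :=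
    ⟨fun s => if hs : law F.p S s ≠ 0 then
      co f Λ K N sh (F.res S s (cond_isLaw F.isLaw.nonneg S hs)) y else 0,
      fun s hs => by simp only [dif_pos hs]⟩
  have hmix := LA.Get.mix (L := L) F (w := w) (c := c) (k := k) (a := a) (pn := pn) S
    (fun s => v s - r s - u s) (fun s hs => by
      rw [hv s hs, hr s hs]
      exact h s hs)
  refine hmix.mono_x (le_refl _) ?_
  simp only [mul_sub, Finset.sum_sub_distrib]
  have h2 := LA.Psi_res S pn₁ w₁ b v hv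
  have h3 := co_res hΛ S y r hr
  have h5 : CH F.p (fun ω => (F.T ω / 2 ^ (J - w₁), b ω)) (fun ω => (F.Z ω, S ω)) ≤
      CH F.p (fun ω => (F.T ω / 2 ^ (J - w₁), b ω)) F.Z :=
    CH_mono_cond h0 (fun a b _ _ h => (Prod.ext_iff.mp h).1)
  have h6 := LA.Psi_eq (L := L) F pn₁ w₁ b
  linarith

/-- The cost of a copy. -/
theorem co_ext {Y : Type} {f : Y → ℕ → ℝ} {Λ : ℝ} {K N sh : ℕ} {F : Fam m J} {E : Type}
    [Fintype E] {p' : E → ℝ} {hp' : IsLaw p'} {pr : E → F.Ω} (h : Psh p' pr F.p)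
    (y : ℕ → F.Ω → Y) :
    co f Λ K N sh (F.ext p' hp' pr) (fun i e => y i (pr e)) = co f Λ K N sh F y := by
  have h1 : ∀ i, Ex p' (fun e => f (y (sh + i) (pr e)) (F.T (pr e) / 2 ^ (K * (sh + i)) % 2 ^ K)) =
      Ex F.p (fun ω => f (y (sh + i) ω) (F.T ω / 2 ^ (K * (sh + i)) % 2 ^ K)) :=
    fun i => h.Ex_eq (fun ω => f (y (sh + i) ω) (F.T ω / 2 ^ (K * (sh + i)) % 2 ^ K))
  have h2 : CH p' (fun e => F.T (pr e) / 2 ^ (K * sh) % 2 ^ (K * N))
      (fun e => ((F.l (pr e), F.Z (pr e)), F.T (pr e) / 2 ^ (K * (sh + N)))) =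
      CH F.p (fun ω => F.T ω / 2 ^ (K * sh) % 2 ^ (K * N))
      (fun ω => ((F.l ω, F.Z ω), F.T ω / 2 ^ (K * (sh + N)))) :=
    h.CH_eq (fun ω => F.T ω / 2 ^ (K * sh) % 2 ^ (K * N))
      (fun ω => ((F.l ω, F.Z ω), F.T ω / 2 ^ (K * (sh + N))))
  unfold co
  rw [← h2, Finset.sum_congr rfl fun i _ => (h1 i).symm]
  rfl

theorem adm_ext {Y : Type} {K N : ℕ} {F : Fam m J} {E : Type}
    [Fintype E] {p' : E → ℝ} {hp' : IsLaw p'} {pr : E → F.Ω} (h : Psh p' pr F.p)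
    {y : ℕ → F.Ω → Y} (hA : Adm K N F y) :
    Adm K N (F.ext p' hp' pr) (fun i e => y i (pr e)) := by
  intro i hi a b ha hb hab
  exact hA i hi (pr a) (pr b) (h.pos hp'.nonneg ha) (h.pos hp'.nonneg hb) hab

/-! ### Codes -/

/-- A code: the weights have sum at most one. -/
structure Kraft {S : Type} (q : S → ℝ) : Prop where
  nonneg : ∀ x, 0 ≤ q x
  sum : ∀ F : Finset S, ∑ x ∈ F, q x ≤ 1

theorem CH_le_kraft {Ω : Type} [Fintype Ω] {p : Ω → ℝ} (hp : IsLaw p) {S T : Type} (X : Ω → S)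
    (W : Ω → T) (B : Ω → ℝ)
    (h : ∀ t : T, ∃ q : S → ℝ, Kraft q ∧ ∀ ω, 0 < p ω → W ω = t →
      0 < q (X ω) ∧ -Real.log (q (X ω)) ≤ B ω) :
    CH p X W ≤ Ex p B := by
  classical
  choose q hq hX using h
  have h1 := CH_le_cross hp.nonneg hp.sum_one X W q
    (fun ω hω => (hX (W ω) ω hω rfl).1) (fun t x => (hq t).nonneg x)
    (fun ω _ F => (hq (W ω)).sum F)
  refine h1.trans (Ex_mono hp.nonneg fun ω hω => (hX (W ω) ω hω rfl).2)

/-- The entropy is at most the logarithm of the number of possible values. -/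
theorem CH_le_of_card {Ω : Type} [Fintype Ω] {p : Ω → ℝ} (hp : IsLaw p) {S T : Type} (X : Ω → S)
    (W : Ω → T) {B : ℝ}
    (h : ∀ t : T, ∃ F : Finset S, Real.log F.card ≤ B ∧ ∀ ω, 0 < p ω → W ω = t → X ω ∈ F) :
    CH p X W ≤ B := by
  choose F hF hX using h
  refine (CH_le_card hp.nonneg hp.sum_one X W F (fun ω hω => hX (W ω) ω hω rfl)).trans ?_
  have h1 : Ex p (fun ω => Real.log ((F (W ω)).card)) ≤ Ex p (fun _ => B) :=
    Ex_mono hp.nonneg fun ω _ => hF _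
  rwa [Ex_const hp.sum_one] at h1

/-! ### The dead move -/

/-- **(DEAD)** The same label at a larger window; `tr l t v` is the value at the window with `l`
digits less, if `t` is the old window. -/
def Dead (L : LA m) (tr : ℕ → ℕ → L.V → L.V) : Prop :=
  ∀ (J w l : ℕ), w + l ≤ J → ∀ (c : L.Cx) (k a : ℕ) (x : Ln m) (t : ℕ) (v : L.V), L.cw c w →
    L.ok J (w + l) c k a x t v → L.ok J w c k a x (t / 2 ^ l) (tr l t v) ∧
    L.pot J w x (t / 2 ^ l) (tr l t v) ≤ L.pot J (w + l) x t v + m * (l * Real.log 2)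

/-- The dead move. -/
theorem LA.Get.dead {tr : ℕ → ℕ → L.V → L.V} (hd : Dead L tr) {w l : ℕ} (hwJ : w + l ≤ J)
    {F : Fam m J} {c : F.ζ → L.Cx} (hc : ∀ ω, 0 < F.p ω → L.cw (c (F.Z ω)) w)
    {k a : ℕ} {κ : ℝ} {pn : F.ζ → L.V → ℝ}
    (hpn : ∀ z t v, pn z (tr l t v) ≤ pn z v + κ * l) {x : ℝ}
    (h : L.Get F (w + l) c k a pn x) :
    L.Get F w c k a pn (x - ((m + 1) * Real.log 2 + κ) * l) := by
  obtain ⟨E, i, p', hp', pr, b, h1, h2, h3⟩ := h
  have htt : ∀ e, F.T (pr e) / 2 ^ (J - (w + l)) / 2 ^ l = F.T (pr e) / 2 ^ (J - w) := by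
    intro e
    rw [Nat.div_div_eq_div_mul, ← pow_add]
    congr 2
    omega
  have h4 : ∀ e, 0 < p' e → L.ok J w (c (F.Z (pr e))) k a (F.l (pr e))
      (F.T (pr e) / 2 ^ (J - w)) (tr l (F.T (pr e) / 2 ^ (J - (w + l))) (b e)) ∧
      L.pot J w (F.l (pr e)) (F.T (pr e) / 2 ^ (J - w)) (tr l (F.T (pr e) / 2 ^ (J - (w + l))) (b e)) ≤
        L.pot J (w + l) (F.l (pr e)) (F.T (pr e) / 2 ^ (J - (w + l))) (b e) + m * (l * Real.log 2) := by
    intro e he
    have h5 := hd J w l hwJ _ _ _ _ _ _ (hc _ (h1.pos hp'.nonneg he)) (h2 e he)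
    rw [← htt e]
    exact h5
  refine ⟨E, i, p', hp', pr, fun e => tr l (F.T (pr e) / 2 ^ (J - (w + l))) (b e), h1, fun e he => (h4 e he).1, ?_⟩
  refine le_trans ?_ (LA.Psi_eq (F.ext p' hp' pr) pn w (fun e => tr l (F.T (pr e) / 2 ^ (J - (w + l))) (b e))).ge
  replace h3 := h3.trans (LA.Psi_eq (F.ext p' hp' pr) pn (w + l) b).le
  have e1 : Ex p' (fun e => L.pot J w (F.l (pr e)) (F.T (pr e) / 2 ^ (J - w)) (tr l (F.T (pr e) / 2 ^ (J - (w + l))) (b e))) ≤
      Ex p' (fun e => L.pot J (w + l) (F.l (pr e)) (F.T (pr e) / 2 ^ (J - (w + l))) (b e)) +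
        m * (l * Real.log 2) := by
    rw [← Ex_add_const hp']
    exact Ex_mono hp'.nonneg fun e he => (h4 e he).2
  have e2 : Ex p' (fun e => pn (F.Z (pr e)) (tr l (F.T (pr e) / 2 ^ (J - (w + l))) (b e))) ≤
      Ex p' (fun e => pn (F.Z (pr e)) (b e)) + κ * l := by
    rw [← Ex_add_const hp']
    exact Ex_mono hp'.nonneg fun e _ => hpn _ _ _
  have e3 : CH p' (fun e => (F.T (pr e) / 2 ^ (J - w), tr l (F.T (pr e) / 2 ^ (J - (w + l))) (b e))) (fun e => F.Z (pr e)) ≤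
      CH p' (fun e => (F.T (pr e) / 2 ^ (J - (w + l)), b e)) (fun e => F.Z (pr e)) := by
    refine CH_mono_left hp'.nonneg ?_
    intro e e' _ _ hee
    have h7 : (F.T (pr e) / 2 ^ (J - (w + l)), b e) = (F.T (pr e') / 2 ^ (J - (w + l)), b e') :=
      (Prod.ext_iff.mp hee).1
    have h5 : F.T (pr e) / 2 ^ (J - (w + l)) = F.T (pr e') / 2 ^ (J - (w + l)) :=
      (Prod.ext_iff.mp h7).1
    have h6 : b e = b e' := (Prod.ext_iff.mp h7).2
    refine Prod.ext ?_ ?_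
    · change F.T (pr e) / 2 ^ (J - w) = F.T (pr e') / 2 ^ (J - w)
      rw [← htt, ← htt, h5]
    · change tr l (F.T (pr e) / 2 ^ (J - (w + l))) (b e) =
        tr l (F.T (pr e') / 2 ^ (J - (w + l))) (b e')
      rw [h5, h6]
  change x ≤ ((w + l : ℕ) + m * J) * Real.log 2 -
    (Ex p' (fun e => L.pot J (w + l) (F.l (pr e)) (F.T (pr e) / 2 ^ (J - (w + l))) (b e)) +
      Ex p' (fun e => pn (F.Z (pr e)) (b e))) -
    CH p' (fun e => (F.T (pr e) / 2 ^ (J - (w + l)), b e)) (fun e => F.Z (pr e)) at h3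
  change _ ≤ (w + m * J) * Real.log 2 -
    (Ex p' (fun e => L.pot J w (F.l (pr e)) (F.T (pr e) / 2 ^ (J - w)) (tr l (F.T (pr e) / 2 ^ (J - (w + l))) (b e))) +
      Ex p' (fun e => pn (F.Z (pr e)) (tr l (F.T (pr e) / 2 ^ (J - (w + l))) (b e)))) -
    CH p' (fun e => (F.T (pr e) / 2 ^ (J - w), tr l (F.T (pr e) / 2 ^ (J - (w + l))) (b e))) (fun e => F.Z (pr e))
  rw [Nat.cast_add] at h3
  linarith

end Pool.KNH
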