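import Pool.Agent.H15.KNH.Lab

/-!
# Localization for an abstract class of labels: one label

Two labels of the same line at two windows inside one larger window have a common coarse cell, which
is given by the first label and by the shape of the pair; it is almost a function of the second
label and of the shape. The range of the local problem is given by the shape. The penalty of the
local problem is the same function of the label. So a local claim passes to all families.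
-/

set_option autoImplicit false

namespace Pool.KNH

open Finset Real
open Pool.Agent.H49.Ent Pool.Agent.H32.Dense Pool.STK Pool.KA
open Pool.KM7 (Nng Psh P2 P2_isLaw P2_fst P2_snd P2_pos P2_CH avg_Ex avg_CH cond_isLaw)
open Pool.KN (co Adm)

/-- Types of labels, shapes of pairs of labels, ranges, coarse cells. -/
structure GS (Cx V : Type) where
  /-- types -/
  Ty : Type
  /-- shapes -/
  Sh : Type
  /-- the type of a label at the window `w + l`, in a coarse cell -/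
  ty : (_J _w _l : ℕ) → Cx → (_k _a : ℕ) → V → Ty
  /-- the shape of two labels at the windows of `w + l` digits of the times `t₀`, `t₁` -/
  sh : (_J _w _l : ℕ) → Cx → (_k _a : ℕ) → (_t₀ _t₁ : ℕ) → V → V → Sh
  /-- the range of a shape -/
  rg : Sh → ℕ
  /-- the coarse cell, at the window with `w` digits -/
  crs : (_J _w _l : ℕ) → Cx → (_k _a : ℕ) → (_t₀ : ℕ) → V → Sh → Cx

variable {m : ℕ} {L : LA m}

/-- Two labels of a line, of the same type, in the same large window. -/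
def GS.Two (G : GS L.Cx L.V) (J w l : ℕ) (c : L.Cx) (k a : ℕ) (x : Ln m) (t₀ t₁ : ℕ)
    (v₀ v₁ : L.V) : Prop :=
  L.cw c w ∧ L.ok J (w + l) c k a x t₀ v₀ ∧ L.ok J (w + l) c k a x t₁ v₁ ∧
    t₀ / 2 ^ l = t₁ / 2 ^ l ∧ G.ty J w l c k a v₀ = G.ty J w l c k a v₁

/-- **The geometry of the class**: `cl l k a c v` is the length of the codes. -/
structure Geo (L : LA m) (G : GS L.Cx L.V) (cl : ℕ → ℕ → ℕ → L.Cx → L.V → ℝ) (C : ℝ) (g : ℕ) :
    Prop where
  /-- the age is at most the range -/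
  age_le : ∀ (J w : ℕ) (c : L.Cx) (k a : ℕ) (x : Ln m) (t : ℕ) (v : L.V), L.cw c w →
    L.ok J w c k a x t v → L.age v ≤ k
  /-- the code of the types -/
  ty_code : ∀ (J w l : ℕ) (c : L.Cx) (k a : ℕ), 1 ≤ l → w + l ≤ J → L.cw c w →
    ∃ q : G.Ty → ℝ, Kraft q ∧
    ∀ (x : Ln m) (t : ℕ) (v : L.V), L.ok J (w + l) c k a x t v →
      0 < q (G.ty J w l c k a v) ∧ -Real.log (q (G.ty J w l c k a v)) ≤ cl l k a c v
  /-- the code of the shapes -/
  sh_code : ∀ (J w l : ℕ) (c : L.Cx) (k a : ℕ), 1 ≤ l → w + l ≤ J → L.cw c w →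
    ∃ q : G.Sh → ℝ, Kraft q ∧
    ∀ (x : Ln m) (t₀ t₁ : ℕ) (v₀ v₁ : L.V), G.Two J w l c k a x t₀ t₁ v₀ v₁ →
      0 < q (G.sh J w l c k a t₀ t₁ v₀ v₁) ∧
      -Real.log (q (G.sh J w l c k a t₀ t₁ v₀ v₁)) ≤ cl l k a c v₀ ∧
      -Real.log (q (G.sh J w l c k a t₀ t₁ v₀ v₁)) ≤ cl l k a c v₁
  /-- the coarse cell is a cell of the large window -/
  crs_cw : ∀ (J w l : ℕ) (c : L.Cx) (k a t₀ : ℕ) (v₀ : L.V) (s : G.Sh),
    L.cw (G.crs J w l c k a t₀ v₀ s) w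
  /-- the second label is a label inside the coarse cell -/
  alpha : ∀ (J w l : ℕ) (c : L.Cx) (k a : ℕ), 1 ≤ l → w + l ≤ J → ∀ (x : Ln m) (t₀ t₁ : ℕ)
    (v₀ v₁ : L.V), G.Two J w l c k a x t₀ t₁ v₀ v₁ →
    L.ok J (w + l) (G.crs J w l c k a t₀ v₀ (G.sh J w l c k a t₀ t₁ v₀ v₁))
      (G.rg (G.sh J w l c k a t₀ t₁ v₀ v₁)) g x t₁ v₁
  /-- a label inside the coarse cell is a label inside the outer cell -/
  beta : ∀ (J w l : ℕ) (c : L.Cx) (k a a' : ℕ), 1 ≤ l → w + l ≤ J → ∀ (x : Ln m) (t₀ t₁ : ℕ)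
    (v₀ v₁ v : L.V), G.Two J w l c k a x t₀ t₁ v₀ v₁ →
    L.ok J w (G.crs J w l c k a t₀ v₀ (G.sh J w l c k a t₀ t₁ v₀ v₁))
      (G.rg (G.sh J w l c k a t₀ t₁ v₀ v₁)) a' x (t₁ / 2 ^ l) v →
    L.ok J w c k (a + a' + g) x (t₁ / 2 ^ l) v
  /-- the coarse cell is almost a function of the second label and of the shape -/
  gamma : ∀ (J w l : ℕ) (c : L.Cx) (k a : ℕ), 1 ≤ l → w + l ≤ J → L.cw c w →
    ∀ (t₁ : ℕ) (v₁ : L.V) (s : G.Sh), ∃ 𝒞 : Finset L.Cx, Real.log 𝒞.card ≤ C ∧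
    ∀ (x : Ln m) (t₀ : ℕ) (v₀ : L.V), G.Two J w l c k a x t₀ t₁ v₀ v₁ →
      G.sh J w l c k a t₀ t₁ v₀ v₁ = s → G.crs J w l c k a t₀ v₀ s ∈ 𝒞

/-- The line, the side information, the large window, and the type of the label. -/
def GS.gg (G : GS L.Cx L.V) {J : ℕ} (F : Fam m J) (w l : ℕ) (c : F.ζ → L.Cx) (k a : ℕ)
    (b : F.Ω → L.V) (ω : F.Ω) : ((Ln m × F.ζ) × ℕ) × G.Ty :=
  (((F.l ω, F.Z ω), F.T ω / 2 ^ (J - w)), G.ty J w l (c (F.Z ω)) k a (b ω))

/-- The shape of the labels of two samples. -/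
def GS.SS (G : GS L.Cx L.V) {J : ℕ} (F : Fam m J) (w l : ℕ) (c : F.ζ → L.Cx) (k a : ℕ)
    (b : F.Ω → L.V) (e : F.Ω × F.Ω) : G.Sh :=
  G.sh J w l (c (F.Z e.2)) k a (F.T e.1 / 2 ^ (J - (w + l))) (F.T e.2 / 2 ^ (J - (w + l)))
    (b e.1) (b e.2)

/-- The coarse cell of two samples. -/
def GS.CC (G : GS L.Cx L.V) {J : ℕ} (F : Fam m J) (w l : ℕ) (c : F.ζ → L.Cx) (k a : ℕ)
    (b : F.Ω → L.V) (e : F.Ω × F.Ω) : L.Cx :=
  G.crs J w l (c (F.Z e.2)) k a (F.T e.1 / 2 ^ (J - (w + l))) (b e.1) (G.SS F w l c k a b e)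

/-- **The local claim**, for families whose samples have the property `P` (of the resolution, the
digits of the time, the states and the label), and for penalties of the class `Pn`: the loss is the
cost, `δ` for each digit, and the mean of `lo`, a function of the resolution, the window, the range,
the coarse cell and the label. -/
def LCL (L : LA m) (Pn : (L.V → ℝ) → Prop) {Y : Type} (P : ℕ → ℕ → (ℕ → Y) → L.V → Prop)
    (lo : ℕ → ℕ → ℕ → L.Cx → L.V → ℝ) (f : Y → ℕ → ℝ) (Λ : ℝ) (K N g G : ℕ) (δ : ℝ) : Prop :=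
  ∀ (J sh w : ℕ), J = w + K * N + K * sh → ∀ (F : Fam m J) (c : F.ζ → L.Cx) (k : ℕ)
    (y : ℕ → F.Ω → Y), Adm K (sh + N) F y → (∀ ω, 0 < F.p ω → L.cw (c (F.Z ω)) w) →
    ∀ b : F.Ω → L.V,
    (∀ ω, 0 < F.p ω →
      P J (F.T ω / 2 ^ (K * sh) % 2 ^ (K * N)) (fun i => y (sh + i) ω) (b ω)) →
    ∀ pn : F.ζ → L.V → ℝ, (∀ z, Pn (pn z)) → L.Ok F (w + K * N) c k g b →
      L.Get F w c k (g + G) pn (L.Psi F pn (w + K * N) b - co f Λ K N sh F y -
        δ * (K * N : ℕ) - Ex F.p (fun ω => lo J (w + K * N) k (c (F.Z ω)) (b ω)))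

variable {G : GS L.Cx L.V} {cl : ℕ → ℕ → ℕ → L.Cx → L.V → ℝ} {C : ℝ} {g : ℕ} {Y : Type}
  {f : Y → ℕ → ℝ} {Λ : ℝ} {K N : ℕ} {Pn : (L.V → ℝ) → Prop} {P : ℕ → ℕ → (ℕ → Y) → L.V → Prop}
  {lo : ℕ → ℕ → ℕ → L.Cx → L.V → ℝ}

theorem div_div_sh {T K N sh : ℕ} : T / 2 ^ (K * sh) / 2 ^ (K * N) = T / 2 ^ (K * (sh + N)) := by
  rw [Nat.div_div_eq_div_mul, ← pow_add]
  congr 2
  ring

/-- **The passage from the local claim to all families, for a given label.** -/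
theorem loc_self (hG : Geo L G cl C g) (hC : 0 ≤ C) (hΛ : 0 < Λ) (hℓ1 : 1 ≤ K * N) {G₀ : ℕ}
    {δ : ℝ} (hP : LCL L Pn P lo f Λ K N g G₀ δ) {J sh w : ℕ} (hJ : J = w + K * N + K * sh) (F : Fam m J)
    (c : F.ζ → L.Cx) (hc : ∀ ω, 0 < F.p ω → L.cw (c (F.Z ω)) w) (k a : ℕ) (y : ℕ → F.Ω → Y)
    (hA : Adm K (sh + N) F y) (b : F.Ω → L.V) (hPF : ∀ ω, 0 < F.p ω →
      P J (F.T ω / 2 ^ (K * sh) % 2 ^ (K * N)) (fun i => y (sh + i) ω) (b ω))
    (pn : F.ζ → L.V → ℝ) (hpn : ∀ z, Pn (pn z))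
    (hb : L.Ok F (w + K * N) c k a b) :
    L.Get F w c k (a + (G₀ + 2 * g)) pn (L.Psi F pn (w + K * N) b - co f Λ K N sh F y -
      δ * (K * N : ℕ) - Ex (P2 F.p (G.gg F w (K * N) c k a b)) (fun e =>
        lo J (w + K * N) (G.rg (G.SS F w (K * N) c k a b e)) (G.CC F w (K * N) c k a b e)
          (b e.2)) -
      C - (1 + 2 * Λ) * Ex F.p (fun ω => cl (K * N) k a (c (F.Z ω)) (b ω))) := by
  classical
  have hwJ : w + K * N ≤ J := by omega
  have hJw : J - w = K * (sh + N) := by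
    rw [hJ]
    have : K * (sh + N) = K * N + K * sh := by ring
    omega
  have hJw1 : J - (w + K * N) = K * sh := by omega
  set ℓ := K * N with hℓ
  set g' := G.gg F w ℓ c k a b with hg'
  set Q := P2 F.p g' with hQdef
  have hPl : IsLaw Q := P2_isLaw F.isLaw g'
  have hfst : Psh Q Prod.fst F.p := P2_fst F.isLaw g'
  have hsnd : Psh Q Prod.snd F.p := P2_snd F.isLaw g'
  have hpos : ∀ e, 0 < Q e → 0 < F.p e.1 ∧ 0 < F.p e.2 ∧ g' e.1 = g' e.2 := fun e he =>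
    (P2_pos F.isLaw e).mp he
  have hline : ∀ e, 0 < Q e → F.l e.1 = F.l e.2 ∧ F.Z e.1 = F.Z e.2 ∧
      F.T e.1 / 2 ^ (J - w) = F.T e.2 / 2 ^ (J - w) ∧
      G.ty J w ℓ (c (F.Z e.1)) k a (b e.1) = G.ty J w ℓ (c (F.Z e.2)) k a (b e.2) := by
    intro e he
    have h1 := (hpos e he).2.2
    simp only [hg', GS.gg, Prod.mk.injEq] at h1
    exact ⟨h1.1.1.1, h1.1.1.2, h1.1.2, h1.2⟩
  have htt : ∀ ω, F.T ω / 2 ^ (J - (w + ℓ)) / 2 ^ ℓ = F.T ω / 2 ^ (J - w) := by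
    intro ω
    rw [hJw1, hJw, hℓ, div_div_sh]
  have htwo : ∀ e, 0 < Q e → G.Two J w ℓ (c (F.Z e.2)) k a (F.l e.2)
      (F.T e.1 / 2 ^ (J - (w + ℓ))) (F.T e.2 / 2 ^ (J - (w + ℓ))) (b e.1) (b e.2) := by
    intro e he
    obtain ⟨h1, h2, h3, h4⟩ := hline e he
    refine ⟨hc _ (hpos e he).2.1, ?_, hb e.2 (hpos e he).2.1, ?_, ?_⟩
    · have h5 := hb e.1 (hpos e he).1
      rw [h1, h2] at h5
      exact h5
    · rw [htt, htt, h3]
    · rw [← h4, h2]
  set S := G.SS F w ℓ c k a b with hS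
  set FP := F.ext Q hPl Prod.snd with hFP
  set y2 : ℕ → F.Ω × F.Ω → Y := fun i e => y i e.2 with hy2
  set B1 : F.Ω × F.Ω → ℕ × L.V := fun e => (F.T e.2 / 2 ^ (J - (w + ℓ)), b e.2) with hB1
  set U1 : F.Ω × F.Ω → ℝ := fun e =>
    L.pot J (w + ℓ) (F.l e.2) (F.T e.2 / 2 ^ (J - (w + ℓ))) (b e.2) +
    pn (F.Z e.2) (b e.2) with hU1
  set M1 : F.Ω × F.Ω → ℕ := fun e => F.T e.2 / 2 ^ (K * sh) % 2 ^ (K * N) with hM1
  set fi : ℕ → F.Ω × F.Ω → ℝ := fun i e =>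
    f (y (sh + i) e.2) (F.T e.2 / 2 ^ (K * (sh + i)) % 2 ^ K) with hfi
  set zz : G.Sh → F.Ω × F.Ω → L.Cx := fun s e =>
    G.crs J w ℓ (c (F.Z e.2)) k a (F.T e.1 / 2 ^ (J - (w + ℓ))) (b e.1) s with hzz
  set x : G.Sh → ℝ := fun s =>
    ((w + ℓ : ℕ) + m * J) * Real.log 2 - Ex (cond Q S s) U1 -
      CH (cond Q S s) B1 (fun e => F.Z e.2) -
    (∑ i ∈ range N, Ex (cond Q S s) (fi i) -
      Λ * CH (cond Q S s) M1 (fun e => e.1)) - δ * (ℓ : ℕ) -
    Ex (cond Q S s) (fun e => lo J (w + ℓ) (G.rg s) (zz s e) (b e.2)) - C with hxx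
  have hmix := LA.Get.mix (L := L) FP (w := w) (c := c) (k := k) (a := a + (G₀ + 2 * g))
    (pn := pn) S x (by
    intro s hs
    have hs' : law Q S s ≠ 0 := hs
    set R := cond Q S s with hR
    have hQl : IsLaw R := cond_isLaw hPl.nonneg S hs'
    have hQpos : ∀ e, 0 < R e → 0 < Q e ∧ S e = s := fun e he =>
      (cond_pos_iff hPl.nonneg S _ e).mp he
    set FQ := FP.res S s (cond_isLaw FP.isLaw.nonneg S hs) with hFQ
    set z : F.Ω × F.Ω → L.Cx := zz s with hz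
    -- the label of the second sample
    have hok : L.Ok (FQ.cnd z) (w + ℓ) Prod.fst (G.rg s) g (fun e => b e.2) := by
      intro e he
      obtain ⟨h1, h2⟩ := hQpos e he
      have h3 := hG.alpha J w ℓ (c (F.Z e.2)) k a hℓ1 hwJ _ _ _ _ _ (htwo e h1)
      have h4 : G.sh J w ℓ (c (F.Z e.2)) k a (F.T e.1 / 2 ^ (J - (w + ℓ)))
        (F.T e.2 / 2 ^ (J - (w + ℓ))) (b e.1) (b e.2) = s := h2
      rw [h4] at h3
      exact h3
    have hAdm' : Adm K (sh + N) (FQ.cnd z) y2 := by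
      intro i hi e e' he he' hee
      have h1 := (hpos e (hQpos e he).1).2.1
      have h2 := (hpos e' (hQpos e' he').1).2.1
      refine hA i hi e.2 e'.2 h1 h2 ?_
      have h3 := (Prod.ext_iff.mp hee).1
      have h4 : F.T e.2 / 2 ^ (K * (i + 1)) = F.T e'.2 / 2 ^ (K * (i + 1)) :=
        (Prod.ext_iff.mp hee).2
      have h5 : F.l e.2 = F.l e'.2 := (Prod.ext_iff.mp h3).1
      have h6 : (z e, F.Z e.2) = (z e', F.Z e'.2) := (Prod.ext_iff.mp h3).2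
      exact Prod.ext (Prod.ext h5 (Prod.ext_iff.mp h6).2) h4
    have hP' : ∀ e, 0 < (FQ.cnd z).p e →
        P J ((FQ.cnd z).T e / 2 ^ (K * sh) % 2 ^ (K * N)) (fun i => y2 (sh + i) e) (b e.2) :=
      fun e he => hPF e.2 (hpos e (hQpos e he).1).2.1
    have h1 := hP J sh w hJ (FQ.cnd z) Prod.fst (G.rg s) y2 hAdm'
      (fun e _ => hG.crs_cw J w ℓ _ _ _ _ _ _) _ hP' (fun q v => pn q.2 v) (fun q => hpn q.2) hok
    have h2 : L.Get FQ w c k (a + (G₀ + 2 * g)) pn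
        (L.Psi (FQ.cnd z) (fun q v => pn q.2 v) (w + ℓ) (fun e => b e.2) - co f Λ K N sh (FQ.cnd z) y2 -
          δ * (ℓ : ℕ) - Ex R (fun e => lo J (w + ℓ) (G.rg s) (z e) (b e.2)) -
          CH R z (fun e => F.Z e.2)) := by
      refine LA.Get.uncnd (F := FQ) (pn := pn) z ?_ h1
      intro e he v hv
      obtain ⟨k1, k2⟩ := hQpos e he
      have k3 := htwo e k1
      have k4 : G.sh J w ℓ (c (F.Z e.2)) k a (F.T e.1 / 2 ^ (J - (w + ℓ)))
        (F.T e.2 / 2 ^ (J - (w + ℓ))) (b e.1) (b e.2) = s := k2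
      have k5 := hG.beta J w ℓ (c (F.Z e.2)) k a (g + G₀) hℓ1 hwJ _ _ _ _ _ v k3
      rw [k4, htt] at k5
      have k6 := k5 hv
      refine L.ok_mono ?_ k6
      omega
    refine h2.mono_x (le_refl _) ?_
    -- the potential
    have e1 : L.Psi (FQ.cnd z) (fun q v => pn q.2 v) (w + ℓ) (fun e => b e.2) =
        ((w + ℓ : ℕ) + m * J) * Real.log 2 -
        Ex R U1 - CH R B1 (fun e => (z e, F.Z e.2)) := rfl
    have e2 := CH_chain hQl.nonneg B1 z (fun e => F.Z e.2)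
    have e3 := CH_chain hQl.nonneg z B1 (fun e => F.Z e.2)
    have e4 : CH R (fun e => (z e, B1 e)) (fun e => F.Z e.2) =
        CH R (fun e => (B1 e, z e)) (fun e => F.Z e.2) := by
      refine CH_congr hQl.nonneg ?_ ?_ (fun _ _ _ _ h => h) (fun _ _ _ _ h => h)
      · intro e e' _ _ h
        simp only [Prod.mk.injEq] at h ⊢
        tauto
      · intro e e' _ _ h
        simp only [Prod.mk.injEq] at h ⊢
        tauto
    have e5 : CH R z (fun e => (B1 e, F.Z e.2)) ≤ C := by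
      refine CH_le_of_card hQl z _ ?_
      rintro ⟨⟨t₁, v₁⟩, ζ₀⟩
      by_cases hcz : L.cw (c ζ₀) w
      swap
      · refine ⟨∅, ?_, fun e he hee => absurd ?_ hcz⟩
        · simpa using hC
        · simp only [hB1, Prod.mk.injEq] at hee
          rw [← hee.2]
          exact hc _ (hpos e (hQpos e he).1).2.1
      obtain ⟨𝒞, h3, h4⟩ := hG.gamma J w ℓ (c ζ₀) k a hℓ1 hwJ hcz t₁ v₁ s
      refine ⟨𝒞, h3, fun e he hee => ?_⟩
      obtain ⟨k1, k2⟩ := hQpos e he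
      have k3 := htwo e k1
      have k4 : G.sh J w ℓ (c (F.Z e.2)) k a (F.T e.1 / 2 ^ (J - (w + ℓ)))
        (F.T e.2 / 2 ^ (J - (w + ℓ))) (b e.1) (b e.2) = s := k2
      simp only [hB1, Prod.mk.injEq] at hee
      obtain ⟨⟨i1, i2⟩, i3⟩ := hee
      rw [i1, i2, i3] at k3 k4
      have k5 := h4 _ _ _ k3 k4
      simp only [hz, hzz]
      rw [i3]
      exact k5
    -- the cost
    have e6 : co f Λ K N sh (FQ.cnd z) y2 = ∑ i ∈ range N, Ex R (fi i) -
        Λ * CH R M1 (fun e => ((F.l e.2, (z e, F.Z e.2)), F.T e.2 / 2 ^ (K * (sh + N)))) := rfl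
    have e7 : CH R M1 (fun e => e.1) ≤
        CH R M1 (fun e => ((F.l e.2, (z e, F.Z e.2)), F.T e.2 / 2 ^ (K * (sh + N)))) := by
      refine CH_mono_cond hQl.nonneg ?_
      intro e e' he he' hee
      have hee' : e.1 = e'.1 := hee
      obtain ⟨i1, i2, i3, _⟩ := hline e (hQpos e he).1
      obtain ⟨j1, j2, j3, _⟩ := hline e' (hQpos e' he').1
      rw [hJw] at i3 j3
      have k1 : F.l e.2 = F.l e'.2 := by rw [← i1, ← j1, hee']
      have k2 : F.Z e.2 = F.Z e'.2 := by rw [← i2, ← j2, hee']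
      have k3 : F.T e.2 / 2 ^ (K * (sh + N)) = F.T e'.2 / 2 ^ (K * (sh + N)) := by
        rw [← i3, ← j3, hee']
      have k4 : z e = z e' := by
        simp only [hz, hzz]
        rw [k2, hee']
      exact Prod.ext (Prod.ext k1 (Prod.ext k4 k2)) k3
    have e8 := mul_le_mul_of_nonneg_left e7 hΛ.le
    rw [e1, e6]
    simp only [hxx]
    linarith)
  have hget : L.Get F w c k (a + (G₀ + 2 * g)) pn
      (∑ s ∈ univ.image S, law Q S s * x s - CH Q S (fun e => F.Z e.2)) :=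
    LA.Get.of_ext hsnd hmix
  refine hget.mono_x (le_refl _) ?_
  -- the averages
  have a1 := avg_Ex hPl.nonneg S U1
  have a2 := avg_CH hPl.nonneg S B1 (fun e => F.Z e.2)
  have a3 : ∀ i, Ex Q (fi i) = ∑ s ∈ univ.image S, law Q S s *
      Ex (cond Q S s) (fi i) := fun i => avg_Ex hPl.nonneg S (fi i)
  have a4 := avg_CH hPl.nonneg S M1 (fun e => e.1)
  have a5 : ∑ s ∈ univ.image S, law Q S s = 1 := (sum_law Q S).trans hPl.sum_one
  have a7 : Ex Q (fun e => lo J (w + ℓ) (G.rg (S e)) (G.CC F w ℓ c k a b e) (b e.2)) =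
      ∑ s ∈ univ.image S, law Q S s *
        Ex (cond Q S s) (fun e => lo J (w + ℓ) (G.rg s) (zz s e) (b e.2)) := by
    rw [avg_Ex hPl.nonneg S
      (fun e => lo J (w + ℓ) (G.rg (S e)) (G.CC F w ℓ c k a b e) (b e.2))]
    refine Finset.sum_congr rfl fun s _ => ?_
    by_cases hs : law Q S s = 0
    · rw [hs, zero_mul, zero_mul]
    congr 1
    have hQl : IsLaw (cond Q S s) := cond_isLaw hPl.nonneg S hs
    unfold Ex
    refine Finset.sum_congr rfl fun e _ => ?_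
    rcases (hQl.nonneg e).eq_or_lt with h0 | h0
    · rw [← h0, zero_mul, zero_mul]
    · have h2 : G.SS F w ℓ c k a b e = s := ((cond_pos_iff hPl.nonneg S _ e).mp h0).2
      simp only [hS, hzz, GS.CC, h2]
  have hsumx : ∑ s ∈ univ.image S, law Q S s * x s =
      (((w + ℓ : ℕ) + m * J) * Real.log 2 - Ex Q U1 - CH Q B1 (fun e => (F.Z e.2, S e))) -
      (∑ i ∈ range N, Ex Q (fi i) - Λ * CH Q M1 (fun e => (e.1, S e))) -
      δ * (ℓ : ℕ) -
      Ex Q (fun e => lo J (w + ℓ) (G.rg (S e)) (G.CC F w ℓ c k a b e) (b e.2)) - C := by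
    have h1 : ∀ s, law Q S s * x s =
        law Q S s * (((w + ℓ : ℕ) + m * J) * Real.log 2) -
        law Q S s * Ex (cond Q S s) U1 -
        law Q S s * CH (cond Q S s) B1 (fun e => F.Z e.2) -
        (∑ i ∈ range N, law Q S s * Ex (cond Q S s) (fi i) -
          Λ * (law Q S s * CH (cond Q S s) M1 (fun e => e.1))) -
        law Q S s * (δ * (ℓ : ℕ)) -
        law Q S s * Ex (cond Q S s) (fun e => lo J (w + ℓ) (G.rg s) (zz s e) (b e.2)) -
        law Q S s * C := by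
      intro s
      rw [hxx, ← Finset.mul_sum]
      ring
    rw [Finset.sum_congr rfl fun s _ => h1 s]
    simp only [Finset.sum_sub_distrib]
    rw [← Finset.sum_mul, ← Finset.sum_mul, ← Finset.sum_mul, a5, ← a1, ← a2,
      Finset.sum_comm, ← Finset.mul_sum, ← a4, ← a7]
    rw [Finset.sum_congr rfl fun i _ => (a3 i).symm]
    ring
  rw [hsumx]
  -- the label of the second sample
  have b1 : Ex Q U1 = Ex F.p (fun ω =>
      L.pot J (w + ℓ) (F.l ω) (F.T ω / 2 ^ (J - (w + ℓ))) (b ω) + pn (F.Z ω) (b ω)) :=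
    hsnd.Ex_eq (fun ω => L.pot J (w + ℓ) (F.l ω) (F.T ω / 2 ^ (J - (w + ℓ))) (b ω) +
      pn (F.Z ω) (b ω))
  have b2 : CH Q B1 (fun e => (F.Z e.2, S e)) ≤
      CH F.p (fun ω => (F.T ω / 2 ^ (J - (w + ℓ)), b ω)) F.Z := by
    have h1 : CH Q B1 (fun e => (F.Z e.2, S e)) ≤ CH Q B1 (fun e => F.Z e.2) :=
      CH_mono_cond hPl.nonneg (fun a b _ _ h => (Prod.ext_iff.mp h).1)
    have h2 : CH Q B1 (fun e => F.Z e.2) =
        CH F.p (fun ω => (F.T ω / 2 ^ (J - (w + ℓ)), b ω)) F.Z :=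
      hsnd.CH_eq (fun ω => (F.T ω / 2 ^ (J - (w + ℓ)), b ω)) F.Z
    linarith
  -- the times
  have c1 : ∀ i, Ex Q (fi i) = Ex F.p
      (fun ω => f (y (sh + i) ω) (F.T ω / 2 ^ (K * (sh + i)) % 2 ^ K)) :=
    fun i => hsnd.Ex_eq (fun ω => f (y (sh + i) ω) (F.T ω / 2 ^ (K * (sh + i)) % 2 ^ K))
  set M : F.Ω → ℕ := fun ω => F.T ω / 2 ^ (K * sh) % 2 ^ (K * N) with hM
  set base : F.Ω → (Ln m × F.ζ) × ℕ := fun ω => ((F.l ω, F.Z ω), F.T ω / 2 ^ (K * (sh + N)))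
    with hbase
  have c2 : CH Q M1 (fun e => e.1) = CH F.p M g' := P2_CH F.isLaw g' M
  have c3 : CH Q M1 (fun e => e.1) ≤ CH Q S (fun e => e.1) +
      CH Q M1 (fun e => (S e, e.1)) := CH_le_add hPl.nonneg M1 S (fun e => e.1)
  have c4 : CH Q M1 (fun e => (S e, e.1)) = CH Q M1 (fun e => (e.1, S e)) := by
    refine CH_congr hPl.nonneg ?_ ?_ ?_ ?_
    · intro a b _ _ hab
      exact (Prod.ext_iff.mp hab).1
    · intro a b _ _ hab
      exact (Prod.ext_iff.mp hab).1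
    · intro a b _ _ hh
      exact Prod.ext (Prod.ext_iff.mp hh).2 (Prod.ext_iff.mp hh).1
    · intro a b _ _ hh
      exact Prod.ext (Prod.ext_iff.mp hh).2 (Prod.ext_iff.mp hh).1
  have c5 : CH F.p M base ≤ CH F.p (fun ω => G.ty J w ℓ (c (F.Z ω)) k a (b ω)) base +
      CH F.p M (fun ω => (G.ty J w ℓ (c (F.Z ω)) k a (b ω), base ω)) :=
    CH_le_add F.isLaw.nonneg M _ base
  have c6 : CH F.p M (fun ω => (G.ty J w ℓ (c (F.Z ω)) k a (b ω), base ω)) = CH F.p M g' := by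
    refine CH_congr F.isLaw.nonneg ?_ ?_ ?_ ?_
    · intro a b _ _ hab
      exact (Prod.ext_iff.mp hab).1
    · intro a b _ _ hab
      exact (Prod.ext_iff.mp hab).1
    · intro a b _ _ hh
      simp only [hg', GS.gg, hbase, hJw, Prod.mk.injEq] at hh ⊢
      tauto
    · intro a b _ _ hh
      simp only [hg', GS.gg, hbase, hJw, Prod.mk.injEq] at hh ⊢
      tauto
  -- the codes
  set lM := Ex F.p (fun ω => cl ℓ k a (c (F.Z ω)) (b ω)) with hlM
  have hcS : CH Q S (fun e => F.Z e.2) ≤ lM := by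
    have h0 : Ex Q (fun e => cl ℓ k a (c (F.Z e.2)) (b e.2)) = lM :=
      hsnd.Ex_eq (fun ω => cl ℓ k a (c (F.Z ω)) (b ω))
    rw [← h0]
    refine CH_le_kraft hPl S _ _ fun ζ₀ => ?_
    by_cases hcz : L.cw (c ζ₀) w
    swap
    · exact ⟨fun _ => 0, ⟨fun _ => le_refl _, fun F => by simp⟩, fun e he hee => absurd
        (show L.cw (c ζ₀) w by
          rw [← show F.Z e.2 = ζ₀ from hee]
          exact hc _ (hpos e he).2.1) hcz⟩
    obtain ⟨q, h1, h2⟩ := hG.sh_code J w ℓ (c ζ₀) k a hℓ1 hwJ hcz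
    refine ⟨q, h1, fun e he hee => ?_⟩
    have h3 := h2 _ _ _ _ _ (by
      have := htwo e he
      rw [show F.Z e.2 = ζ₀ from hee] at this
      exact this)
    have h4 : S e = G.sh J w ℓ (c ζ₀) k a (F.T e.1 / 2 ^ (J - (w + ℓ)))
      (F.T e.2 / 2 ^ (J - (w + ℓ))) (b e.1) (b e.2) := by
      rw [← show F.Z e.2 = ζ₀ from hee]
      rfl
    rw [h4]
    rw [show F.Z e.2 = ζ₀ from hee]
    exact ⟨h3.1, h3.2.2⟩
  have hcS1 : CH Q S (fun e => e.1) ≤ lM := by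
    have h0 : Ex Q (fun e => cl ℓ k a (c (F.Z e.1)) (b e.1)) = lM :=
      hfst.Ex_eq (fun ω => cl ℓ k a (c (F.Z ω)) (b ω))
    rw [← h0]
    refine CH_le_kraft hPl S _ _ fun ω₀ => ?_
    by_cases hcz : L.cw (c (F.Z ω₀)) w
    swap
    · exact ⟨fun _ => 0, ⟨fun _ => le_refl _, fun F => by simp⟩, fun e he hee => absurd
        (show L.cw (c (F.Z ω₀)) w by
          rw [← show e.1 = ω₀ from hee]
          exact hc _ (hpos e he).1) hcz⟩
    obtain ⟨q, h1, h2⟩ := hG.sh_code J w ℓ (c (F.Z ω₀)) k a hℓ1 hwJ hcz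
    refine ⟨q, h1, fun e he hee => ?_⟩
    have hZ : F.Z e.2 = F.Z ω₀ := by
      rw [← (hline e he).2.1, show e.1 = ω₀ from hee]
    have h3 := h2 _ _ _ _ _ (by
      have := htwo e he
      rw [hZ] at this
      exact this)
    have h4 : S e = G.sh J w ℓ (c (F.Z ω₀)) k a (F.T e.1 / 2 ^ (J - (w + ℓ)))
      (F.T e.2 / 2 ^ (J - (w + ℓ))) (b e.1) (b e.2) := by
      rw [← hZ]
      rfl
    have h6 : F.Z e.1 = F.Z ω₀ := by rw [show e.1 = ω₀ from hee]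
    rw [h4, h6]
    exact ⟨h3.1, h3.2.1⟩
  have hct : CH F.p (fun ω => G.ty J w ℓ (c (F.Z ω)) k a (b ω)) base ≤ lM := by
    refine CH_le_kraft F.isLaw _ _ _ ?_
    rintro ⟨⟨l₀, ζ₀⟩, t₀⟩
    by_cases hcz : L.cw (c ζ₀) w
    swap
    · refine ⟨fun _ => 0, ⟨fun _ => le_refl _, fun F => by simp⟩, fun ω hω hee => absurd ?_ hcz⟩
      simp only [hbase, Prod.mk.injEq] at hee
      rw [← hee.1.2]
      exact hc ω hω
    obtain ⟨q, h1, h2⟩ := hG.ty_code J w ℓ (c ζ₀) k a hℓ1 hwJ hcz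
    refine ⟨q, h1, fun ω hω hee => ?_⟩
    simp only [hbase, Prod.mk.injEq] at hee
    have h3 := hb ω hω
    rw [hee.1.2] at h3 ⊢
    exact h2 _ _ _ h3
  have d3 : CH F.p M base - 2 * lM ≤ CH Q M1 (fun e => (e.1, S e)) := by
    rw [← c4]
    linarith
  have d4 : Λ * (CH F.p M base - 2 * lM) ≤ Λ * CH Q M1 (fun e => (e.1, S e)) :=
    mul_le_mul_of_nonneg_left d3 hΛ.le
  have hcst : co f Λ K N sh F y = ∑ i ∈ range N, Ex Q (fi i) - Λ * CH F.p M base := by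
    unfold co
    rw [Finset.sum_congr rfl fun i _ => c1 i]
  have hPsi : L.Psi F pn (w + ℓ) b = ((w + ℓ : ℕ) + m * J) * Real.log 2 - Ex Q U1 -
      CH F.p (fun ω => (F.T ω / 2 ^ (J - (w + ℓ)), b ω)) F.Z := by
    rw [b1]
    rfl
  rw [hcst, hPsi]
  have d7 : (1 + 2 * Λ) * lM = lM + Λ * (2 * lM) := by ring
  rw [d7]
  linarith

end Pool.KNH
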