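import Pool.Agent.H15.KNH.Itf

/-!
# Localization for an abstract class of labels with penalties: near-optimal labels

The label is split into classes of its age; on each class it is almost optimal, so its mean range
and its mean height are bounded by the turning step.
-/

set_option autoImplicit false

namespace Pool.KNH

open Finset Real
open Pool.Agent.H49.Ent Pool.Agent.H32.Dense Pool.STK Pool.KA
open Pool.KM7 (Nng Psh P2 P2_isLaw P2_fst P2_snd P2_pos avg_Ex avg_CH cond_isLaw)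
open Pool.KN (co Adm)

variable {m : ℕ}

/-! ### Classes of the age -/

theorem cls_le {l n : ℕ} (hl : 1 ≤ l) :
    (2 : ℝ) ^ Nat.log 2 ((l + n) / l) * l ≤ (l : ℝ) + n ∧
      (l : ℝ) + n ≤ 2 * ((2 : ℝ) ^ Nat.log 2 ((l + n) / l) * l) := by
  have h0 : (l + n) / l ≠ 0 := by
    have : 1 ≤ (l + n) / l := by
      rw [Nat.le_div_iff_mul_le (by omega)]
      omega
    omega
  have h1 := Nat.pow_log_le_self 2 h0
  have h2 := Nat.lt_pow_succ_log_self (b := 2) (by norm_num) ((l + n) / l)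
  rw [Nat.le_div_iff_mul_le (by omega)] at h1
  rw [Nat.div_lt_iff_lt_mul (by omega), pow_succ] at h2
  constructor
  · exact_mod_cast h1
  · have h3 : (((l + n : ℕ) : ℕ) : ℝ) ≤ ((2 ^ Nat.log 2 ((l + n) / l) * 2 * l : ℕ) : ℝ) := by
      exact_mod_cast h2.le
    push_cast at h3
    linarith

theorem half_sum (n : ℕ) : ∑ j ∈ range n, (1 / 2 : ℝ) ^ (j + 1) = 1 - (1 / 2) ^ n := by
  induction n with
  | zero => simp
  | succ n ih =>
    rw [Finset.sum_range_succ, ih, pow_succ]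
    ring

/-- The code of the classes. -/
theorem cls_code (l ka : ℕ) (hl : 1 ≤ l) : ∃ q : ℕ → ℝ, Kraft q ∧ ∀ n ≤ ka,
    0 < q (Nat.log 2 ((l + n) / l)) ∧ -Real.log (q (Nat.log 2 ((l + n) / l))) ≤
      3 * Real.log (2 + (ka : ℝ) / (l + n)) := by
  obtain ⟨I, hI⟩ : ∃ I, I = Nat.log 2 ((l + ka) / l) := ⟨_, rfl⟩
  refine ⟨fun i => if i ≤ I then (1 / 2 : ℝ) ^ (I - i + 1) else 0, ⟨?_, ?_⟩, ?_⟩
  · intro i
    split_ifs <;> positivity
  · intro F
    rw [← Finset.sum_filter]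
    have h1 : ∑ i ∈ F with i ≤ I, (1 / 2 : ℝ) ^ (I - i + 1) ≤
        ∑ i ∈ range (I + 1), (1 / 2 : ℝ) ^ (I - i + 1) := by
      refine Finset.sum_le_sum_of_subset_of_nonneg ?_ fun i _ _ => by positivity
      intro i hi
      exact Finset.mem_range.mpr (Nat.lt_succ_of_le (Finset.mem_filter.mp hi).2)
    have h2 : ∑ i ∈ range (I + 1), (1 / 2 : ℝ) ^ (I - i + 1) =
        ∑ j ∈ range (I + 1), (1 / 2 : ℝ) ^ (j + 1) := by
      have h3 := Finset.sum_range_reflect (fun j => (1 / 2 : ℝ) ^ (j + 1)) (I + 1)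
      rw [← h3]
      exact Finset.sum_congr rfl fun i _ => by congr 2
    rw [h2, half_sum] at h1
    have h4 : (0 : ℝ) ≤ (1 / 2) ^ (I + 1) := by positivity
    linarith
  · intro n hn
    obtain ⟨s, hs⟩ : ∃ s, s = Nat.log 2 ((l + n) / l) := ⟨_, rfl⟩
    rw [← hs]
    have hsI : s ≤ I := by
      rw [hs, hI]
      exact Nat.log_mono_right (Nat.div_le_div_right (by omega))
    simp only [if_pos hsI]
    refine ⟨by positivity, ?_⟩
    have hl2 : 0 < Real.log 2 := Real.log_pos (by norm_num)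
    have hlr : (1 : ℝ) ≤ l := by exact_mod_cast hl
    obtain ⟨a1, a2⟩ := cls_le (n := n) hl
    obtain ⟨b1, b2⟩ := cls_le (n := ka) hl
    rw [← hs] at a1 a2
    rw [← hI] at b1 b2
    have hn0 : (0 : ℝ) ≤ n := Nat.cast_nonneg n
    have hk0 : (0 : ℝ) ≤ ka := Nat.cast_nonneg ka
    have e1 : (2 : ℝ) ^ (I - s + 1) ≤ 4 * (2 + ka / (l + n)) := by
      have e2 : (2 : ℝ) ^ (I - s + 1) * (2 ^ s * l) = 2 * (2 ^ I * l) := by
        have e3 : I - s + 1 + s = I + 1 := by omega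
        have e4 : (2 : ℝ) ^ (I - s + 1) * 2 ^ s = 2 * 2 ^ I := by
          rw [← pow_add, e3, pow_succ]
          ring
        calc (2 : ℝ) ^ (I - s + 1) * (2 ^ s * l) = ((2 : ℝ) ^ (I - s + 1) * 2 ^ s) * l := by ring
          _ = _ := by rw [e4]; ring
      have e5 : (2 : ℝ) ^ (I - s + 1) * ((l : ℝ) + n) ≤ 4 * (l + ka) := by
        have h1 := mul_le_mul_of_nonneg_left a2 (show (0 : ℝ) ≤ (2 : ℝ) ^ (I - s + 1) by positivity)
        have h2 : (2 : ℝ) ^ (I - s + 1) * (2 * (2 ^ s * l)) = 2 * (2 * (2 ^ I * l)) := by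
          rw [← e2]
          ring
        rw [h2] at h1
        linarith
      have hln : (0 : ℝ) < (l : ℝ) + n := by linarith
      have e6 : 4 * (2 + (ka : ℝ) / (l + n)) * (l + n) = 8 * (l + n) + 4 * ka := by
        field_simp
        ring
      by_contra hcon
      push Not at hcon
      have h3 := mul_lt_mul_of_pos_right hcon hln
      rw [e6] at h3
      linarith
    have e7 : -Real.log ((1 / 2 : ℝ) ^ (I - s + 1)) = Real.log ((2 : ℝ) ^ (I - s + 1)) := by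
      rw [one_div, inv_pow, Real.log_inv, neg_neg]
    rw [e7]
    have e8 : 0 ≤ (ka : ℝ) / (l + n) := by positivity
    have e9 : Real.log ((2 : ℝ) ^ (I - s + 1)) ≤ Real.log (4 * (2 + ka / (l + n))) :=
      Real.log_le_log (by positivity) e1
    rw [Real.log_mul (by norm_num) (by positivity)] at e9
    have e10 : Real.log 4 = 2 * Real.log 2 := by
      rw [show (4 : ℝ) = 2 ^ 2 by norm_num, Real.log_pow]
      norm_num
    have e11 : Real.log 2 ≤ Real.log (2 + (ka : ℝ) / (l + n)) :=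
      Real.log_le_log (by norm_num) (by linarith)
    linarith

/-- Tangent line of the logarithm. -/
theorem log_tan {x z : ℝ} (hx : 0 < x) (hz : 0 < z) : Real.log x ≤ Real.log z + (x - z) / z := by
  have h := Real.log_le_sub_one_of_pos (div_pos hx hz)
  rw [Real.log_div hx.ne' hz.ne'] at h
  have e : (x - z) / z = x / z - 1 := by
    field_simp
  linarith

theorem mem_image_of_law {Ω : Type} [Fintype Ω] {p : Ω → ℝ} {σ : Type} [DecidableEq σ]
    (S : Ω → σ) {s : σ} (hs : law p S s ≠ 0) : s ∈ univ.image S := by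
  classical
  by_contra hcon
  refine hs ?_
  unfold law
  refine Finset.sum_eq_zero fun ω _ => ?_
  rw [if_neg]
  intro h
  exact hcon (Finset.mem_image.2 ⟨ω, Finset.mem_univ _, h⟩)

theorem geo_sum_le (l : ℕ) (F : Finset ℕ) :
    ∑ s ∈ F, 1 / ((2 : ℝ) ^ s * l) ≤ 2 / l := by
  have hlr : (0 : ℝ) ≤ l := Nat.cast_nonneg l
  obtain ⟨n, hn⟩ : ∃ n, F ⊆ range n := by
    refine ⟨F.sup id + 1, fun i hi => Finset.mem_range.mpr ?_⟩
    have : i ≤ F.sup id := Finset.le_sup (f := id) hi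
    omega
  calc ∑ s ∈ F, 1 / ((2 : ℝ) ^ s * l) = ∑ s ∈ F, 2 / l * (1 / 2 : ℝ) ^ (s + 1) := by
        refine Finset.sum_congr rfl fun s _ => ?_
        rw [pow_succ, one_div_pow, one_div, mul_inv]
        ring
    _ ≤ ∑ s ∈ range n, 2 / l * (1 / 2 : ℝ) ^ (s + 1) :=
        Finset.sum_le_sum_of_subset_of_nonneg hn fun _ _ _ => by positivity
    _ = 2 / l * (1 - (1 / 2) ^ n) := by rw [← Finset.mul_sum, half_sum]
    _ ≤ 2 / l := by
        have h1 : (0 : ℝ) ≤ (1 / 2) ^ n := by positivity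
        have h2 : (0 : ℝ) ≤ 2 / l := by positivity
        nlinarith


theorem LB.cod_nonneg (L : LB m) {J : ℕ} (F : Fam m J) {l : ℕ} (hl : 1 ≤ l) (c : F.ζ → L.Cx)
    (k : ℕ) (b : F.Ω → L.V) : 0 ≤ L.cod F l c k b := by
  have hlr : (1 : ℝ) ≤ l := by exact_mod_cast hl
  exact Finset.sum_nonneg fun ω _ => mul_nonneg (F.isLaw.nonneg ω) (L.lgv_nonneg hlr _ _ _)

variable {L : LB m} {G : GS L.Cx L.V} {C A ρ σm κ ς₀ : ℝ} {g l₀ : ℕ} {Y : Type} {f : Y → ℕ → ℝ}
  {Λ : ℝ} {K N : ℕ} {Pn : (L.V → ℝ) → Prop}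

/-- The code of the classes of the age. -/
theorem cls_CH (hG : L.Geo G C g) {J w l : ℕ} (hl : 1 ≤ l) {F : Fam m J} {c : F.ζ → L.Cx}
    (hc : ∀ ω, 0 < F.p ω → L.cw (c (F.Z ω)) (w + l)) {k a : ℕ} {b : F.Ω → L.V}
    (hb : L.Ok F (w + l) c k a b) {T : Type} (W : F.Ω → T) :
    CH F.p (fun ω => Nat.log 2 ((l + L.age (b ω)) / l)) W ≤ 3 * L.cod F l c k b := by
  obtain ⟨q, hq, hq2⟩ := cls_code l k hl
  have h1 := CH_le_kraft F.isLaw (fun ω => Nat.log 2 ((l + L.age (b ω)) / l)) W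
    (fun ω => 3 * L.lgv l k (c (F.Z ω)) (b ω)) (fun _ => ⟨q, hq, fun ω hω _ => by
      have h2 := hq2 (L.age (b ω)) (hG.geo.age_le _ _ _ _ _ _ _ _ (hc ω hω) (hb ω hω))
      refine ⟨h2.1, h2.2.trans ?_⟩
      have hlr : (1 : ℝ) ≤ l := by exact_mod_cast hl
      have h3 : (0 : ℝ) ≤ L.age (b ω) := Nat.cast_nonneg _
      have h4 : (0 : ℝ) ≤ L.hx (c (F.Z ω)) (b ω) := Nat.cast_nonneg _
      have h5 : (0 : ℝ) ≤ k := Nat.cast_nonneg _
      have h6 : (k : ℝ) / (l + L.age (b ω)) ≤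
          ((k : ℝ) + L.hx (c (F.Z ω)) (b ω)) / (l + L.age (b ω)) :=
        div_le_div_of_nonneg_right (by linarith) (by linarith)
      have h7 : 0 ≤ (k : ℝ) / (l + L.age (b ω)) := div_nonneg h5 (by linarith)
      have h8 := Real.log_le_log (show 0 < 2 + (k : ℝ) / (l + L.age (b ω)) by linarith)
        (show 2 + (k : ℝ) / (l + L.age (b ω)) ≤
          2 + ((k : ℝ) + L.hx (c (F.Z ω)) (b ω)) / (l + L.age (b ω)) by linarith)
      unfold LB.lgv
      linarith⟩)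
  rw [Ex_cmul] at h1
  exact h1

/-- The two samples of a pair have labels of the same type in the same window. -/
theorem two_of_P2 {LA₀ : LA m} {G : GS LA₀.Cx LA₀.V} {J w l : ℕ} (hwJ : w + l ≤ J) (F : Fam m J)
    {c : F.ζ → LA₀.Cx} (hc : ∀ ω, 0 < F.p ω → LA₀.cw (c (F.Z ω)) w) {k a : ℕ} {b : F.Ω → LA₀.V}
    (hb : LA₀.Ok F (w + l) c k a b) {e : F.Ω × F.Ω}
    (he : 0 < P2 F.p (G.gg F w l c k a b) e) :
    G.Two J w l (c (F.Z e.2)) k a (F.l e.2) (F.T e.1 / 2 ^ (J - (w + l)))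
      (F.T e.2 / 2 ^ (J - (w + l))) (b e.1) (b e.2) := by
  obtain ⟨h1, h2, h3⟩ := (P2_pos F.isLaw e).mp he
  simp only [GS.gg, Prod.mk.injEq] at h3
  obtain ⟨⟨⟨i1, i2⟩, i3⟩, i4⟩ := h3
  have htt : ∀ ω, F.T ω / 2 ^ (J - (w + l)) / 2 ^ l = F.T ω / 2 ^ (J - w) := by
    intro ω
    rw [Nat.div_div_eq_div_mul, ← pow_add]
    congr 2
    omega
  refine ⟨hc _ h2, ?_, hb e.2 h2, ?_, ?_⟩
  · have h5 := hb e.1 h1
    rw [i1, i2] at h5
    exact h5
  · rw [htt, htt, i3]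
  · rw [← i4, i2]

/-- **One family with an almost optimal label which is not deep.** -/
theorem loc_one (hG : L.Geo G C g) (hT : L.Turn G A ρ C σm κ ς₀ g l₀) (hC : 0 ≤ C) (hA0 : 0 ≤ A)
    (hΛ : 0 < Λ) (hℓ1 : 1 ≤ K * N) (hℓ₀ : l₀ ≤ K * N) {G₀ : ℕ} {δ c₀ : ℝ} (hc₀ : 0 ≤ c₀)
    (hP : LCL L.toLA Pn (fun _ _ _ _ => True) (fun J _ k c v => c₀ * L.lgv (K * N : ℕ) k c v +
      (K * N : ℕ) * L.dp J v)
      f Λ K N g G₀ δ) {J sh w : ℕ} (hJ : J = w + K * N + K * sh) (F : Fam m J)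
    (c : F.ζ → L.Cx) (hc : ∀ ω, 0 < F.p ω → L.cw (c (F.Z ω)) w) (k a : ℕ) (y : ℕ → F.Ω → Y)
    (hA : Adm K (sh + N) F y) (pn : F.ζ → L.V → ℝ) (hpn : ∀ z, Pn (pn z)) (b : F.Ω → L.V)
    (hb : L.Ok F (w + K * N) c k a b) (hnd : ∀ ω, 0 < F.p ω → L.dp J (b ω) < ndc m κ)
    (pn' : F.ζ → L.V → ℝ) (hpn' : ∀ z, L.Pen σm κ ς₀ (pn' z)) {D : ℝ} (hD0 : 0 ≤ D)
    (hD : ∀ x, L.Get F (w + K * N) c k (a + g) pn' x → x ≤ L.Psi F pn' (w + K * N) b + D)
    {X : ℝ} (hX : X = L.cod F (K * N) c k b) :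
    L.Get F w c k (a + (G₀ + 2 * g)) pn (L.Psi F pn (w + K * N) b - co f Λ K N sh F y -
      δ * (K * N : ℕ) - (K * N : ℕ) * Ex F.p (fun ω => L.dp J (b ω)) -
      c₀ * Real.log (2 + (4 * A + 4 * A * D / (K * N : ℕ) +
        (2 * C + 12 * A) * X)) - C - ((1 + 2 * Λ) * C + 3 * (1 + Λ)) * X) := by
  classical
  obtain ⟨A', hA'⟩ : ∃ A', A' = 2 * A := ⟨_, rfl⟩
  have hA'0 : 0 ≤ A' := by
    rw [hA']
    positivity
  have e4 : 4 * A = 2 * A' := by
    rw [hA']
    ring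
  have e12 : 12 * A = 6 * A' := by
    rw [hA']
    ring
  rw [e4, e12]
  obtain ⟨C', hC'⟩ : ∃ C', C' = 2 * C := ⟨_, rfl⟩
  have hC'0 : 0 ≤ C' := by
    rw [hC']
    positivity
  rw [← hC']
  obtain ⟨ℓ, hℓ⟩ : ∃ ℓ, ℓ = K * N := ⟨_, rfl⟩
  rw [← hℓ] at hℓ1 hℓ₀ hb hX hD ⊢
  have hp := F.isLaw.nonneg
  have hℓr : (1 : ℝ) ≤ ℓ := by exact_mod_cast hℓ1
  have hℓ0 : (0 : ℝ) < ℓ := by linarith
  have hwJ : w + ℓ ≤ J := by omega
  have hX0 : 0 ≤ X := by
    rw [hX]
    exact L.cod_nonneg F hℓ1 c k b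
  have hcl : ∀ ω, 0 < F.p ω → L.cw (c (F.Z ω)) (w + ℓ) := fun ω hω =>
    L.cw_mono (hc ω hω) (Nat.le_add_right _ _)
  obtain ⟨S, hS⟩ : ∃ S : F.Ω → ℕ, S = fun ω => Nat.log 2 ((ℓ + L.age (b ω)) / ℓ) := ⟨_, rfl⟩
  -- the entropy of the class
  have hcs : ∀ {T : Type} (W : F.Ω → T), CH F.p S W ≤ 3 * X := by
    intro T W
    rw [hS, hX]
    exact cls_CH hG hℓ1 hcl hb W
  obtain ⟨cs, hcsd⟩ : ∃ cs, cs = CH F.p S F.Z := ⟨_, rfl⟩
  have hcs0 : 0 ≤ cs := by
    rw [hcsd]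
    exact CH_nonneg hp S F.Z
  have hcs3 : cs ≤ 3 * X := by
    rw [hcsd]
    exact hcs F.Z
  obtain ⟨R, hR⟩ : ∃ R, R = 2 * A' + 2 * A' * D / ℓ + (C' + 6 * A') * X := ⟨_, rfl⟩
  have hR0 : 0 ≤ R := by
    rw [hR]
    positivity
  obtain ⟨z, hz⟩ : ∃ z, z = 2 + R := ⟨_, rfl⟩
  have hz0 : 0 < z := by linarith
  obtain ⟨el, hel⟩ : ∃ el : ℕ → ℝ, el = fun s => Ex (cond F.p S s)
    (fun ω => L.lgv ℓ k (c (F.Z ω)) (b ω)) := ⟨_, rfl⟩
  obtain ⟨dl, hdl⟩ : ∃ dl : ℕ → ℝ, dl = fun s => Ex (cond F.p S s)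
    (fun ω => L.dp J (b ω)) := ⟨_, rfl⟩
  obtain ⟨r, hr⟩ : ∃ r : ℕ → ℝ, r = fun s => 2 * A' +
    A' * ((D + cs) / law F.p S s) / (2 ^ s * ℓ) + C' * el s := ⟨_, rfl⟩
  have hsplit := split (L := L.toLA) (f := f) (K := K) (N := N) (sh := sh) hΛ.le (F := F) (w := w)
    (w₁ := w + ℓ) (c := c) (k := k) (a := a + (G₀ + 2 * g)) (pn := pn) (pn₁ := pn) S y b
    (fun s => δ * ℓ + ℓ * dl s + c₀ * (Real.log z + (2 + r s - z) / z) + C +
      (1 + 2 * Λ) * (C * el s)) (by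
      intro s hs
      have hs0 : 0 < law F.p S s := lt_of_le_of_ne (law_nonneg hp _ _) (Ne.symm hs)
      have hpos : ∀ ω, 0 < cond F.p S s ω → 0 < F.p ω ∧ S ω = s := fun ω hω =>
        (cond_pos_iff hp S s ω).mp hω
      have hQl : IsLaw (cond F.p S s) := cond_isLaw hp S hs
      have hAge : ∀ ω, 0 < cond F.p S s ω → (2 : ℝ) ^ s * ℓ ≤ (ℓ : ℝ) + L.age (b ω) ∧
          (ℓ : ℝ) + L.age (b ω) ≤ 2 * ((2 : ℝ) ^ s * ℓ) := by
        intro ω hω
        have h1 := (hpos ω hω).2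
        rw [hS] at h1
        have h2 := cls_le (l := ℓ) (n := L.age (b ω)) hℓ1
        rw [show Nat.log 2 ((ℓ + L.age (b ω)) / ℓ) = s from h1] at h2
        exact h2
      have hbS : L.Ok (F.res S s (cond_isLaw F.isLaw.nonneg S hs)) (w + ℓ) c k a b :=
        fun ω hω => hb ω (hpos ω hω).1
      have hcS : ∀ ω, 0 < (F.res S s (cond_isLaw F.isLaw.nonneg S hs)).p ω →
          L.cw (c ((F.res S s (cond_isLaw F.isLaw.nonneg S hs)).Z ω)) w :=
        fun ω hω => hc ω (hpos ω hω).1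
      have hAS : Adm K (sh + N) (F.res S s (cond_isLaw F.isLaw.nonneg S hs)) y :=
        fun i hi ω ω' hω hω' h => hA i hi ω ω' (hpos ω hω).1 (hpos ω' hω').1 h
      have hndS : ∀ ω, 0 < (F.res S s (cond_isLaw F.isLaw.nonneg S hs)).p ω →
          L.dp J (b ω) < ndc m κ := fun ω hω => hnd ω (hpos ω hω).1
      have hnear := near_res S (Nat.le_add_right a g) hb hD s hs
      rw [← hcsd] at hnear
      have hDs : 0 ≤ (D + cs) / law F.p S s := by positivity
      obtain ⟨t1, -⟩ := hT J w ℓ hℓ1 hℓ₀ hwJ (F.res S s (cond_isLaw F.isLaw.nonneg S hs)) c hcS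
        pn' hpn' k a b hbS hndS _ hDs hnear
      have h1 := loc_self hG.geo hC hΛ (by rw [← hℓ]; exact hℓ1) hP hJ
        (F.res S s (cond_isLaw F.isLaw.nonneg S hs)) c hcS k a y hAS b (fun _ _ => trivial) pn hpn
        (by rw [← hℓ]; exact hbS)
      rw [← hℓ] at h1
      refine h1.mono_x (le_refl _) ?_
      obtain ⟨Q, hQ⟩ : ∃ Q, Q = P2 (cond F.p S s)
        (G.gg (F.res S s (cond_isLaw F.isLaw.nonneg S hs)) w ℓ c k a b) := ⟨_, rfl⟩
      have hQ1 : IsLaw Q := by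
        rw [hQ]
        exact P2_isLaw hQl _
      have hQpos : ∀ e, 0 < Q e → 0 < cond F.p S s e.2 := fun e he => by
        rw [hQ] at he
        exact ((P2_pos hQl e).mp he).2.1
      obtain ⟨rg, hrg⟩ : ∃ rg : F.Ω × F.Ω → ℝ, rg = fun e =>
        (G.rg (G.SS (F.res S s (cond_isLaw F.isLaw.nonneg S hs)) w ℓ c k a b e) : ℝ) := ⟨_, rfl⟩
      have hrg0 : ∀ e, 0 ≤ rg e := fun e => by
        rw [hrg]
        exact Nat.cast_nonneg _
      have t1' : Ex Q rg ≤ A * ((D + cs) / law F.p S s + 2 * (2 ^ s * ℓ)) + C * el s := by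
        have t2 : Ex (cond F.p S s) (fun ω => (ℓ : ℝ) + L.age (b ω)) ≤ 2 * (2 ^ s * ℓ) := by
          have t3 := Ex_mono hQl.nonneg (f := fun ω => (ℓ : ℝ) + L.age (b ω))
            (h := fun _ => 2 * ((2 : ℝ) ^ s * ℓ)) (fun ω hω => (hAge ω hω).2)
          rwa [Ex_const hQl.sum_one] at t3
        have t4 : Ex Q rg ≤ A * ((D + cs) / law F.p S s +
            Ex (cond F.p S s) (fun ω => (ℓ : ℝ) + L.age (b ω))) + C * el s := by
          rw [hQ, hrg, hel]
          exact t1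
        have t5 := mul_le_mul_of_nonneg_left t2 hA0
        rw [mul_add A] at t4 ⊢
        linarith
      have h2s : (1 : ℝ) ≤ 2 ^ s * ℓ := by
        have : (1 : ℝ) ≤ 2 ^ s := one_le_pow₀ (by norm_num)
        nlinarith
      have h2s0 : (0 : ℝ) < 2 ^ s * ℓ := by linarith
      -- the loss of the local problems
      have t6 : Ex Q (fun e => c₀ * Real.log (2 + 2 * rg e / ((ℓ : ℝ) + L.age (b e.2)))) ≤
          c₀ * (Real.log z + (2 + r s - z) / z) := by
        rw [Ex_cmul]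
        refine mul_le_mul_of_nonneg_left ?_ hc₀
        have t7 : Ex Q (fun e => Real.log (2 + 2 * rg e / ((ℓ : ℝ) + L.age (b e.2)))) ≤
            Ex Q (fun e => 2 / (2 ^ s * ℓ * z) * rg e +
              (Real.log z + (2 - z) / z)) := by
          refine Ex_mono hQ1.nonneg fun e he => ?_
          have hh := hAge e.2 (hQpos e he)
          have hr0 := hrg0 e
          have t8 : 2 * rg e / ((ℓ : ℝ) + L.age (b e.2)) ≤ 2 * rg e / (2 ^ s * ℓ) :=
            div_le_div_of_nonneg_left (by linarith) h2s0 hh.1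
          have t9 : 0 ≤ 2 * rg e / ((ℓ : ℝ) + L.age (b e.2)) :=
            div_nonneg (by linarith) (by linarith)
          have t10 := log_tan (x := 2 + 2 * rg e / ((ℓ : ℝ) + L.age (b e.2))) (by linarith) hz0
          have t11 : (2 + 2 * rg e / ((ℓ : ℝ) + L.age (b e.2)) - z) / z ≤
              (2 + 2 * rg e / (2 ^ s * ℓ) - z) / z :=
            div_le_div_of_nonneg_right (by linarith) hz0.le
          have t12 : (2 + 2 * rg e / (2 ^ s * ℓ) - z) / z =
              2 / (2 ^ s * ℓ * z) * rg e + (2 - z) / z := by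
            field_simp
            ring
          linarith
        rw [Ex_add_const hQ1, Ex_cmul] at t7
        have t13 : 2 / (2 ^ s * ℓ * z) * Ex Q rg ≤ 2 / (2 ^ s * ℓ * z) *
            (A * ((D + cs) / law F.p S s + 2 * (2 ^ s * ℓ)) + C * el s) :=
          mul_le_mul_of_nonneg_left t1' (by positivity)
        have t14 : 2 / (2 ^ s * ℓ * z) *
            (A * ((D + cs) / law F.p S s + 2 * (2 ^ s * ℓ)) + C * el s) =
            (A' * ((D + cs) / law F.p S s) / (2 ^ s * ℓ) + 2 * A' +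
              C' * el s / (2 ^ s * ℓ)) / z := by
          rw [hA', hC']
          field_simp
        have hel0 : 0 ≤ el s := by
          rw [hel]
          exact Finset.sum_nonneg fun ω _ => mul_nonneg (hQl.nonneg ω) (L.lgv_nonneg hℓr _ _ _)
        have t15 : C' * el s / (2 ^ s * ℓ) ≤ C' * el s := div_le_self (by positivity) h2s
        have t17 : (A' * ((D + cs) / law F.p S s) / (2 ^ s * ℓ) + 2 * A' +
            C' * el s / (2 ^ s * ℓ)) / z + (2 - z) / z ≤ (2 + r s - z) / z := by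
          rw [← add_div]
          refine div_le_div_of_nonneg_right ?_ hz0.le
          rw [hr]
          linarith
        linarith
      have t18 : Ex (F.res S s (cond_isLaw F.isLaw.nonneg S hs)).p
          (fun ω => C * L.lgv ℓ k (c ((F.res S s (cond_isLaw F.isLaw.nonneg S hs)).Z ω)) (b ω)) =
          C * el s := by
        rw [Ex_cmul, hel]
        rfl
      have t19 : Ex (P2 (F.res S s (cond_isLaw F.isLaw.nonneg S hs)).p
          (G.gg (F.res S s (cond_isLaw F.isLaw.nonneg S hs)) w ℓ c k a b)) (fun e =>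
          c₀ * L.lgv (ℓ : ℕ) (G.rg (G.SS (F.res S s (cond_isLaw F.isLaw.nonneg S hs)) w ℓ c k a b e))
            (G.CC (F.res S s (cond_isLaw F.isLaw.nonneg S hs)) w ℓ c k a b e) (b e.2) +
            (ℓ : ℕ) * L.dp J (b e.2)) ≤
          Ex Q (fun e => c₀ * Real.log (2 + 2 * rg e / ((ℓ : ℝ) + L.age (b e.2)))) +
            ℓ * dl s := by
        rw [Ex_add, Ex_cmul _ (ℓ : ℝ)]
        have t20 : Ex (P2 (F.res S s (cond_isLaw F.isLaw.nonneg S hs)).p
          (G.gg (F.res S s (cond_isLaw F.isLaw.nonneg S hs)) w ℓ c k a b))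
            (fun e => L.dp J (b e.2)) = dl s := by
          rw [hdl]
          exact (P2_snd hQl (G.gg (F.res S s (cond_isLaw F.isLaw.nonneg S hs)) w ℓ c k a b)).Ex_eq
            (fun ω => L.dp J (b ω))
        rw [t20]
        refine add_le_add ?_ le_rfl
        rw [hQ]
        refine Ex_mono (P2_isLaw hQl _).nonneg fun e he => ?_
        refine mul_le_mul_of_nonneg_left ?_ hc₀
        have t21 := hG.hx_le J w ℓ _ k a hℓ1 hwJ _ _ _ _ _ (two_of_P2 (LA₀ := L.toLA) hwJ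
          (F.res S s (cond_isLaw F.isLaw.nonneg S hs)) hcS hbS he)
        have t22 : (L.hx (G.CC (F.res S s (cond_isLaw F.isLaw.nonneg S hs)) w ℓ c k a b e)
          (b e.2) : ℝ) ≤ rg e := by
          rw [hrg]
          exact Nat.cast_le.mpr t21
        have t23 := L.lgv_arg hℓr
          (G.rg (G.SS (F.res S s (cond_isLaw F.isLaw.nonneg S hs)) w ℓ c k a b e))
            (G.CC (F.res S s (cond_isLaw F.isLaw.nonneg S hs)) w ℓ c k a b e) (b e.2)
        unfold LB.lgv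
        refine Real.log_le_log (by linarith) ?_
        have t24 : ((G.rg (G.SS (F.res S s (cond_isLaw F.isLaw.nonneg S hs)) w ℓ c k a b e) : ℝ) +
            L.hx (G.CC (F.res S s (cond_isLaw F.isLaw.nonneg S hs)) w ℓ c k a b e) (b e.2)) ≤
            2 * rg e := by
          rw [hrg] at t22 ⊢
          linarith
        have t25 : (0 : ℝ) ≤ L.age (b e.2) := Nat.cast_nonneg _
        have t26 := div_le_div_of_nonneg_right t24 (show (0 : ℝ) ≤ (ℓ : ℝ) + L.age (b e.2) by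
          linarith)
        linarith
      rw [t18]
      linarith)
  refine hsplit.mono_x (le_refl _) ?_
  -- the sum of the losses
  have a5 : ∑ s ∈ univ.image S, law F.p S s = 1 := (sum_law F.p S).trans F.isLaw.sum_one
  have a6 : ∑ s ∈ univ.image S, law F.p S s * el s = X := by
    rw [hX, LB.cod, avg_Ex hp S (fun ω => L.lgv ℓ k (c (F.Z ω)) (b ω)), hel]
  have a6' : ∑ s ∈ univ.image S, law F.p S s * dl s = Ex F.p (fun ω => L.dp J (b ω)) := by
    rw [avg_Ex hp S (fun ω => L.dp J (b ω)), hdl]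
  have a7 : ∑ s ∈ univ.image S, law F.p S s * r s ≤ R := by
    have b1 : ∀ s ∈ univ.image S, law F.p S s * r s ≤ law F.p S s * (2 * A') +
        A' * (D + cs) * (1 / (2 ^ s * ℓ)) + C' * (law F.p S s * el s) := by
      intro s _
      rw [hr]
      by_cases hs : law F.p S s = 0
      · rw [hs]
        have : 0 ≤ A' * (D + cs) * (1 / (2 ^ s * ℓ)) := by positivity
        linarith
      · have b2 : law F.p S s * (A' * ((D + cs) / law F.p S s) / (2 ^ s * ℓ)) =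
            A' * (D + cs) * (1 / (2 ^ s * ℓ)) := by
          field_simp
        have b3 : law F.p S s * (2 * A' + A' * ((D + cs) / law F.p S s) / (2 ^ s * ℓ) +
            C' * el s) = law F.p S s * (2 * A') +
            law F.p S s * (A' * ((D + cs) / law F.p S s) / (2 ^ s * ℓ)) +
            C' * (law F.p S s * el s) := by ring
        rw [b3, b2]
    refine (Finset.sum_le_sum b1).trans ?_
    rw [Finset.sum_add_distrib, Finset.sum_add_distrib, ← Finset.sum_mul, ← Finset.mul_sum,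
      ← Finset.mul_sum, a5, a6, one_mul]
    have b4 := mul_le_mul_of_nonneg_left (geo_sum_le ℓ (univ.image S))
      (show 0 ≤ A' * (D + cs) by positivity)
    have b5 : A' * (D + cs) * (2 / ℓ) = 2 * A' * D / ℓ + 2 * A' * (cs / ℓ) := by
      field_simp
    have b6 : cs / ℓ ≤ 3 * X := (div_le_self hcs0 hℓr).trans hcs3
    have b7 := mul_le_mul_of_nonneg_left b6 (show 0 ≤ 2 * A' by positivity)
    rw [hR]
    linarith
  have a8 : ∑ s ∈ univ.image S, law F.p S s * (δ * ℓ + ℓ * dl s +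
      c₀ * (Real.log z + (2 + r s - z) / z) +
      C + (1 + 2 * Λ) * (C * el s)) = δ * ℓ + ℓ * Ex F.p (fun ω => L.dp J (b ω)) +
      c₀ * (Real.log z +
      (2 + ∑ s ∈ univ.image S, law F.p S s * r s - z) / z) + C + (1 + 2 * Λ) * (C * X) := by
    have b1 : ∀ s, law F.p S s * (δ * ℓ + ℓ * dl s + c₀ * (Real.log z + (2 + r s - z) / z) +
        C + (1 + 2 * Λ) * (C * el s)) = law F.p S s * (δ * ℓ + c₀ * Real.log z +
        c₀ * ((2 - z) / z) + C) + ℓ * (law F.p S s * dl s) + c₀ / z * (law F.p S s * r s) +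
        (1 + 2 * Λ) * C * (law F.p S s * el s) := by
      intro s
      field_simp
      ring
    rw [Finset.sum_congr rfl fun s _ => b1 s, Finset.sum_add_distrib, Finset.sum_add_distrib,
      Finset.sum_add_distrib,
      ← Finset.sum_mul, ← Finset.mul_sum, ← Finset.mul_sum, ← Finset.mul_sum, a5, a6, a6']
    field_simp
    ring
  rw [a8]
  have a9 : (2 + ∑ s ∈ univ.image S, law F.p S s * r s - z) / z ≤ 0 := by
    refine div_nonpos_of_nonpos_of_nonneg ?_ hz0.le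
    rw [hz]
    linarith
  have a10 : c₀ * (Real.log z + (2 + ∑ s ∈ univ.image S, law F.p S s * r s - z) / z) ≤
      c₀ * Real.log z := mul_le_mul_of_nonneg_left (by linarith) hc₀
  have a11 := hcs F.Z
  have a12 := mul_le_mul_of_nonneg_left
    (hcs (fun ω => ((F.l ω, F.Z ω), F.T ω / 2 ^ (K * (sh + N))))) hΛ.le
  rw [← hR, ← hz]
  have a13 : ((1 + 2 * Λ) * C + 3 * (1 + Λ)) * X = (1 + 2 * Λ) * (C * X) + 3 * X + Λ * (3 * X) := by
    ring
  rw [a13]
  linarith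

theorem neg_mul_log_le {p : ℝ} (hp : 0 < p) (hp1 : p ≤ 1) {u : ℝ} (hu : 2 ≤ u) :
    p * Real.log (u / p) ≤ Real.log u + 1 := by
  rw [Real.log_div (by linarith) hp.ne']
  have h1 : 0 ≤ Real.log u := Real.log_nonneg (by linarith)
  have h2 : -Real.log p ≤ 1 / p - 1 := by
    have := Real.log_le_sub_one_of_pos (show 0 < 1 / p by positivity)
    rw [Real.log_div one_ne_zero hp.ne', Real.log_one, zero_sub] at this
    exact this
  have h3 := mul_le_mul_of_nonneg_left h2 hp.le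
  have h4 : p * (1 / p - 1) = 1 - p := by field_simp
  nlinarith [mul_le_mul_of_nonneg_right hp1 h1]

theorem CH_bool {Ω : Type} [Fintype Ω] {p : Ω → ℝ} (hp : IsLaw p) (S : Ω → Bool) {T : Type}
    (W : Ω → T) : CH p S W ≤ Real.log 2 := by
  refine (CH_le_card hp.nonneg hp.sum_one S W (fun _ => Finset.univ)
    (fun ω _ => Finset.mem_univ _)).trans ?_
  rw [Ex_const hp.sum_one, Finset.card_univ, Fintype.card_bool]
  push_cast
  exact le_refl _

/-- **One family with an almost optimal label.** -/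
theorem loc_two (hG : L.Geo G C g) (hT : L.Turn G A ρ C σm κ ς₀ g l₀) (hC : 0 ≤ C) (hA0 : 0 ≤ A)
    (hκ : 0 ≤ κ) (hΛ : 0 < Λ) (hf : Nng f Λ K) (hℓ1 : 1 ≤ K * N) (hℓ₀ : l₀ ≤ K * N) {G₀ : ℕ} {δ c₀ : ℝ}
    (hδ : 0 ≤ δ) (hc₀ : 0 ≤ c₀)
    (hP : LCL L.toLA Pn (fun _ _ _ _ => True) (fun J _ k c v => c₀ * L.lgv (K * N : ℕ) k c v +
      (K * N : ℕ) * L.dp J v)
      f Λ K N g G₀ δ) {J sh w : ℕ} (hJ : J = w + K * N + K * sh) (F : Fam m J)
    (c : F.ζ → L.Cx) (hc : ∀ ω, 0 < F.p ω → L.cw (c (F.Z ω)) w) (k a : ℕ) (y : ℕ → F.Ω → Y)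
    (hA : Adm K (sh + N) F y) (pn : F.ζ → L.V → ℝ) (hpn : ∀ z, Pn (pn z))
    (hpκ : ∀ (z : F.ζ) (l t : ℕ) (v : L.V), pn z (L.tr l t v) ≤ pn z v + κ * l) (b : F.Ω → L.V)
    (hb : L.Ok F (w + K * N) c k a b)
    (pn' : F.ζ → L.V → ℝ) (hpn' : ∀ z, L.Pen σm κ ς₀ (pn' z)) {D : ℝ} (hD0 : 0 ≤ D)
    (hD : ∀ x, L.Get F (w + K * N) c k (a + g) pn' x → x ≤ L.Psi F pn' (w + K * N) b + D)
    {X : ℝ} (hX : X = L.cod F (K * N) c k b) :
    L.Get F w c k (a + (G₀ + 2 * g)) pn (L.Psi F pn (w + K * N) b - co f Λ K N sh F y -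
      δ * (K * N : ℕ) - (K * N : ℕ) * Ex F.p (fun ω => L.dp J (b ω)) -
      c₀ * (Real.log (2 + (4 * A + 4 * A * (D + Real.log 2) / (K * N : ℕ) +
        (2 * C + 12 * A) * X)) + 1) - C - ((1 + 2 * Λ) * C + 3 * (1 + Λ)) * X -
        (1 + Λ) * Real.log 2) := by
  classical
  obtain ⟨ℓ, hℓ⟩ : ∃ ℓ, ℓ = K * N := ⟨_, rfl⟩
  have hp := F.isLaw.nonneg
  have hl2 : 0 < Real.log 2 := Real.log_pos (by norm_num)
  have hℓr : (1 : ℝ) ≤ ℓ := by
    rw [hℓ]
    exact_mod_cast hℓ1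
  have hℓ0 : (0 : ℝ) < ℓ := by linarith
  have hwJ : w + K * N ≤ J := by omega
  obtain ⟨S, hS⟩ : ∃ S : F.Ω → Bool, S = fun ω => decide (ndc m κ ≤ L.dp J (b ω)) := ⟨_, rfl⟩
  obtain ⟨cs, hcsd⟩ : ∃ cs, cs = CH F.p S F.Z := ⟨_, rfl⟩
  have hcs0 : 0 ≤ cs := by
    rw [hcsd]
    exact CH_nonneg hp S F.Z
  have hcs2 : cs ≤ Real.log 2 := by
    rw [hcsd]
    exact CH_bool F.isLaw S F.Z
  obtain ⟨el, hel⟩ : ∃ el : Bool → ℝ, el = fun s => Ex (cond F.p S s)
    (fun ω => L.lgv ℓ k (c (F.Z ω)) (b ω)) := ⟨_, rfl⟩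
  obtain ⟨dl, hdl⟩ : ∃ dl : Bool → ℝ, dl = fun s => Ex (cond F.p S s)
    (fun ω => L.dp J (b ω)) := ⟨_, rfl⟩
  obtain ⟨M, hM⟩ : ∃ M, M = (1 + 2 * Λ) * C + 3 * (1 + Λ) := ⟨_, rfl⟩
  have hM0 : 0 ≤ M := by
    rw [hM]
    positivity
  obtain ⟨v, hv⟩ : ∃ v : Bool → ℝ, v = fun s => c₀ * Real.log (2 + (4 * A + 4 * A *
      ((D + cs) / law F.p S s) / ℓ + (2 * C + 12 * A) * el s)) := ⟨_, rfl⟩
  have hnn : 0 ≤ ndc m κ := by
    unfold ndc
    positivity
  have hel0 : ∀ s, law F.p S s ≠ 0 → 0 ≤ el s := fun s hs => by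
    rw [hel]
    exact Finset.sum_nonneg fun ω _ => mul_nonneg ((cond_isLaw hp S hs).nonneg ω)
      (L.lgv_nonneg hℓr _ _ _)
  have hsplit := split (L := L.toLA) (f := f) (K := K) (N := N) (sh := sh) hΛ.le (F := F) (w := w)
    (w₁ := w + K * N) (c := c) (k := k) (a := a + (G₀ + 2 * g)) (pn := pn) (pn₁ := pn) S y b
    (fun s => if s = true then ndc m κ * ℓ else δ * ℓ + ℓ * dl s + v s + C + M * el s) (by
      intro s hs
      have hs0 : 0 < law F.p S s := lt_of_le_of_ne (law_nonneg hp _ _) (Ne.symm hs)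
      have hpos : ∀ ω, 0 < cond F.p S s ω → 0 < F.p ω ∧ S ω = s := fun ω hω =>
        (cond_pos_iff hp S s ω).mp hω
      have hbS : L.Ok (F.res S s (cond_isLaw F.isLaw.nonneg S hs)) (w + K * N) c k a b :=
        fun ω hω => hb ω (hpos ω hω).1
      have hcS : ∀ ω, 0 < (F.res S s (cond_isLaw F.isLaw.nonneg S hs)).p ω →
          L.cw (c ((F.res S s (cond_isLaw F.isLaw.nonneg S hs)).Z ω)) w :=
        fun ω hω => hc ω (hpos ω hω).1
      have hAS : Adm K (sh + N) (F.res S s (cond_isLaw F.isLaw.nonneg S hs)) y :=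
        fun i hi ω ω' hω hω' h => hA i hi ω ω' (hpos ω hω).1 (hpos ω' hω').1 h
      cases s with
      | true =>
        rw [if_pos rfl]
        have h1 := LA.Get.dead (tr := L.tr) L.dead (l := K * N) hwJ hcS (κ := κ)
          (fun z t v => hpκ z (K * N) t v) (LA.Get.self
            (F.res S true (cond_isLaw F.isLaw.nonneg S hs)) pn hbS)
        have h2 : 0 ≤ co f Λ K N sh (F.res S true (cond_isLaw F.isLaw.nonneg S hs)) y :=
          Pool.KN.co_nonneg hΛ hf (F.res S true (cond_isLaw F.isLaw.nonneg S hs)) y N sh hAS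
        refine h1.mono_x (by omega) ?_
        have h3 : ndc m κ * ℓ = ((m + 1) * Real.log 2 + κ) * ((K * N : ℕ) : ℝ) := by
          rw [hℓ]
          rfl
        rw [h3]
        linarith
      | false =>
        rw [if_neg (by simp)]
        have hnear := near_res S (Nat.le_add_right a g) hb hD false hs
        rw [← hcsd] at hnear
        have hDs : 0 ≤ (D + cs) / law F.p S false := by positivity
        have hndS : ∀ ω, 0 < (F.res S false (cond_isLaw F.isLaw.nonneg S hs)).p ω →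
            L.dp J (b ω) < ndc m κ := by
          intro ω hω
          have h1 := (hpos ω hω).2
          rw [hS] at h1
          exact not_le.mp (of_decide_eq_false h1)
        have h1 := loc_one hG hT hC hA0 hΛ hℓ1 hℓ₀ hc₀ hP hJ
          (F.res S false (cond_isLaw F.isLaw.nonneg S hs)) c hcS k a y hAS pn hpn b hbS hndS
          pn' hpn' hDs hnear (X := el false) (by
            rw [hel, hℓ]
            rfl)
        refine h1.mono_x (le_refl _) (le_of_eq ?_)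
        have h2 : dl false = Ex (F.res S false (cond_isLaw F.isLaw.nonneg S hs)).p
          (fun ω => L.dp J (b ω)) := by
          rw [hdl]
          rfl
        rw [← h2, hv, hM, hℓ]
        ring)
  refine hsplit.mono_x (le_refl _) ?_
  -- the sum of the losses
  have hsum : ∀ F' : Bool → ℝ, ∑ s ∈ univ.image S, law F.p S s * F' s =
      law F.p S true * F' true + law F.p S false * F' false := by
    intro F'
    rw [← Fintype.sum_bool (fun s => law F.p S s * F' s)]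
    refine Finset.sum_subset (Finset.subset_univ _) fun s _ hs => ?_
    have h1 : law F.p S s = 0 := by
      by_contra hcon
      exact hs (mem_image_of_law S hcon)
    rw [h1, zero_mul]
  have a5 : law F.p S true + law F.p S false = 1 := by
    have h1 := hsum (fun _ => 1)
    have h2 : ∑ s ∈ univ.image S, law F.p S s = 1 := (sum_law F.p S).trans F.isLaw.sum_one
    simp only [mul_one] at h1
    rw [h2] at h1
    exact h1.symm
  have a6 : law F.p S true * el true + law F.p S false * el false = X := by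
    rw [← hsum, hX, LB.cod, ← hℓ, avg_Ex hp S (fun ω => L.lgv ℓ k (c (F.Z ω)) (b ω)), hel]
  have a6' : law F.p S true * dl true + law F.p S false * dl false =
      Ex F.p (fun ω => L.dp J (b ω)) := by
    rw [← hsum, avg_Ex hp S (fun ω => L.dp J (b ω)), hdl]
  have q0 : 0 ≤ law F.p S true := law_nonneg hp _ _
  have q1 : 0 ≤ law F.p S false := law_nonneg hp _ _
  have a7 : law F.p S true * (ndc m κ * ℓ) ≤ ℓ * (law F.p S true * dl true) := by
    rcases q0.eq_or_lt with h0 | h0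
    · rw [← h0]
      simp
    · have h1 : ndc m κ ≤ dl true := by
        have hQl : IsLaw (cond F.p S true) := cond_isLaw hp S h0.ne'
        have h2 := Ex_mono hQl.nonneg (f := fun _ => ndc m κ) (h := fun ω => L.dp J (b ω))
          (fun ω hω => by
            have h3 := ((cond_pos_iff hp S true ω).mp hω).2
            rw [hS] at h3
            exact of_decide_eq_true h3)
        rw [Ex_const hQl.sum_one] at h2
        rw [hdl]
        exact h2
      have h2 := mul_le_mul_of_nonneg_left h1 (show 0 ≤ law F.p S true * ℓ by positivity)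
      calc law F.p S true * (ndc m κ * ℓ) = law F.p S true * ℓ * ndc m κ := by ring
        _ ≤ law F.p S true * ℓ * dl true := h2
        _ = _ := by ring
  obtain ⟨u, hu⟩ : ∃ u, u = 2 + (4 * A + 4 * A * (D + Real.log 2) / ℓ +
      (2 * C + 12 * A) * X) := ⟨_, rfl⟩
  have hX0 : 0 ≤ X := by
    rw [hX]
    exact L.cod_nonneg F hℓ1 c k b
  have hu2 : 2 ≤ u := by
    rw [hu]
    have : 0 ≤ 4 * A + 4 * A * (D + Real.log 2) / ℓ + (2 * C + 12 * A) * X := by positivity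
    linarith
  have a8 : law F.p S false * v false ≤ c₀ * (Real.log u + 1) := by
    rcases q1.eq_or_lt with h0 | h0
    · rw [← h0, zero_mul]
      have : 0 ≤ Real.log u := Real.log_nonneg (by linarith)
      positivity
    · obtain ⟨p, hpp⟩ : ∃ p, p = law F.p S false := ⟨_, rfl⟩
      rw [← hpp] at h0 a5 a6 ⊢
      have hp1 : p ≤ 1 := by linarith
      have e0 := hel0 false (by rw [← hpp]; exact h0.ne')
      have e1 : 0 ≤ law F.p S true * el true := by
        rcases q0.eq_or_lt with h1 | h1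
        · rw [← h1, zero_mul]
        · exact mul_nonneg h1.le (hel0 true h1.ne')
      have h1 : 2 + (4 * A + 4 * A * ((D + cs) / p) / ℓ + (2 * C + 12 * A) * el false) ≤ u / p := by
        rw [le_div_iff₀ h0, hu]
        have h2 : (2 + (4 * A + 4 * A * ((D + cs) / p) / ℓ + (2 * C + 12 * A) * el false)) * p =
            2 * p + 4 * A * p + 4 * A * (D + cs) / ℓ + (2 * C + 12 * A) * (p * el false) := by
          field_simp
          ring
        rw [h2]
        have h3 : 4 * A * (D + cs) / ℓ ≤ 4 * A * (D + Real.log 2) / ℓ := by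
          refine div_le_div_of_nonneg_right ?_ hℓ0.le
          exact mul_le_mul_of_nonneg_left (by linarith) (by positivity)
        have h4 : (2 * C + 12 * A) * (p * el false) ≤ (2 * C + 12 * A) * X :=
          mul_le_mul_of_nonneg_left (by linarith) (by positivity)
        have h5 : 4 * A * p ≤ 4 * A := by nlinarith
        linarith
      have h2 : 0 < 2 + (4 * A + 4 * A * ((D + cs) / p) / ℓ + (2 * C + 12 * A) * el false) := by
        have : 0 ≤ 4 * A + 4 * A * ((D + cs) / p) / ℓ + (2 * C + 12 * A) * el false := by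
          positivity
        linarith
      have h3 := Real.log_le_log h2 h1
      have h4 := neg_mul_log_le h0 hp1 hu2
      have h5 : p * v false = c₀ * (p * Real.log (2 + (4 * A + 4 * A * ((D + cs) / p) / ℓ +
          (2 * C + 12 * A) * el false))) := by
        rw [hv, hpp]
        ring
      rw [h5]
      refine mul_le_mul_of_nonneg_left ?_ hc₀
      exact (mul_le_mul_of_nonneg_left h3 h0.le).trans h4
  rw [hsum]
  simp only [if_true, Bool.false_eq_true, if_false]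
  have a11 := CH_bool F.isLaw S F.Z
  have a12 := mul_le_mul_of_nonneg_left
    (CH_bool F.isLaw S (fun ω => ((F.l ω, F.Z ω), F.T ω / 2 ^ (K * (sh + N))))) hΛ.le
  rw [← hℓ, ← hu, ← hM]
  have a13 : law F.p S false * (δ * ℓ + ℓ * dl false + v false + C + M * el false) =
      law F.p S false * (δ * ℓ + C) + ℓ * (law F.p S false * dl false) +
      law F.p S false * v false + M * (law F.p S false * el false) := by ring
  rw [a13]
  have a14 : law F.p S false * (δ * ℓ + C) ≤ δ * ℓ + C := by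
    have h1 : 0 ≤ δ * ℓ + C := by positivity
    have h2 : law F.p S false ≤ 1 := by linarith
    exact mul_le_of_le_one_left h1 h2
  have a15 : M * (law F.p S false * el false) ≤ M * X := by
    refine mul_le_mul_of_nonneg_left ?_ hM0
    have e1 : 0 ≤ law F.p S true * el true := by
      rcases q0.eq_or_lt with h1 | h1
      · rw [← h1, zero_mul]
      · exact mul_nonneg h1.le (hel0 true h1.ne')
    linarith
  have a16 : ℓ * (law F.p S true * dl true) + ℓ * (law F.p S false * dl false) =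
      ℓ * Ex F.p (fun ω => L.dp J (b ω)) := by
    rw [← a6']
    ring
  have a17 : (1 + Λ) * Real.log 2 = Real.log 2 + Λ * Real.log 2 := by ring
  rw [a17]
  linarith

/-! ### (LOCALIZE) -/

theorem le_add_lgv {θ : L.V → ℝ} {n c₀ : ℝ} (hn : 1 ≤ n) (hc : 0 ≤ c₀) (J k : ℕ)
    (c : L.Cx) (v : L.V) : θ v ≤ θ v + (c₀ * L.lgv n k c v + n * L.dp J v) := by
  have h1 := mul_nonneg hc (L.lgv_nonneg hn k c v)
  have h2 := mul_nonneg (show 0 ≤ n by linarith) (L.dp_nonneg J v)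
  linarith

/-- The numbers. -/
theorem loc_num {a₀ b₀ X C' c₀ Λ : ℝ} (ha : 0 ≤ a₀) (hb : 0 ≤ b₀) (hX : 0 ≤ X)
    (hc0 : 0 ≤ c₀) (hc : c₀ ≤ 3 * (C' * (1 + Λ))) :
    c₀ * (Real.log (2 + (a₀ + b₀ * X)) + 1) ≤
      3 * C' * (Real.log (2 + a₀ + 6 * b₀) + 1) * (1 + Λ) + C' * (1 + Λ) * X / 2 := by
  obtain ⟨z, hz⟩ : ∃ z, z = 2 + a₀ + 6 * b₀ := ⟨_, rfl⟩
  have hz2 : 2 ≤ z := by linarith
  have hbX : 0 ≤ b₀ * X := mul_nonneg hb hX
  have h1 := log_tan (x := 2 + (a₀ + b₀ * X)) (z := z) (by linarith) (by linarith)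
  have h2 : (2 + (a₀ + b₀ * X) - z) / z ≤ X / 6 := by
    rw [div_le_div_iff₀ (by linarith) (by norm_num)]
    rw [hz]
    nlinarith
  have h3 : 0 ≤ Real.log z := Real.log_nonneg (by linarith)
  have h4 : Real.log (2 + (a₀ + b₀ * X)) + 1 ≤ Real.log z + 1 + X / 6 := by linarith
  have h5 := mul_le_mul_of_nonneg_left h4 hc0
  have h6 := mul_le_mul_of_nonneg_right hc (show 0 ≤ Real.log z + 1 + X / 6 by positivity)
  rw [← hz]
  have h7 : 3 * (C' * (1 + Λ)) * (Real.log z + 1 + X / 6) =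
      3 * C' * (Real.log z + 1) * (1 + Λ) + C' * (1 + Λ) * X / 2 := by ring
  linarith

/-- The local claim from the claim for all families. -/
theorem lcl_of_stp {G₀ : ℕ} {δ c₀ σ ς : ℝ}
    (h : Pool.KN5.STP L.sys f Λ K κ N G₀ δ c₀ σ ς) (g : ℕ) :
    LCL L.toLA (L.Pen σ κ ς) (fun _ _ _ _ => True) (fun J _ k c v =>
      c₀ * L.lgv (K * N : ℕ) k c v + (K * N : ℕ) * L.dp J v)
      f Λ K N g G₀ δ := by
  intro J sh w hJ F c k y hA hcw b _ pn hpn hb
  have h1 := h J sh w hJ F c hcw k g y hA pn hpn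
    (L.Psi F (fun z v => pn z v + (c₀ * L.lgv (K * N : ℕ) k (c z) v +
      (K * N : ℕ) * L.dp J v)) (w + K * N) b)
    (LA.Get.self F _ hb)
  have h2 : L.Get F w c k (g + G₀) pn
      (L.Psi F (fun z v => pn z v + (c₀ * L.lgv (K * N : ℕ) k (c z) v +
        (K * N : ℕ) * L.dp J v)) (w + K * N) b -
        co f Λ K N sh F y - δ * (K * N : ℕ)) := h1
  refine h2.mono_x le_rfl ?_
  rw [LA.Psi_pn F pn (fun z v => pn z v + (c₀ * L.lgv (K * N : ℕ) k (c z) v +
    (K * N : ℕ) * L.dp J v)) (w + K * N) b,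
    Ex_add F.p (fun ω => pn (F.Z ω) (b ω)) (fun ω => c₀ * L.lgv (K * N : ℕ) k (c (F.Z ω)) (b ω) +
      (K * N : ℕ) * L.dp J (b ω))]
  linarith

/-- The new penalty of the class. -/
theorem Psi_add (L : LB m) {J : ℕ} (F : Fam m J) {c : F.ζ → L.Cx} {k : ℕ} {θ θ' : F.ζ → L.V → ℝ}
    {c₀ : ℝ} {l : ℕ} (hθ' : θ' = fun z v => θ z v + (c₀ * L.lgv l k (c z) v + l * L.dp J v))
    (w : ℕ) (b : F.Ω → L.V) :
    L.Psi F θ' w b = L.Psi F θ w b - c₀ * L.cod F l c k b -
      l * Ex F.p (fun ω => L.dp J (b ω)) := by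
  rw [LA.Psi_pn F θ θ' w b]
  have h7 : Ex F.p (fun ω => θ' (F.Z ω) (b ω)) =
      Ex F.p (fun ω => θ (F.Z ω) (b ω)) +
      (c₀ * L.cod F l c k b + l * Ex F.p (fun ω => L.dp J (b ω))) := by
    rw [hθ', Ex_add, Ex_add, Ex_cmul, Ex_cmul]
    rfl
  rw [h7]
  ring

/-- **(LOCALIZE)** -/
theorem locz_of (hG : L.Geo G C g) (hT : L.Turn G A ρ C σm κ ς₀ g l₀) (hC : 0 ≤ C) (hA0 : 0 ≤ A)
    (hκ : 0 ≤ κ) (hς : 0 < ς₀) {σ₁ : ℝ} (hσ₁ : σm ≤ σ₁) {C' : ℝ} (hC' : 2 * (2 * C + 3) ≤ C') :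
    Pool.KN5.LOCZ L.sys κ C' (3 * C' * (Real.log (2 + (4 * A + 4 * A *
      (ndc m κ + Real.log 2)) + 6 * (2 * C + 12 * A)) + 1) + C + Real.log 2)
      (6 * C' / ς₀ + l₀) σ₁
      (2 * g) := by
  intro Y f Λ hΛ K hK hK1 hf N hN G₀ δ c₀ σ ς hδ hc0 hc hσ hσκ hς0 hςK hP
  have hl2 : 0 < Real.log 2 := Real.log_pos (by norm_num)
  have hKN1 : 1 ≤ K * N := Nat.mul_pos hK1 hN
  have hKN : (1 : ℝ) ≤ ((K * N : ℕ) : ℝ) := by exact_mod_cast hKN1
  have hC'0 : 0 ≤ C' := by linarith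
  have hP1 : 0 ≤ C' * (1 + Λ) := by positivity
  have hK0 : (0 : ℝ) < K := by exact_mod_cast hK1
  have hKKN : (K : ℝ) ≤ ((K * N : ℕ) : ℝ) := by
    have : K ≤ K * N := Nat.le_mul_of_pos_right _ hN
    exact_mod_cast this
  obtain ⟨Bd, hBd⟩ : ∃ Bd, Bd = ndc m κ := ⟨_, rfl⟩
  have hBd0 : 0 ≤ Bd := by
    rw [hBd]
    unfold ndc
    positivity
  rw [← hBd]
  have hl0 : (0 : ℝ) ≤ l₀ := Nat.cast_nonneg _
  have hK' : 6 * C' / ς₀ * (1 + Λ) ≤ K := by
    have h1 : 0 ≤ (l₀ : ℝ) * (1 + Λ) := by positivity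
    rw [add_mul] at hK
    linarith
  have hl₀ : l₀ ≤ K * N := by
    have h1 : (l₀ : ℝ) ≤ l₀ * (1 + Λ) := by nlinarith
    have h2 : 0 ≤ 6 * C' / ς₀ * (1 + Λ) := by positivity
    rw [add_mul] at hK
    have h3 : (l₀ : ℝ) ≤ ((K * N : ℕ) : ℝ) := by linarith
    exact_mod_cast h3
  -- the class of the penalties
  have hpen : ς + (C' * (1 + Λ) + 1) / ((K * N : ℕ) : ℝ) ≤ ς₀ := by
    have h0 : 1 ≤ C' * (1 + Λ) := by nlinarith
    have h1 : (C' * (1 + Λ) + 1) / ((K * N : ℕ) : ℝ) ≤ 2 * (C' * (1 + Λ)) / K := by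
      refine (div_le_div_of_nonneg_left (by linarith) hK0 hKKN).trans ?_
      exact div_le_div_of_nonneg_right (by linarith) hK0.le
    have h2 : 6 * (C' * (1 + Λ)) / K ≤ ς₀ := by
      rw [div_le_iff₀ hK0]
      have h3 := mul_le_mul_of_nonneg_left hK' hς.le
      have h4 : ς₀ * (6 * C' / ς₀ * (1 + Λ)) = 6 * (C' * (1 + Λ)) := by
        field_simp
      linarith
    have h3 : 6 * (C' * (1 + Λ)) / K = 4 * (C' * (1 + Λ)) / K + 2 * (C' * (1 + Λ)) / K := by ring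
    linarith
  intro J sh w hJ F c hcw k a y hA θ hθ x hx
  have hwJ : w + K * N ≤ J := by omega
  have hKNJ : ((K * N : ℕ) : ℝ) ≤ J := by
    have : K * N ≤ J := by omega
    exact_mod_cast this
  change F.ζ → L.Cx at c
  change F.ζ → L.V → ℝ at θ
  change L.Get F (w + K * N) c k a
    (fun z v => θ z v + (C' * (1 + Λ) * L.lgv (K * N : ℕ) k (c z) v +
      (K * N : ℕ) * L.dp J v)) x at hx
  change ∀ ω, 0 < F.p ω → L.cw (c (F.Z ω)) w at hcw
  change L.Get F w c k (a + (G₀ + 2 * g)) θ _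
  obtain ⟨θ', hθ'⟩ : ∃ θ' : F.ζ → L.V → ℝ,
    θ' = fun z v => θ z v + (C' * (1 + Λ) * L.lgv (K * N : ℕ) k (c z) v +
      (K * N : ℕ) * L.dp J v) := ⟨_, rfl⟩
  rw [← hθ'] at hx
  have hθp : ∀ z, L.Pen (σ + C' * (1 + Λ) / ((K * N : ℕ) : ℝ)) κ ς (θ z) := hθ
  have hθ'p : ∀ z, L.Pen σm κ ς₀ (θ' z) := by
    intro z
    have h1 := (hθp z).add k (c z) hKN hKNJ hP1
    rw [hθ']
    exact h1.mono (by linarith) le_rfl hpen
  have hθ1 : ∀ z, L.Pen σ κ ς (θ z) := fun z => (hθp z).mono (by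
    have : 0 ≤ C' * (1 + Λ) / ((K * N : ℕ) : ℝ) := by positivity
    linarith) le_rfl le_rfl
  obtain ⟨E, inst, p', hp', pr, b, h1, h2, h3⟩ := hx
  have hcE : ∀ e, 0 < (F.ext p' hp' pr).p e → L.cw (c ((F.ext p' hp' pr).Z e)) w := fun e he =>
    hcw _ (h1.pos hp'.nonneg he)
  have hAE := adm_ext (hp' := hp') h1 hA
  have hco := co_ext (f := f) (Λ := Λ) (K := K) (N := N) (sh := sh) (hp' := hp') h1 y
  have hco0 : 0 ≤ co f Λ K N sh F y := Pool.KN.co_nonneg hΛ hf F y N sh hA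
  refine LA.Get.of_ext (hp' := hp') h1 ?_
  rw [← hco] at hco0 ⊢
  have hB0 : 0 ≤ 3 * C' * (Real.log (2 + (4 * A + 4 * A * (Bd + Real.log 2)) +
      6 * (2 * C + 12 * A)) + 1) := by
    refine mul_nonneg (by positivity) (add_nonneg (Real.log_nonneg ?_) zero_le_one)
    have : 0 ≤ (4 * A + 4 * A * (Bd + Real.log 2)) + 6 * (2 * C + 12 * A) := by positivity
    linarith
  obtain ⟨B₀, hB₀⟩ : ∃ B₀, B₀ = 3 * C' * (Real.log (2 + (4 * A + 4 * A * (Bd + Real.log 2)) +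
      6 * (2 * C + 12 * A)) + 1) := ⟨_, rfl⟩
  rw [← hB₀] at hB0 ⊢
  have hdd : (δ + (B₀ + C + Real.log 2) * (1 + Λ) / ((K * N : ℕ) : ℝ)) * ((K * N : ℕ) : ℝ) =
      δ * ((K * N : ℕ) : ℝ) + (B₀ + C + Real.log 2) * (1 + Λ) := by
    rw [add_mul, div_mul_cancel₀ _ (by linarith)]
  rw [hdd]
  have hC1 : C ≤ C * (1 + Λ) := by nlinarith
  have hBΛ : 0 ≤ B₀ * (1 + Λ) := by positivity
  have hδ0 : 0 ≤ δ * ((K * N : ℕ) : ℝ) := by positivity
  have hθκ : ∀ (z : F.ζ) (l t : ℕ) (v : L.V), θ z (L.tr l t v) ≤ θ z v + κ * l :=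
    fun z l t v => (hθ1 z).1 l t v
  by_cases hopt : ∀ x', L.Get (F.ext p' hp' pr) (w + K * N) c k (a + g) θ' x' →
      x' ≤ L.Psi (F.ext p' hp' pr) θ' (w + K * N) b + Bd * ((K * N : ℕ) : ℝ)
  · -- an almost optimal label
    obtain ⟨X, hX⟩ : ∃ X, X = L.cod (F.ext p' hp' pr) (K * N) c k b := ⟨_, rfl⟩
    have hX0 : 0 ≤ X := by
      rw [hX]
      exact L.cod_nonneg (F.ext p' hp' pr) hKN1 c k b
    have h4 := loc_two hG hT hC hA0 hκ hΛ hf hKN1 hl₀ hδ hc0 (lcl_of_stp hP g) hJ (F.ext p' hp' pr) c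
      hcE k a (fun i e => y i (pr e)) hAE θ hθ1 hθκ b h2 θ' hθ'p
      (show 0 ≤ Bd * ((K * N : ℕ) : ℝ) by positivity) hopt hX
    refine h4.mono_x (le_refl _) ?_
    have e1 : 4 * A * (Bd * ((K * N : ℕ) : ℝ) + Real.log 2) / ((K * N : ℕ) : ℝ) ≤
        4 * A * (Bd + Real.log 2) := by
      rw [div_le_iff₀ (by linarith)]
      have h5 : Real.log 2 ≤ Real.log 2 * ((K * N : ℕ) : ℝ) :=
        le_mul_of_one_le_right hl2.le hKN
      have h6 := mul_le_mul_of_nonneg_left h5 (show 0 ≤ 4 * A by positivity)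
      linarith
    have e2 : Real.log (2 + (4 * A + 4 * A * (Bd * ((K * N : ℕ) : ℝ) + Real.log 2) /
        ((K * N : ℕ) : ℝ) + (2 * C + 12 * A) * X)) ≤
        Real.log (2 + (4 * A + 4 * A * (Bd + Real.log 2) + (2 * C + 12 * A) * X)) := by
      refine Real.log_le_log ?_ (by linarith)
      have : 0 ≤ 4 * A + 4 * A * (Bd * ((K * N : ℕ) : ℝ) + Real.log 2) /
        ((K * N : ℕ) : ℝ) + (2 * C + 12 * A) * X := by positivity
      linarith
    have e3 := mul_le_mul_of_nonneg_left e2 hc0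
    have h5 := loc_num (a₀ := 4 * A + 4 * A * (Bd + Real.log 2)) (b₀ := 2 * C + 12 * A) (X := X)
      (C' := C') (c₀ := c₀) (Λ := Λ) (by positivity) (by positivity) hX0 hc0 hc
    have h6 := Psi_add L (F.ext p' hp' pr) hθ' (w + K * N) b
    have h8 : ((1 + 2 * Λ) * C + 3 * (1 + Λ)) * X ≤ C' * (1 + Λ) * X / 2 := by
      have h9 : (1 + 2 * Λ) * C + 3 * (1 + Λ) ≤ C' * (1 + Λ) / 2 := by
        have h10 := mul_le_mul_of_nonneg_right hC' (show 0 ≤ 1 + Λ by linarith)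
        nlinarith
      have h10 := mul_le_mul_of_nonneg_right h9 hX0
      have e2 : C' * (1 + Λ) * X / 2 = C' * (1 + Λ) / 2 * X := by ring
      rw [e2]
      exact h10
    have h9 : (B₀ + C + Real.log 2) * (1 + Λ) = B₀ * (1 + Λ) + C * (1 + Λ) +
      (1 + Λ) * Real.log 2 := by ring
    have h10 : 3 * C' * (Real.log (2 + (4 * A + 4 * A * (Bd + Real.log 2)) +
      6 * (2 * C + 12 * A)) + 1) * (1 + Λ) = B₀ * (1 + Λ) := by rw [hB₀]
    rw [h10] at h5
    rw [h6, ← hX] at h3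
    rw [h9]
    change L.Get _ _ _ _ _ _ _ at h4
    have h11 : c₀ * (Real.log (2 + (4 * A + 4 * A * (Bd * ((K * N : ℕ) : ℝ) + Real.log 2) /
        ((K * N : ℕ) : ℝ) + (2 * C + 12 * A) * X)) + 1) ≤
        c₀ * (Real.log (2 + (4 * A + 4 * A * (Bd + Real.log 2) + (2 * C + 12 * A) * X)) + 1) :=
      mul_le_mul_of_nonneg_left (by linarith) hc0
    linarith
  · -- the dead move wins
    push Not at hopt
    obtain ⟨x', hx', hlt⟩ := hopt
    have h4 := LA.Get.dead (tr := L.tr) L.dead (l := K * N) hwJ hcE (κ := κ)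
      (fun z t v => (hθ'p z).1 (K * N) t v) hx'
    have h40 : ((m + 1) * Real.log 2 + κ) * ((K * N : ℕ) : ℝ) = Bd * ((K * N : ℕ) : ℝ) := by
      rw [hBd]
      rfl
    rw [h40] at h4
    refine h4.mono 0 (by omega) (fun z v => ?_) ?_
    · rw [hθ', add_zero]
      exact le_add_lgv hKN hP1 J k (c z) v
    · have h5 : 0 ≤ (B₀ + C + Real.log 2) * (1 + Λ) := by positivity
      linarith

end Pool.KNH
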