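import Pool.Agent.H15.KNH.Loc
import Pool.Agent.H96.KN.Walk4

/-!
# The class of the penalties

The length of the codes of a block of `n` digits, for a label `v` inside a coarse cell `c`, is
`log (2 + (k + hx c v) / (n + age v))`: here `k` is the range, and `hx c v` the height of the
coarse cell over the label. The penalties: a dead digit costs at most `κ`; to replace a label by
a label of age zero, with a body smaller by at most `r` digits, gains `σ` for each digit of the age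
and costs at most `ς` for each of the `r` digits. `dp` is the depth of a label, `exc` the excess of
the height function of the coarse cell.
-/

set_option autoImplicit false

namespace Pool.KNH

open Finset Real
open Pool.Agent.H49.Ent Pool.Agent.H32.Dense Pool.STK Pool.KA

/-- Labels with the move to larger windows, and the relation between the bodies. -/
structure LB (m : ℕ) extends LA m where
  /-- the value at the window with `l` digits less, if `t` is the old window -/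
  tr : (_l _t : ℕ) → V → V
  /-- the height of the coarse cell over the label -/
  hx : Cx → V → ℕ
  /-- the body of the second label contains `2 ^ -r` times the body of the first -/
  Sub : (_r : ℕ) → V → V → Prop
  /-- the excess of the height function of the coarse cell over the height function of the label -/
  exc : Cx → V → ℝ
  /-- the depth of the label, at the resolution `J` -/
  dp : (_J : ℕ) → V → ℝ
  dead : Dead toLA tr
  age_tr : ∀ (l t : ℕ) (v : V), age v ≤ age (tr l t v)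
  age_tr_le : ∀ (l t : ℕ) (v : V), age (tr l t v) ≤ age v + l
  hx_tr : ∀ (c : Cx) (l t : ℕ) (v : V), hx c (tr l t v) ≤ hx c v
  hx_sub : ∀ {r : ℕ} {v v' : V}, Sub r v v' → ∀ c : Cx, hx c v' ≤ hx c v + r
  dp_nonneg : ∀ (J : ℕ) (v : V), 0 ≤ dp J v
  dp_tr : ∀ (J l t : ℕ) (v : V), dp J (tr l t v) ≤ dp J v
  dp_sub : ∀ {r : ℕ} {v v' : V}, Sub r v v' → ∀ J : ℕ, 1 ≤ J →
    dp J v' ≤ dp J v + (r : ℝ) / (J : ℝ) ^ 2

variable {m : ℕ}

/-- The length of the codes of a block of `n` digits. -/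
noncomputable def LB.lgv (L : LB m) (n : ℝ) (k : ℕ) (c : L.Cx) (v : L.V) : ℝ :=
  Real.log (2 + ((k : ℝ) + L.hx c v) / (n + L.age v))

/-- **The penalties.** -/
def LB.Pen (L : LB m) (σ κ ς : ℝ) (θ : L.V → ℝ) : Prop :=
  (∀ (l t : ℕ) (v : L.V), θ (L.tr l t v) ≤ θ v + κ * l) ∧
    ∀ (r : ℕ) (v v' : L.V), L.Sub r v v' → L.age v' = 0 →
      θ v' ≤ θ v - σ * L.age v + ς * r

variable {L : LB m}

theorem LB.lgv_arg {n : ℝ} (hn : 1 ≤ n) (k : ℕ) (c : L.Cx) (v : L.V) :
    0 ≤ ((k : ℝ) + L.hx c v) / (n + L.age v) := by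
  have h1 : (0 : ℝ) ≤ L.age v := Nat.cast_nonneg _
  have h2 : (0 : ℝ) ≤ L.hx c v := Nat.cast_nonneg _
  have h3 : (0 : ℝ) ≤ k := Nat.cast_nonneg _
  exact div_nonneg (by linarith) (by linarith)

theorem LB.log_two_le {n : ℝ} (hn : 1 ≤ n) (k : ℕ) (c : L.Cx) (v : L.V) :
    Real.log 2 ≤ L.lgv n k c v :=
  Real.log_le_log (by norm_num) (by linarith [L.lgv_arg hn k c v])

theorem LB.lgv_nonneg {n : ℝ} (hn : 1 ≤ n) (k : ℕ) (c : L.Cx) (v : L.V) :
    0 ≤ L.lgv n k c v :=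
  (Real.log_nonneg (by norm_num)).trans (L.log_two_le hn k c v)

theorem LB.lgv_anti {n n' : ℝ} (hn : 1 ≤ n) (hnn : n ≤ n') (k : ℕ) (c : L.Cx) (v : L.V) :
    L.lgv n' k c v ≤ L.lgv n k c v := by
  have h0 := L.lgv_arg (hn.trans hnn) k c v
  have h1 : (0 : ℝ) ≤ L.age v := Nat.cast_nonneg _
  have h2 : (0 : ℝ) ≤ L.hx c v := Nat.cast_nonneg _
  have h3 : (0 : ℝ) ≤ k := Nat.cast_nonneg _
  have h4 : ((k : ℝ) + L.hx c v) / (n' + L.age v) ≤ ((k : ℝ) + L.hx c v) / (n + L.age v) :=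
    div_le_div_of_nonneg_left (by linarith) (by linarith) (by linarith)
  exact Real.log_le_log (by linarith) (by linarith)

theorem LB.lgv_half {n : ℝ} (hn : 1 ≤ n) (k : ℕ) (c : L.Cx) (v : L.V) :
    L.lgv n k c v ≤ L.lgv (2 * n) k c v + Real.log 2 := by
  have h0 := L.lgv_arg (show 1 ≤ 2 * n by linarith) k c v
  have h0' := L.lgv_arg hn k c v
  have h1 : (0 : ℝ) ≤ L.age v := Nat.cast_nonneg _
  have h2 : (0 : ℝ) ≤ L.hx c v := Nat.cast_nonneg _
  have h3 : (0 : ℝ) ≤ k := Nat.cast_nonneg _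
  have h4 : ((k : ℝ) + L.hx c v) / (n + L.age v) ≤
      2 * (((k : ℝ) + L.hx c v) / (2 * n + L.age v)) := by
    rw [← mul_div_assoc, div_le_div_iff₀ (by linarith) (by linarith)]
    have h5 : 0 ≤ ((k : ℝ) + L.hx c v) * L.age v := by positivity
    nlinarith
  unfold LB.lgv
  rw [← Real.log_mul (by linarith) (by norm_num)]
  exact Real.log_le_log (by linarith) (by linarith)

theorem LB.lgv_tr {n : ℝ} (hn : 1 ≤ n) (k : ℕ) (c : L.Cx) (l t : ℕ) (v : L.V) :
    L.lgv n k c (L.tr l t v) ≤ L.lgv n k c v := by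
  have h0 := L.lgv_arg hn k c (L.tr l t v)
  have h1 : (0 : ℝ) ≤ L.age v := Nat.cast_nonneg _
  have h2 : (0 : ℝ) ≤ L.hx c v := Nat.cast_nonneg _
  have h3 : (0 : ℝ) ≤ k := Nat.cast_nonneg _
  have h4 : (L.age v : ℝ) ≤ L.age (L.tr l t v) := by exact_mod_cast L.age_tr l t v
  have h5 : (L.hx c (L.tr l t v) : ℝ) ≤ L.hx c v := by exact_mod_cast L.hx_tr c l t v
  have h6 : ((k : ℝ) + L.hx c (L.tr l t v)) / (n + L.age (L.tr l t v)) ≤
      ((k : ℝ) + L.hx c v) / (n + L.age v) :=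
    div_le_div₀ (by linarith) (by linarith) (by linarith) (by linarith)
  exact Real.log_le_log (by linarith) (by linarith)

theorem LB.lgv_sub {n : ℝ} (hn : 1 ≤ n) (k : ℕ) (c : L.Cx) {r : ℕ} {v v' : L.V}
    (h : L.Sub r v v') (hv : L.age v' = 0) :
    L.lgv n k c v' ≤ L.lgv n k c v + (L.age v : ℝ) / n + r / n := by
  have h0 := L.lgv_arg hn k c v'
  have h0' := L.lgv_arg hn k c v
  have h1 : (0 : ℝ) ≤ L.age v := Nat.cast_nonneg _
  have h2 : (0 : ℝ) ≤ L.hx c v := Nat.cast_nonneg _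
  have h3 : (0 : ℝ) ≤ k := Nat.cast_nonneg _
  have hr : (0 : ℝ) ≤ r := Nat.cast_nonneg _
  have hn0 : 0 < n := by linarith
  have h4 : (L.hx c v' : ℝ) ≤ L.hx c v + r := by exact_mod_cast L.hx_sub h c
  have h5 : 2 + ((k : ℝ) + L.hx c v') / (n + L.age v') ≤
      (2 + ((k : ℝ) + L.hx c v) / (n + L.age v)) * ((1 + (L.age v : ℝ) / n) * (1 + r / n)) := by
    rw [hv, Nat.cast_zero, add_zero]
    have e1 : (2 + ((k : ℝ) + L.hx c v) / (n + L.age v)) * (1 + (L.age v : ℝ) / n) =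
        2 + 2 * ((L.age v : ℝ) / n) + ((k : ℝ) + L.hx c v) / n := by
      field_simp
    have e2 : ((k : ℝ) + L.hx c v') / n ≤ ((k : ℝ) + L.hx c v) / n + r / n := by
      rw [← add_div]
      exact div_le_div_of_nonneg_right (by linarith) hn0.le
    have e3 : 0 ≤ (L.age v : ℝ) / n := by positivity
    have e4 : 0 ≤ (r : ℝ) / n := by positivity
    have e5 : 0 ≤ ((k : ℝ) + L.hx c v) / n := by positivity
    rw [← mul_assoc, e1]
    nlinarith [mul_nonneg e3 e4, mul_nonneg e5 e4]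
  have e3 : 0 ≤ (L.age v : ℝ) / n := by positivity
  have e4 : 0 ≤ (r : ℝ) / n := by positivity
  have h6 : Real.log (1 + (L.age v : ℝ) / n) ≤ (L.age v : ℝ) / n := by
    have := Real.log_le_sub_one_of_pos (show 0 < 1 + (L.age v : ℝ) / n by linarith)
    linarith
  have h7 : Real.log (1 + (r : ℝ) / n) ≤ (r : ℝ) / n := by
    have := Real.log_le_sub_one_of_pos (show 0 < 1 + (r : ℝ) / n by linarith)
    linarith
  have h8 := Real.log_le_log (by linarith) h5
  rw [Real.log_mul (by linarith) (by positivity), Real.log_mul (by linarith) (by linarith)] at h8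
  unfold LB.lgv
  linarith

theorem LB.Pen.mono {σ σ' κ κ' ς ς' : ℝ} {θ : L.V → ℝ} (h1 : σ' ≤ σ) (h2 : κ ≤ κ') (h3 : ς ≤ ς')
    (h : L.Pen σ κ ς θ) : L.Pen σ' κ' ς' θ := by
  refine ⟨fun l t v => (h.1 l t v).trans ?_, fun r v v' hs hv => (h.2 r v v' hs hv).trans ?_⟩
  · have := mul_le_mul_of_nonneg_right h2 (Nat.cast_nonneg (α := ℝ) l)
    linarith
  · have e1 := mul_le_mul_of_nonneg_right h1 (Nat.cast_nonneg (α := ℝ) (L.age v))
    have e2 := mul_le_mul_of_nonneg_right h3 (Nat.cast_nonneg (α := ℝ) r)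
    linarith

theorem LB.Pen.lin {σ κ ω : ℝ} (h0 : 0 ≤ σ) (h1 : σ ≤ ω) (h2 : ω ≤ κ) :
    L.Pen σ κ 0 (fun v => ω * (L.age v : ℝ)) := by
  refine ⟨fun l t v => ?_, fun r v v' _ hv => ?_⟩
  · have h3 : (L.age (L.tr l t v) : ℝ) ≤ L.age v + l := by exact_mod_cast L.age_tr_le l t v
    have h4 := mul_le_mul_of_nonneg_left h3 (h0.trans h1)
    have h5 := mul_le_mul_of_nonneg_right h2 (Nat.cast_nonneg (α := ℝ) l)
    have h6 : ω * ((L.age v : ℝ) + l) = ω * L.age v + ω * l := by ring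
    rw [h6] at h4
    show ω * (L.age (L.tr l t v) : ℝ) ≤ ω * (L.age v : ℝ) + κ * l
    linarith
  · have h4 := mul_le_mul_of_nonneg_right h1 (Nat.cast_nonneg (α := ℝ) (L.age v))
    show ω * (L.age v' : ℝ) ≤ ω * (L.age v : ℝ) - σ * L.age v + 0 * r
    rw [hv, Nat.cast_zero, mul_zero, zero_mul]
    linarith

theorem LB.Pen.add {σ κ ς : ℝ} {θ : L.V → ℝ} (h : L.Pen σ κ ς θ) {n c₀ : ℝ} {J : ℕ} (k : ℕ)
    (c : L.Cx) (hn : 1 ≤ n) (hnJ : n ≤ J) (hc : 0 ≤ c₀) :
    L.Pen (σ - c₀ / n) κ (ς + (c₀ + 1) / n)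
      (fun v => θ v + (c₀ * L.lgv n k c v + n * L.dp J v)) := by
  have hn0 : 0 < n := by linarith
  have hJ1 : 1 ≤ J := by
    have : (1 : ℝ) ≤ J := hn.trans hnJ
    exact_mod_cast this
  refine ⟨fun l t v => ?_, fun r v v' hs hv => ?_⟩
  · have h1 := h.1 l t v
    have h2 := mul_le_mul_of_nonneg_left (L.lgv_tr hn k c l t v) hc
    have h3 := mul_le_mul_of_nonneg_left (L.dp_tr J l t v) hn0.le
    show θ (L.tr l t v) + (c₀ * L.lgv n k c (L.tr l t v) + n * L.dp J (L.tr l t v)) ≤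
      θ v + (c₀ * L.lgv n k c v + n * L.dp J v) + κ * l
    linarith
  · have h1 := h.2 r v v' hs hv
    have h2 := mul_le_mul_of_nonneg_left (L.lgv_sub hn k c hs hv) hc
    have h3 := mul_le_mul_of_nonneg_left (L.dp_sub hs J hJ1) hn0.le
    have e1 : c₀ * (L.lgv n k c v + (L.age v : ℝ) / n + r / n) = c₀ * L.lgv n k c v +
        c₀ / n * L.age v + c₀ / n * r := by
      field_simp
    have hr : (0 : ℝ) ≤ r := Nat.cast_nonneg r
    have hJ0 : (0 : ℝ) < J := by linarith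
    have e4 : n * ((r : ℝ) / (J : ℝ) ^ 2) ≤ 1 / n * r := by
      have h5 : n * ((r : ℝ) / (J : ℝ) ^ 2) = n / (J : ℝ) ^ 2 * r := by ring
      rw [h5]
      refine mul_le_mul_of_nonneg_right ?_ hr
      rw [div_le_div_iff₀ (by positivity) hn0]
      nlinarith
    have e5 : n * (L.dp J v + (r : ℝ) / (J : ℝ) ^ 2) = n * L.dp J v +
        n * ((r : ℝ) / (J : ℝ) ^ 2) := by ring
    rw [e1] at h2
    rw [e5] at h3
    show θ v' + (c₀ * L.lgv n k c v' + n * L.dp J v') ≤
      θ v + (c₀ * L.lgv n k c v + n * L.dp J v) - (σ - c₀ / n) * L.age v +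
      (ς + (c₀ + 1) / n) * r
    have e2 : (σ - c₀ / n) * L.age v = σ * L.age v - c₀ / n * L.age v := by ring
    have e3 : (ς + (c₀ + 1) / n) * r = ς * r + c₀ / n * r + 1 / n * r := by ring
    rw [e2, e3]
    linarith

/-- The class of labels with penalties. -/
noncomputable def LB.sys (L : LB m) : Pool.KN5.LSys m where
  Cx := L.Cx
  V := L.V
  age := L.age
  Cw := L.cw
  Cw_mono := fun h h1 => L.cw_mono h1 h
  Pen := L.Pen
  Pen_mono := fun h1 h2 h3 h => h.mono h1 h2 h3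
  Pen_lin := fun h0 h1 h2 => LB.Pen.lin h0 h1 h2
  lgv := L.lgv
  lgv_nonneg := fun h => L.lgv_nonneg h _ _ _
  lgv_anti := fun h h1 => L.lgv_anti h h1 _ _ _
  lgv_half := fun h => L.lgv_half h _ _ _
  dp := L.dp
  dp_nonneg := L.dp_nonneg
  Pen_add := fun h _ _ _ k c hn hnJ hc => h.add k c hn hnJ hc
  Get := fun F w c k a θ x => L.Get F w c k a θ x
  mono := fun d ha hθ hx h => h.mono d ha hθ hx

end Pool.KNH
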